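import Pool.Agent.Lib.MP_33ce69_lc.Odd.Poly

/-!
The reduction and the decoder on binary coded inputs.
-/

namespace Pool.Agent.Lib.MP_33ce69_lc.Odd

set_option maxHeartbeats 400000

open Board Pool.Agent.Lib.Complexity

def bn (n : ℕ) (gs : List Gate) : ℕ := (cBoard n gs).n
def bkd (n : ℕ) (gs : List Gate) (v : ℕ) : ℕ := (cBoard n gs).kd v
def bch (n : ℕ) (gs : List Gate) (v : ℕ) : ℕ := (cBoard n gs).ch v

section
variable {α : Type} [Enc α] {gs : α → List Gate} {n a b : α → ℕ} {x : α → Tm}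
  {E : α → List (ℕ × ℕ)}

@[fun_prop] theorem pt_bn' (hn : PT n) (hg : PT gs) : PT fun z => bn (n z) (gs z) := pt_bn hn hg
@[fun_prop] theorem pt_bkd (hn : PT n) (hg : PT gs) (ha : PT a) :
    PT fun z => bkd (n z) (gs z) (a z) := pt_kd hn hg ha
@[fun_prop] theorem pt_bch (hn : PT n) (hg : PT gs) (ha : PT a) :
    PT fun z => bch (n z) (gs z) (a z) := pt_ch hn hg ha

theorem pt_edges (hn : PT n) (hg : PT gs) : PT fun z => (cBoard (n z) (gs z)).edges := by
  have : PT fun z => ((List.range (bn (n z) (gs z))).flatMap fun v => [(v, v + 1),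
      (v, if bkd (n z) (gs z) v = 0 then bn (n z) (gs z) else bch (n z) (gs z) v),
      (bn (n z) (gs z) + 1 + v, bn (n z) (gs z) + 1 + v + 1),
      (bn (n z) (gs z) + 1 + v, bn (n z) (gs z) + 1 +
        if bkd (n z) (gs z) v = 0 then bn (n z) (gs z) else bch (n z) (gs z) v)]) ++
      [(bn (n z) (gs z), bn (n z) (gs z) + 1), (2 * bn (n z) (gs z) + 1, 0)] := by fun_prop
  exact this

@[fun_prop] theorem pt_cycL (hn : PT n) (hg : PT gs) : PT fun z => cycL (n z) (gs z) := by
  have : PT fun z => (2 * bn (n z) (gs z) + 1) :: List.range (2 * bn (n z) (gs z) + 2) := by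
    fun_prop
  exact this

@[fun_prop] theorem pt_tokE (hn : PT n) (hg : PT gs) (hE : PT E) (ha : PT a) (hb : PT b) :
    PT fun z => tokE (n z) (gs z) (E z) (a z) (b z) := by
  have : PT fun z => decide ((a z + b z, a z + bch (n z) (gs z) (b z)) ∈ E z ∨
      (a z + bch (n z) (gs z) (b z), a z + b z) ∈ E z) := by fun_prop
  exact this

@[fun_prop] theorem pt_valE (hn : PT n) (hg : PT gs) (hE : PT E) (ha : PT a) (hx : PT x) :
    PT fun z => valE (n z) (gs z) (E z) (a z) (x z) := by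
  unfold valE; fun_prop

@[fun_prop] theorem pt_offE (hn : PT n) (hg : PT gs) (hE : PT E) :
    PT fun z => offE (n z) (gs z) (E z) := by
  have : PT fun z => if valE (n z) (gs z) (E z) 0 (P0 (gs z) 0 1) = false ∧
      valE (n z) (gs z) (E z) 0 (P1 (gs z) 0 1) = false then bn (n z) (gs z) + 1 else 0 := by
    fun_prop
  exact this

@[fun_prop] theorem pt_dec {u v : α → Bool} (hu : PT u) (hv : PT v) :
    PT fun z => dec (u z) (v z) := by
  unfold dec; fun_prop

@[fun_prop] theorem pt_solE (hn : PT n) (hg : PT gs) (hE : PT E) :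
    PT fun z => solE (n z) (gs z) (E z) := by
  unfold solE; fun_prop

end

abbrev ZI := ℤ × List (Bool × ℤ × ℤ × ℤ)

def clN (x : ZI) : ℕ := min x.1.toNat (2 * x.2.length)

def clG (x : ZI) : List Gate :=
  x.2.map fun g => (g.1, min g.2.1.toNat (2 * x.2.length), min g.2.2.1.toNat (2 * x.2.length),
    min g.2.2.2.toNat (2 * x.2.length))

def clE (m : ℕ) (E : List (ℤ × ℤ)) : List (ℕ × ℕ) :=
  E.map fun p => (min p.1.toNat m, min p.2.toNat m)

def fZ (x : ZI) : List (ℤ × ℤ) × List ℤ :=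
  ((cBoard (clN x) (clG x)).edges.map fun p : ℕ × ℕ => ((p.1 : ℤ), (p.2 : ℤ)),
    (cycL (clN x) (clG x)).map fun a : ℕ => (a : ℤ))

def gZ (x : ZI × List (ℤ × ℤ)) : List ℤ :=
  (solE (clN x.1) (clG x.1) (clE (2 * bn (clN x.1) (clG x.1) + 2) x.2)).map fun a : ℕ => (a : ℤ)

theorem pt_clN : PT clN := by unfold clN; fun_prop
theorem pt_clG : PT clG := by unfold clG; fun_prop

theorem pt_fZ : PT fZ := by
  have h1 := pt_edges pt_clN pt_clG
  have h2 := pt_cycL pt_clN pt_clG
  exact PT.prodMk (PT.map (f := fun _ (p : ℕ × ℕ) => ((p.1 : ℤ), (p.2 : ℤ))) h1 (by fun_prop))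
    (PT.map (f := fun _ (a : ℕ) => (a : ℤ)) h2 (by fun_prop))

theorem pt_gZ : PT gZ := by
  have h1 : PT fun x : ZI × List (ℤ × ℤ) => clN x.1 := pt_clN.comp (by fun_prop)
  have h2 : PT fun x : ZI × List (ℤ × ℤ) => clG x.1 := pt_clG.comp (by fun_prop)
  have h3 := pt_bn' h1 h2
  have h4 : ∀ m : ZI × List (ℤ × ℤ) → ℕ, PT m → PT fun x => clE (2 * m x + 2) x.2 :=
    fun m hm => by unfold clE; fun_prop
  exact PT.map (f := fun _ (a : ℕ) => (a : ℤ)) (pt_solE h1 h2 (h4 _ h3)) (by fun_prop)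

def fN (x : ℕ × List Gate) : List (ℕ × ℕ) × List ℕ := Rep.down (fZ (Rep.up x))
def gN' (x : (ℕ × List Gate) × List (ℕ × ℕ)) : List ℕ := Rep.down (gZ (Rep.up x))

theorem fN_poly : N68a2faeb.IsPolyTime fN := isPolyTime_of_rep pt_fZ fun _ => rfl
theorem gN_poly : N68a2faeb.IsPolyTime gN' := isPolyTime_of_rep pt_gZ fun _ => rfl

variable {n : ℕ} {gs : List Gate}

theorem n_le (h : PCValid n gs) : n ≤ 2 * gs.length := by
  have F := facts h
  have : Finset.range n ⊆ (Finset.range gs.length).image (gW' gs) ∪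
      (Finset.range gs.length).image (gV gs) := fun y hy => by
    obtain ⟨a1, a2⟩ := F.p1 y (Finset.mem_range.1 hy)
    rcases a2 with a | a
    · exact Finset.mem_union_left _ (Finset.mem_image.2 ⟨_, Finset.mem_range.2 a1, a⟩)
    · exact Finset.mem_union_right _ (Finset.mem_image.2 ⟨_, Finset.mem_range.2 a1, a.2⟩)
  have a1 := (Finset.card_le_card this).trans (Finset.card_union_le _ _)
  have a2 := Finset.card_image_le (s := Finset.range gs.length) (f := gW' gs)
  have a3 := Finset.card_image_le (s := Finset.range gs.length) (f := gV gs)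
  simp only [Finset.card_range] at a1 a2 a3
  omega

theorem cl_up (h : PCValid n gs) :
    clN (Rep.up (n, gs)) = n ∧ clG (Rep.up (n, gs)) = gs := by
  have := n_le h
  refine ⟨by simp [clN, this], ?_⟩
  simp only [clG, up_prod, up_list, List.map_map, List.length_map]
  refine (List.map_congr_left fun g hg => ?_).trans (List.map_id _)
  obtain ⟨a1, a2, a3, -⟩ := h.2.1 g hg
  simp only [Function.comp, up_prod, up_nat, up_bool, Int.toNat_natCast, id]
  rw [min_eq_left (by omega), min_eq_left (by omega), min_eq_left (by omega)]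

theorem fN_eq (h : PCValid n gs) : fN (n, gs) = ((cBoard n gs).edges, cycL n gs) := by
  simp [fN, fZ, (cl_up h).1, (cl_up h).2, Function.comp_def, -up_prod]

theorem gN_eq (h : PCValid n gs) {E : List (ℕ × ℕ)}
    (hE : ∀ p ∈ E, p.1 < 2 * bn n gs + 2 ∧ p.2 < 2 * bn n gs + 2) :
    gN' ((n, gs), E) = solE n gs E := by
  have e : clE (2 * bn n gs + 2) (Rep.up E) = E := by
    simp only [clE, up_list, List.map_map]
    refine (List.map_congr_left fun p hp => ?_).trans (List.map_id _)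
    obtain ⟨a1, a2⟩ := hE p hp
    simp only [Function.comp, up_prod, up_nat, Int.toNat_natCast, id]
    rw [min_eq_left (by omega), min_eq_left (by omega)]
  have e' : gN' ((n, gs), E) = Rep.down (gZ (Rep.up (n, gs), Rep.up E)) := rfl
  rw [e', gZ]
  simp only [(cl_up h).1, (cl_up h).2, e]
  simp [Function.comp_def]

theorem reduction (n : ℕ) (gs : List Gate) (h : PCValid n gs) :
    ∃ (m : ℕ) (G : SimpleGraph (Fin m)) (v : Fin m) (C : G.Walk v v),
      Lists (fN (n, gs)).1 G.edgeSet ∧ (fN (n, gs)).2 = C.support.map Fin.val ∧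
      C.IsHamiltonianCycle ∧ (∀ x, Odd (G.neighborSet x).ncard) ∧
      (∃ a c, ∀ x, x ≠ a → x ≠ c → (G.neighborSet x).ncard = 3) ∧
      ∀ (w : Fin m) (D : G.Walk w w) (E : List (ℕ × ℕ)), D.IsHamiltonianCycle →
        D.edgeSet ≠ C.edgeSet → Lists E D.edgeSet → PCSolves n gs (gN' ((n, gs), E)) := by
  obtain ⟨m, G, v, C, a1, a2, a3, a4, a5, a6, a7⟩ := main h
  refine ⟨m, G, v, C, by rwa [fN_eq h], by rwa [fN_eq h], a3, a4, a5, fun w D E x y z => ?_⟩
  rw [gN_eq h fun p hp => by have := z.1 p hp; rwa [a6] at this]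
  exact a7 w D E x y z

end Pool.Agent.Lib.MP_33ce69_lc.Odd
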