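import Pool.Agent.Lib.MP_33ce69_lc.Odd.Main
import Pool.Agent.Lib.Complexity.Bridge

/-!
Running time of the reduction and of the decoder.
-/

namespace Pool.Agent.Lib.MP_33ce69_lc.Odd

set_option maxHeartbeats 400000

open Board Pool.Agent.Lib.Complexity

section
variable {α : Type} [Enc α] {gs : α → List Gate} {n a b c d : α → ℕ} {x : α → Tm}
  {E : α → List (ℕ × ℕ)}

@[fun_prop] theorem pt_gT (hg : PT gs) (ha : PT a) : PT fun z => gT (gs z) (a z) := by
  unfold gT; fun_prop
@[fun_prop] theorem pt_gU (hg : PT gs) (ha : PT a) : PT fun z => gU (gs z) (a z) := by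
  unfold gU; fun_prop
@[fun_prop] theorem pt_gV (hg : PT gs) (ha : PT a) : PT fun z => gV (gs z) (a z) := by
  unfold gV; fun_prop
@[fun_prop] theorem pt_gW (hg : PT gs) (ha : PT a) : PT fun z => gW' (gs z) (a z) := by
  unfold gW'; fun_prop
@[fun_prop] theorem pt_prod (hg : PT gs) (ha : PT a) : PT fun z => prod (gs z) (a z) := by
  unfold prod; fun_prop

@[fun_prop] theorem pt_reads (hg : PT gs) (ha : PT a) (hb : PT b) :
    PT fun z => decide (reads (gs z) (a z) (b z)) := by
  have : PT fun z => decide (1 ≤ b z ∧ b z ≤ 2 * (gs z).length ∧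
      ((b z % 2 = 1 ∧ gU (gs z) ((b z - 1) / 2) = a z) ∨
      (b z % 2 = 0 ∧ gT (gs z) ((b z - 1) / 2) = false ∧ gV (gs z) ((b z - 1) / 2) = a z))) := by
    fun_prop
  exact this.of_eq fun z => decide_eq_decide.2 Iff.rfl

@[fun_prop] theorem pt_sec (hg : PT gs) (ha : PT a) : PT fun z => decide (sec (gs z) (a z)) := by
  have : PT fun z => decide (gT (gs z) (prod (gs z) (a z)) = true ∧
      gW' (gs z) (prod (gs z) (a z)) = a z) := by fun_prop
  exact this.of_eq fun z => decide_eq_decide.2 Iff.rfl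

@[fun_prop] theorem pt_prv (hn : PT n) (ha : PT a) : PT fun z => prv (n z) (a z) := by
  unfold prv; fun_prop
@[fun_prop] theorem pt_nxt (hn : PT n) (ha : PT a) : PT fun z => nxt (n z) (a z) := by
  unfold nxt; fun_prop

@[fun_prop] theorem pt_typN (hn : PT n) (hg : PT gs) (ha : PT a) (hb : PT b) (hc : PT c) :
    PT fun z => typN (n z) (gs z) (a z) (b z) (c z) := by
  unfold typN; fun_prop

@[fun_prop] theorem pt_P0 (hg : PT gs) (ha : PT a) (hb : PT b) :
    PT fun z => P0 (gs z) (a z) (b z) := by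
  unfold P0; fun_prop
@[fun_prop] theorem pt_P1 (hg : PT gs) (ha : PT a) (hb : PT b) :
    PT fun z => P1 (gs z) (a z) (b z) := by
  unfold P1; fun_prop
@[fun_prop] theorem pt_pw (hn : PT n) (hg : PT gs) (ha : PT a) (hb : PT b) :
    PT fun z => pw (n z) (gs z) (a z) (b z) := by
  unfold pw; fun_prop

@[fun_prop] theorem pt_srcN (hn : PT n) (hg : PT gs) (ha : PT a) (hb : PT b) (hc : PT c)
    (hd : PT d) : PT fun z => srcN (n z) (gs z) (a z) (b z) (c z) (d z) := by
  unfold srcN; fun_prop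
@[fun_prop] theorem pt_tgtN (hn : PT n) (hg : PT gs) (ha : PT a) (hb : PT b) (hc : PT c)
    (hd : PT d) : PT fun z => tgtN (n z) (gs z) (a z) (b z) (c z) (d z) := by
  unfold tgtN; fun_prop

@[fun_prop] theorem pt_sN (hn : PT n) (hg : PT gs) (hx : PT x) :
    PT fun z => sN (n z) (gs z) (x z) := by
  unfold sN; fun_prop
@[fun_prop] theorem pt_tN (hn : PT n) (hg : PT gs) (hx : PT x) :
    PT fun z => tN (n z) (gs z) (x z) := by
  unfold tN; fun_prop

@[fun_prop] theorem pt_cA (hn : PT n) (hg : PT gs) : PT fun z => cA (n z) (gs z) := by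
  unfold cA; fun_prop
@[fun_prop] theorem pt_cB (hg : PT gs) : PT fun z => cB (gs z) := by
  unfold cB; fun_prop
@[fun_prop] theorem pt_cN (hn : PT n) (hg : PT gs) : PT fun z => cN (n z) (gs z) := by
  unfold cN; fun_prop
@[fun_prop] theorem pt_encN (hn : PT n) (hg : PT gs) (hx : PT x) :
    PT fun z => encN (n z) (gs z) (x z) := by
  unfold encN; fun_prop
@[fun_prop] theorem pt_encO (hn : PT n) (hg : PT gs) (hx : PT x) :
    PT fun z => encO (n z) (gs z) (x z) := by
  unfold encO; fun_prop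
@[fun_prop] theorem pt_encI (hn : PT n) (hg : PT gs) (hx : PT x) :
    PT fun z => encI (n z) (gs z) (x z) := by
  unfold encI; fun_prop
@[fun_prop] theorem pt_decN (hn : PT n) (hg : PT gs) (ha : PT a) (hb : PT b) :
    PT fun z => decN (n z) (gs z) (a z) (b z) := by
  unfold decN; fun_prop
@[fun_prop] theorem pt_cTyp (hn : PT n) (hg : PT gs) (ha : PT a) :
    PT fun z => cTyp (n z) (gs z) (a z) := by
  unfold cTyp; fun_prop
@[fun_prop] theorem pt_cSrc (hn : PT n) (hg : PT gs) (ha : PT a) :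
    PT fun z => cSrc (n z) (gs z) (a z) := by
  unfold cSrc; fun_prop
@[fun_prop] theorem pt_cTgt (hn : PT n) (hg : PT gs) (ha : PT a) :
    PT fun z => cTgt (n z) (gs z) (a z) := by
  unfold cTgt; fun_prop

@[fun_prop] theorem pt_rin (hn : PT n) (hg : PT gs) (ha : PT a) :
    PT fun z => decide (rin (cTyp (n z) (gs z)) (a z)) := by
  have : PT fun z => decide ((a z % 2 = 0 ∧ cTyp (n z) (gs z) (a z / 2) ≠ 0) ∨
      cTyp (n z) (gs z) (a z / 2) = 1 ∨ cTyp (n z) (gs z) (a z / 2) = 2) := by fun_prop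
  exact this.of_eq fun z => decide_eq_decide.2 Iff.rfl

@[fun_prop] theorem pt_rout (hn : PT n) (hg : PT gs) (ha : PT a) :
    PT fun z => decide (rout (cTyp (n z) (gs z)) (a z)) := by
  have : PT fun z => decide ((a z % 3 = 1 ∧ cTyp (n z) (gs z) (a z / 3) ≠ 0) ∨
      cTyp (n z) (gs z) (a z / 3) = 2) := by fun_prop
  exact this.of_eq fun z => decide_eq_decide.2 Iff.rfl

@[fun_prop] theorem pt_pvv (hn : PT n) (hg : PT gs) (ha : PT a) (hb : PT b) :
    PT fun z => decide (pvv (cN (n z) (gs z)) (cTyp (n z) (gs z)) (cTgt (n z) (gs z))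
      (a z) (b z)) := by
  have : PT fun z => decide (a z < 5 * cN (n z) (gs z) ∧
      ((a z % 5 % 2 = 0 ∧ rout (cTyp (n z) (gs z)) (3 * (a z / 5) + a z % 5 / 2) ∧
        b z + cTgt (n z) (gs z) (3 * (a z / 5) + a z % 5 / 2) ≤ 2 * cN (n z) (gs z)) ∨
      (a z % 5 % 2 = 1 ∧ rin (cTyp (n z) (gs z)) (2 * (a z / 5) + a z % 5 / 2) ∧
        2 * cN (n z) (gs z) < b z + (2 * (a z / 5) + a z % 5 / 2)))) := by fun_prop
  exact this.of_eq fun z => decide_eq_decide.2 Iff.rfl

@[fun_prop] theorem pt_ocol (ha : PT a) : PT fun z => ocol (a z) := by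
  unfold ocol; fun_prop
@[fun_prop] theorem pt_lcol (ha : PT a) : PT fun z => lcol (a z) := by
  unfold lcol; fun_prop
@[fun_prop] theorem pt_ty0 (ha : PT a) (hb : PT b) : PT fun z => ty0 (a z) (b z) := by
  unfold ty0; fun_prop
@[fun_prop] theorem pt_tyR {v : α → Bool} (hv : PT v) (hn : PT n) (ha : PT a) (hb : PT b)
    (hc : PT c) : PT fun z => tyR (v z) (n z) (a z) (b z) (c z) := by
  unfold tyR; fun_prop

@[fun_prop] theorem pt_ty (hn : PT n) (hg : PT gs) (ha : PT a) (hb : PT b) :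
    PT fun z => ty (cN (n z) (gs z)) (cTyp (n z) (gs z)) (cSrc (n z) (gs z)) (cTgt (n z) (gs z))
      (a z) (b z) := by
  unfold ty; fun_prop

/-- the tile type at position `k` -/
def cT (n : ℕ) (gs : List Gate) : ℕ → ℕ := nT (cN n gs) (cTyp n gs) (cSrc n gs) (cTgt n gs)

@[fun_prop] theorem pt_cT (hn : PT n) (hg : PT gs) (ha : PT a) :
    PT fun z => cT (n z) (gs z) (a z) := by
  unfold cT nT; fun_prop

@[fun_prop] theorem pt_pN (ha : PT a) : PT fun z => pN (a z) := by
  unfold pN; fun_prop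
@[fun_prop] theorem pt_pS (ha : PT a) : PT fun z => pS (a z) := by
  unfold pS; fun_prop
@[fun_prop] theorem pt_look (T : List (List ℕ)) (ha : PT a) (hb : PT b) :
    PT fun z => look T (a z) (b z) := by
  unfold look; fun_prop

@[fun_prop] theorem pt_cOut (hn : PT n) (hg : PT gs) (hx : PT x) :
    PT fun z => cOut (n z) (gs z) (x z) := by
  have : PT fun z => 24 * (ocol (encO (n z) (gs z) (x z)) * (2 * cN (n z) (gs z) + 1) + 1) +
      pN (cT (n z) (gs z) (ocol (encO (n z) (gs z) (x z)) * (2 * cN (n z) (gs z) + 1) + 1)) := by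
    fun_prop
  exact this

theorem pt_bn (hn : PT n) (hg : PT gs) : PT fun z => (cBoard (n z) (gs z)).n := by
  have : PT fun z => 24 * ((5 * cN (n z) (gs z) + 1) * (2 * cN (n z) (gs z) + 1) - 1) + 15 := by
    fun_prop
  exact this

theorem pt_kd (hn : PT n) (hg : PT gs) (ha : PT a) :
    PT fun z => (cBoard (n z) (gs z)).kd (a z) := by
  have : PT fun z => look tK (cT (n z) (gs z) (a z / 24)) (a z % 24) := by fun_prop
  exact this

theorem pt_gC (hn : PT n) (hg : PT gs) (ha : PT a) (hb : PT b) (hc : PT c) :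
    PT fun z => gC (c z) (cT (n z) (gs z)) (a z) (b z) := by
  unfold gC; fun_prop

theorem pt_ch (hn : PT n) (hg : PT gs) (ha : PT a) :
    PT fun z => (cBoard (n z) (gs z)).ch (a z) :=
  pt_gC (a := fun z => a z / 24) (c := fun z => 2 * cN (n z) (gs z) + 1)
    (b := fun z => look tC (cT (n z) (gs z) (a z / 24)) (a z % 24)) hn hg (by fun_prop)
    (by fun_prop) (by fun_prop)

end

end Pool.Agent.Lib.MP_33ce69_lc.Odd
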