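import Mathlib

/-!
Boards: a path `0, 1, ..., n-1` with chords, and the states a Hamiltonian cycle leaves on it.
Kinds: 0 port, 1 wire (head next), 2 wire (head before), 3 relay (wire next), 4 relay (wire
before), 5 first corner, 6 middle corner, 7 last corner.
-/

namespace Pool.Agent.Lib.MP_33ce69_lc.Odd

structure Board where
  n : ℕ
  kd : ℕ → ℕ
  sd : ℕ → Bool
  ch : ℕ → ℕ
  L : ℕ → ℕ
  R : ℕ → ℕ
  vt : ℕ → ℕ

def okp (a c : ℕ) : Prop :=
  (a = 0 ∧ (c = 0 ∨ c = 1 ∨ c = 3)) ∨ (a = 1 ∧ (c = 4 ∨ c = 5)) ∨ ((a = 2 ∨ a = 4) ∧ c = 0) ∨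
    ((a = 3 ∨ a = 7) ∧ c = 2) ∨ (a = 5 ∧ c = 6) ∨ (a = 6 ∧ (c = 6 ∨ c = 7))

def okc (a c : ℕ) : Prop :=
  ((a = 1 ∨ a = 2) ∧ (c = 3 ∨ c = 4 ∨ c = 6)) ∨ ((a = 3 ∨ a = 4 ∨ a = 6) ∧ (c = 1 ∨ c = 2)) ∨
    (a = 5 ∧ c = 7) ∨ (a = 7 ∧ c = 5)

instance (a c : ℕ) : Decidable (okp a c) := by unfold okp; infer_instance
instance (a c : ℕ) : Decidable (okc a c) := by unfold okc; infer_instance

def sgn (k m : ℕ) : ℤ :=
  if k = 1 then (if m = 0 then 0 else 1)
  else if k = 2 then (if m = 1 then 0 else 1)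
  else if k = 3 then (if m = 0 then 0 else -1)
  else if k = 4 then (if m = 1 then 0 else -1)
  else if k = 5 then (if m = 0 then -1 else 0)
  else if k = 6 then (if m = 2 then -1 else 0)
  else if k = 7 then (if m = 1 then -1 else 0)
  else 0

theorem sgn_okp {a c : ℕ} (h : okp a c) (h' : sgn c 0 ≠ 0 ∨ sgn a 1 ≠ 0) :
    sgn a 1 + sgn c 0 = 0 := by
  rcases h with ⟨rfl, rfl | rfl | rfl⟩ | ⟨rfl, rfl | rfl⟩ | ⟨rfl | rfl, rfl⟩ | ⟨rfl | rfl, rfl⟩ |
    ⟨rfl, rfl⟩ | ⟨rfl, rfl | rfl⟩ <;> revert h' <;> decide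

theorem sgn_okc {a c : ℕ} (h : okc a c) : sgn a 2 + sgn c 2 = 0 := by
  rcases h with ⟨rfl | rfl, rfl | rfl | rfl⟩ | ⟨rfl | rfl | rfl, rfl | rfl⟩ | ⟨rfl, rfl⟩ |
    ⟨rfl, rfl⟩ <;> decide

namespace Board

variable (b : Board)

def bef (v : ℕ) : ℕ := if b.sd v then b.L v else b.R v
def aft (v : ℕ) : ℕ := if b.sd v then b.L (v + 1) else b.R (v + 1)
def non (v : ℕ) : ℕ := if b.sd v then b.R v else b.L v
def non' (v : ℕ) : ℕ := if b.sd v then b.R (v + 1) else b.L (v + 1)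

structure Valid : Prop where
  pos : 0 < b.n
  k0 : b.kd 0 = 0
  kl : b.kd (b.n - 1) = 4
  pair : ∀ v, v + 1 < b.n → okp (b.kd v) (b.kd (v + 1))
  cont : ∀ v < b.n, b.non v = b.non' v
  port : ∀ v < b.n, b.kd v = 0 → b.bef v = b.aft v ∨
    (b.bef v < b.n ∧ b.kd (b.bef v) = 0 ∧ b.vt (b.bef v) = b.aft v) ∨
    (b.aft v < b.n ∧ b.kd (b.aft v) = 0 ∧ b.vt (b.aft v) = b.bef v)
  chord : ∀ v < b.n, b.kd v ≠ 0 → b.ch v < b.n ∧ b.ch (b.ch v) = v ∧ b.ch v ≠ v + 1 ∧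
    v ≠ b.ch v + 1 ∧ okc (b.kd v) (b.kd (b.ch v))
  face : ∀ v < b.n, b.kd v ≠ 0 → (b.bef v = b.bef (b.ch v) ∧ b.aft v = b.aft (b.ch v)) ∨
    (b.bef v = b.aft (b.ch v) ∧ b.aft v = b.bef (b.ch v))
  ownA : ∀ v < b.n, b.kd v = 1 ∨ b.kd v = 5 → b.aft v = v
  ownB : ∀ v < b.n, b.kd v = 2 → b.bef v = v
  poly : ∀ v < b.n, b.kd v = 5 → v + 2 ≤ b.ch v ∧ b.ch v ≤ v + 4 ∧ b.sd (b.ch v) = b.sd v ∧
    ∀ w, v < w → w < b.ch v → b.kd w = 6 ∧ b.sd w = !b.sd v
  root : b.L 0 = b.n ∧ b.R 0 < b.n ∧ b.kd (b.R 0) = 0 ∧ b.vt (b.R 0) = b.n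
  inner : b.L b.n = b.R b.n

/-- `m v` is the missing edge at `v`: 0 before, 1 next, 2 chord -/
structure Weak (m : ℕ → ℕ) : Prop where
  le : ∀ v < b.n, m v ≤ 2
  path : ∀ v, v + 1 < b.n → (m v = 1 ↔ m (v + 1) = 0)
  chord : ∀ v < b.n, b.kd v ≠ 0 → m v = 2 → m (b.ch v) = 2

def Used (m : ℕ → ℕ) (u v : ℕ) : Prop :=
  (v = u + 1 ∧ m u ≠ 1) ∨ (u = v + 1 ∧ m u ≠ 0) ∨ (b.kd u ≠ 0 ∧ v = b.ch u ∧ m u ≠ 2)

structure State (m : ℕ → ℕ) (q : ℕ) : Prop extends b.Weak m where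
  first : m 0 ≠ 0
  qlt : q < b.n
  qk : q = b.n - 1 ∨ b.kd q = 0
  last : m (b.n - 1) = 1 ↔ q ≠ b.n - 1
  port : ∀ v < b.n, b.kd v = 0 → (m v ≠ 2 ↔ v = q)
  cut : ∀ X : ℕ → Prop, (∃ v < b.n, X v) → ¬ X 0 →
    ∃ u < b.n, ∃ v < b.n, X u ∧ ¬ X v ∧ b.Used m u v

def sg (m : ℕ → ℕ) (v : ℕ) : ℤ := sgn (b.kd v) (m v)

def nb (m : ℕ → ℕ) (v : ℕ) : ℕ :=
  if b.sg m v = 0 then v else if m v = 0 then v - 1 else if m v = 1 then v + 1 else b.ch v

variable {b}

theorem Valid.nxt (h : b.Valid) {v : ℕ} (hv : v < b.n) (hk : b.kd v ≠ 4) : v + 1 < b.n := by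
  have := h.kl
  by_contra hc
  have e : v = b.n - 1 := by omega
  exact hk (e ▸ this)

theorem Valid.prv (h : b.Valid) {v : ℕ} (hk : b.kd v ≠ 0) : ∃ u, v = u + 1 := by
  cases v with
  | zero => exact absurd h.k0 hk
  | succ u => exact ⟨u, rfl⟩

theorem nb_spec (h : b.Valid) {m : ℕ → ℕ} (w : b.Weak m) {v : ℕ} (hv : v < b.n)
    (hs : b.sg m v ≠ 0) :
    b.nb m v < b.n ∧ b.nb m v ≠ v ∧ b.sg m v + b.sg m (b.nb m v) = 0 ∧ b.nb m (b.nb m v) = v := by
  have hk : b.kd v ≠ 0 := fun e => hs (by simp [sg, sgn, e])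
  have hm := w.le v hv
  have key : ∀ u, b.nb m v = u → u < b.n → u ≠ v → b.sg m v + b.sg m u = 0 →
      (if m u = 0 then u - 1 else if m u = 1 then u + 1 else b.ch u) = v →
      b.nb m v < b.n ∧ b.nb m v ≠ v ∧ b.sg m v + b.sg m (b.nb m v) = 0 ∧
        b.nb m (b.nb m v) = v := by
    intro u e h1 h2 h3 h4
    rw [e]
    refine ⟨h1, h2, h3, ?_⟩
    unfold nb
    rw [if_neg (by omega), h4]
  rcases (by omega : m v = 0 ∨ m v = 1 ∨ m v = 2) with e | e | e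
  · obtain ⟨u, rfl⟩ := h.prv hk
    have h1 := (w.path u hv).2 e
    have h2 := h.pair u hv
    refine key u (by simp [nb, hs, e]) (by omega) (by omega) ?_ (by simp [h1])
    unfold sg at hs ⊢
    rw [e] at hs ⊢
    rw [h1, add_comm]
    exact sgn_okp h2 (Or.inl hs)
  · have h0 : v + 1 < b.n := h.nxt hv fun e' => hs (by simp [sg, sgn, e, e'])
    have h1 := (w.path v h0).1 e
    have h2 := h.pair v h0
    refine key (v + 1) (by simp [nb, hs, e]) h0 (by omega) ?_ (by simp [h1])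
    unfold sg at hs ⊢
    rw [e] at hs ⊢
    rw [h1]
    exact sgn_okp h2 (Or.inr hs)
  · obtain ⟨c1, c2, c3, c4, c5⟩ := h.chord v hv hk
    have h1 := w.chord v hv hk e
    refine key (b.ch v) (by simp [nb, hs, e]) c1 ?_ ?_ (by simp [h1, c2])
    · intro e'
      rw [e'] at c5
      unfold okc at c5
      omega
    · unfold sg
      rw [e, h1]
      exact sgn_okc c5

theorem sum_sg (h : b.Valid) {m : ℕ → ℕ} (w : b.Weak m) :
    ∑ v ∈ Finset.range b.n, b.sg m v = 0 := by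
  refine Finset.sum_involution (fun v _ => b.nb m v) (fun v hv => ?_) (fun v hv hs => ?_)
    (fun v hv => ?_) (fun v hv => ?_)
  · by_cases hs : b.sg m v = 0
    · simp [nb, hs]
    · exact (nb_spec h w (Finset.mem_range.1 hv) hs).2.2.1
  · exact (nb_spec h w (Finset.mem_range.1 hv) hs).2.1
  · by_cases hs : b.sg m v = 0
    · simpa [nb, hs] using hv
    · exact Finset.mem_range.2 (nb_spec h w (Finset.mem_range.1 hv) hs).1
  · by_cases hs : b.sg m v = 0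
    · simp [nb, hs]
    · exact (nb_spec h w (Finset.mem_range.1 hv) hs).2.2.2

theorem Valid.kle (h : b.Valid) {v : ℕ} (hv : v < b.n) : b.kd v ≤ 7 := by
  by_cases e : b.kd v = 4
  · omega
  · have := h.pair v (h.nxt hv e)
    unfold okp at this
    omega

theorem Valid.first (h : b.Valid) {w : ℕ} (hw : w < b.n) (hk : 5 ≤ b.kd w) :
    ∃ u < b.n, b.kd u = 5 ∧ u ≤ w ∧ w ≤ b.ch u := by
  induction w with
  | zero => have := h.k0; omega
  | succ w ih =>
    by_cases e : b.kd (w + 1) = 5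
    · have := h.poly _ hw e
      exact ⟨w + 1, hw, e, le_rfl, by omega⟩
    · have h1 := h.pair w hw
      unfold okp at h1
      obtain ⟨u, h2, h3, h4, h5⟩ := ih (by omega) (by omega)
      refine ⟨u, h2, h3, by omega, ?_⟩
      by_contra hc
      have e' : b.ch u = w := by omega
      have := (h.chord u h2 (by omega)).2.2.2.2
      rw [e'] at this
      unfold okc at this
      omega

theorem Valid.corner (h : b.Valid) {u w : ℕ} (hu : u < b.n) (hk : b.kd u = 5) (h1 : u ≤ w)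
    (h2 : w ≤ b.ch u) : w < b.n ∧ ((w = u ∧ b.kd w = 5) ∨ (u < w ∧ w < b.ch u ∧ b.kd w = 6) ∨
      (w = b.ch u ∧ b.kd w = 7)) := by
  obtain ⟨c1, -, -, -, c5⟩ := h.chord u hu (by omega)
  obtain ⟨p1, p2, -, p4⟩ := h.poly u hu hk
  refine ⟨by omega, ?_⟩
  rcases eq_or_lt_of_le h1 with e | e
  · exact Or.inl ⟨e.symm, e ▸ hk⟩
  · rcases eq_or_lt_of_le h2 with e' | e'
    · unfold okc at c5
      exact Or.inr (Or.inr ⟨e', by rw [e']; omega⟩)
    · exact Or.inr (Or.inl ⟨e, e', (p4 w e e').1⟩)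

/-- exactly one edge of the polygon starting at `u` is missing -/
def One (b : Board) (m : ℕ → ℕ) (u : ℕ) : Prop :=
  (m u = 2 ∧ ∀ w, u ≤ w → w < b.ch u → m w ≠ 1) ∨
    (m u ≠ 2 ∧ ∃ j, u ≤ j ∧ j < b.ch u ∧ m j = 1 ∧ ∀ w, u ≤ w → w < b.ch u → m w = 1 → w = j)

theorem poly_sum (h : b.Valid) {m : ℕ → ℕ} {q : ℕ} (s : b.State m q) {u : ℕ} (hu : u < b.n)
    (hk : b.kd u = 5) :
    0 ≤ ∑ w ∈ Finset.Ico u (b.ch u + 1), (b.sg m w - b.sg (fun _ => 2) w) ∧
    (∑ w ∈ Finset.Ico u (b.ch u + 1), (b.sg m w - b.sg (fun _ => 2) w) = 0 → b.One m u) := by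
  obtain ⟨c1, c2, -, -, c5⟩ := h.chord u hu (by omega)
  obtain ⟨p1, p2, -, p4⟩ := h.poly u hu hk
  have k7 : b.kd (b.ch u) = 7 := by unfold okc at c5; omega
  have hc : m u = 2 ↔ m (b.ch u) = 2 :=
    ⟨s.chord u hu (by omega), fun e => c2 ▸ s.chord _ c1 (by omega) e⟩
  have hex : m u = 2 ∨ ∃ j, u ≤ j ∧ j < b.ch u ∧ m j = 1 := by
    obtain ⟨x, hx, y, hy, ⟨x1, x2⟩, y1, hU⟩ := s.cut (fun w => u ≤ w ∧ w ≤ b.ch u)
      ⟨u, hu, le_rfl, by omega⟩ (by
        rintro ⟨a, -⟩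
        have : u = 0 := by omega
        have := h.k0
        subst u
        omega)
    have hm := s.le x hx
    by_contra hc'
    push Not at hc'
    obtain ⟨n1, n2⟩ := hc'
    have n3 : ∀ w, u < w → w ≤ b.ch u → m w ≠ 0 := fun w a1 a2 e => by
      obtain ⟨w, rfl⟩ : ∃ z, w = z + 1 := ⟨w - 1, by omega⟩
      exact n2 w (by omega) (by omega) ((s.path w (by omega)).2 e)
    unfold Used at hU
    rcases (h.corner hu hk x1 x2).2 with ⟨a1, a2⟩ | ⟨a1, a2, a3⟩ | ⟨a1, a2⟩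
    · subst a1
      have := n2 x le_rfl (by omega)
      omega
    · have := n2 x x1 a2
      have := n3 x a1 x2
      omega
    · have := n3 x (by omega) x2
      have : m x ≠ 2 := fun e => n1 (hc.2 (a1 ▸ e))
      have : b.ch x = u := by rw [a1, c2]
      omega
  have l0 := s.le u hu
  have l1 := s.le (u + 1) (by omega)
  have l2 := s.le (u + 2) (by omega)
  have t0 := s.path u (by omega)
  have t1 : m (u + 1) = 1 ↔ m (u + 2) = 0 := s.path (u + 1) (by omega)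
  have k1 := (p4 (u + 1) (by omega) (by omega)).1
  rw [Finset.sum_Ico_eq_sum_range]
  rcases (by omega : b.ch u = u + 2 ∨ b.ch u = u + 3 ∨ b.ch u = u + 4) with e | e | e
  · rw [e] at hc k7 hex
    have hex' : m u = 2 ∨ m u = 1 ∨ m (u + 1) = 1 := by
      rcases hex with a | ⟨j, a1, a2, a3⟩
      · exact Or.inl a
      · rcases (by omega : j = u ∨ j = u + 1) with rfl | rfl <;> omega
    unfold One
    rw [e, show u + 2 + 1 - u = 3 by omega]
    simp only [Finset.sum_range_succ, Finset.sum_range_zero, sg, sgn, hk, k1, k7, Nat.add_zero]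
    norm_num
    refine ⟨by split_ifs <;> omega, fun hs => ?_⟩
    have all : ∀ w, u ≤ w → w < u + 2 → w = u ∨ w = u + 1 := by omega
    rcases hex' with a | a | a
    · refine Or.inl ⟨a, fun w a1 a2 => ?_⟩
      rcases all w a1 a2 with rfl | rfl <;> split_ifs at hs <;> omega
    · refine Or.inr ⟨by omega, u, le_rfl, by omega, a, fun w a1 a2 => ?_⟩
      rcases all w a1 a2 with rfl | rfl <;> split_ifs at hs <;> omega
    · refine Or.inr ⟨by split_ifs at hs <;> omega, u + 1, by omega, by omega, a, fun w a1 a2 => ?_⟩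
      rcases all w a1 a2 with rfl | rfl <;> split_ifs at hs <;> omega
  · rw [e] at hc k7 hex
    have l3 := s.le (u + 3) (by omega)
    have t2 : m (u + 2) = 1 ↔ m (u + 3) = 0 := s.path (u + 2) (by omega)
    have k2 := (p4 (u + 2) (by omega) (by omega)).1
    have hex' : m u = 2 ∨ m u = 1 ∨ m (u + 1) = 1 ∨ m (u + 2) = 1 := by
      rcases hex with a | ⟨j, a1, a2, a3⟩
      · exact Or.inl a
      · rcases (by omega : j = u ∨ j = u + 1 ∨ j = u + 2) with rfl | rfl | rfl <;> omega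
    unfold One
    rw [e, show u + 3 + 1 - u = 4 by omega]
    simp only [Finset.sum_range_succ, Finset.sum_range_zero, sg, sgn, hk, k1, k2, k7, Nat.add_zero]
    norm_num
    refine ⟨by split_ifs <;> omega, fun hs => ?_⟩
    have all : ∀ w, u ≤ w → w < u + 3 → w = u ∨ w = u + 1 ∨ w = u + 2 := by omega
    rcases hex' with a | a | a | a
    · refine Or.inl ⟨a, fun w a1 a2 => ?_⟩
      rcases all w a1 a2 with rfl | rfl | rfl <;> split_ifs at hs <;> omega
    · refine Or.inr ⟨by omega, u, le_rfl, by omega, a, fun w a1 a2 => ?_⟩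
      rcases all w a1 a2 with rfl | rfl | rfl <;> split_ifs at hs <;> omega
    · refine Or.inr ⟨by split_ifs at hs <;> omega, u + 1, by omega, by omega, a, fun w a1 a2 => ?_⟩
      rcases all w a1 a2 with rfl | rfl | rfl <;> split_ifs at hs <;> omega
    · refine Or.inr ⟨by split_ifs at hs <;> omega, u + 2, by omega, by omega, a, fun w a1 a2 => ?_⟩
      rcases all w a1 a2 with rfl | rfl | rfl <;> split_ifs at hs <;> omega
  · rw [e] at hc k7 hex
    have l3 := s.le (u + 3) (by omega)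
    have l4 := s.le (u + 4) (by omega)
    have t2 : m (u + 2) = 1 ↔ m (u + 3) = 0 := s.path (u + 2) (by omega)
    have t3 : m (u + 3) = 1 ↔ m (u + 4) = 0 := s.path (u + 3) (by omega)
    have k2 := (p4 (u + 2) (by omega) (by omega)).1
    have k3 := (p4 (u + 3) (by omega) (by omega)).1
    have hex' : m u = 2 ∨ m u = 1 ∨ m (u + 1) = 1 ∨ m (u + 2) = 1 ∨ m (u + 3) = 1 := by
      rcases hex with a | ⟨j, a1, a2, a3⟩
      · exact Or.inl a
      · rcases (by omega : j = u ∨ j = u + 1 ∨ j = u + 2 ∨ j = u + 3) with rfl | rfl | rfl | rfl <;>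
          omega
    unfold One
    rw [e, show u + 4 + 1 - u = 5 by omega]
    simp only [Finset.sum_range_succ, Finset.sum_range_zero, sg, sgn, hk, k1, k2, k3, k7, Nat.add_zero]
    norm_num
    refine ⟨by split_ifs <;> omega, fun hs => ?_⟩
    have all : ∀ w, u ≤ w → w < u + 4 → w = u ∨ w = u + 1 ∨ w = u + 2 ∨ w = u + 3 := by omega
    rcases hex' with a | a | a | a | a
    · refine Or.inl ⟨a, fun w a1 a2 => ?_⟩
      rcases all w a1 a2 with rfl | rfl | rfl | rfl <;> split_ifs at hs <;> omega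
    · refine Or.inr ⟨by omega, u, le_rfl, by omega, a, fun w a1 a2 => ?_⟩
      rcases all w a1 a2 with rfl | rfl | rfl | rfl <;> split_ifs at hs <;> omega
    · refine Or.inr ⟨by split_ifs at hs <;> omega, u + 1, by omega, by omega, a, fun w a1 a2 => ?_⟩
      rcases all w a1 a2 with rfl | rfl | rfl | rfl <;> split_ifs at hs <;> omega
    · refine Or.inr ⟨by split_ifs at hs <;> omega, u + 2, by omega, by omega, a, fun w a1 a2 => ?_⟩
      rcases all w a1 a2 with rfl | rfl | rfl | rfl <;> split_ifs at hs <;> omega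
    · refine Or.inr ⟨by split_ifs at hs <;> omega, u + 3, by omega, by omega, a, fun w a1 a2 => ?_⟩
      rcases all w a1 a2 with rfl | rfl | rfl | rfl <;> split_ifs at hs <;> omega

end Board

end Pool.Agent.Lib.MP_33ce69_lc.Odd
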