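import Mathlib

namespace Pool.Agent.Lib.MP_33ce69_lc.Odd

/-- A gate `(T, u, v, w)` of a Pure-Circuit instance: for `T = false` a NOR gate with inputs
`u, v` and output `w`; for `T = true` a PURIFY gate with input `u` and outputs `v, w`. -/
abbrev Gate := Bool × ℕ × ℕ × ℕ

/-- node `y` is an output of the gate `g` -/
def IsOut (g : Gate) (y : ℕ) : Prop := g.2.2.2 = y ∨ (g.1 = true ∧ g.2.2.1 = y)

/-- A Pure-Circuit instance: nodes `0, ..., n-1` (at least one), every gate has three distinct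
nodes, every node is the output of exactly one gate. -/
def PCValid (n : ℕ) (gs : List Gate) : Prop :=
  0 < n ∧
  (∀ g ∈ gs, g.2.1 < n ∧ g.2.2.1 < n ∧ g.2.2.2 < n ∧
    g.2.1 ≠ g.2.2.1 ∧ g.2.1 ≠ g.2.2.2 ∧ g.2.2.1 ≠ g.2.2.2) ∧
  ∀ y < n, ∃! k : Fin gs.length, IsOut gs[k] y

/-- the gate constraint for the values `a, b, c` of `u, v, w` (0 and 1 are the pure values) -/
def GateOK (T : Bool) (a b c : ℕ) : Prop :=
  (T = false → (a = 0 ∧ b = 0 → c = 1) ∧ (a = 1 ∨ b = 1 → c = 0)) ∧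
  (T = true → (b ≤ 1 ∨ c ≤ 1) ∧ (a ≤ 1 → b = a ∧ c = a))

/-- `x` lists values in `{0, 1, 2}` (2 is the garbage value) for the nodes and satisfies all
gates. -/
def PCSolves (n : ℕ) (gs : List Gate) (x : List ℕ) : Prop :=
  x.length = n ∧ (∀ a ∈ x, a ≤ 2) ∧
    ∀ g ∈ gs, GateOK g.1 (x.getD g.2.1 0) (x.getD g.2.2.1 0) (x.getD g.2.2.2 0)

end Pool.Agent.Lib.MP_33ce69_lc.Odd
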