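import Pool.Agent.Lib.MP_33ce69_lc.Odd.Net
import Pool.Agent.Lib.MP_33ce69_lc.Odd.Defs

/-!
The network of a Pure-Circuit instance. Nodes are named `(t, a, b)`, terminals `(t, a, b, j)`.
-/

namespace Pool.Agent.Lib.MP_33ce69_lc.Odd

set_option maxHeartbeats 400000

open Board

abbrev Tm := ℕ × ℕ × ℕ × ℕ

def gT (gs : List Gate) (g : ℕ) : Bool := (gs.getD g (false, 0, 0, 0)).1
def gU (gs : List Gate) (g : ℕ) : ℕ := (gs.getD g (false, 0, 0, 0)).2.1
def gV (gs : List Gate) (g : ℕ) : ℕ := (gs.getD g (false, 0, 0, 0)).2.2.1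
def gW' (gs : List Gate) (g : ℕ) : ℕ := (gs.getD g (false, 0, 0, 0)).2.2.2

def prod (gs : List Gate) (y : ℕ) : ℕ :=
  ((List.range gs.length).find? fun g =>
    decide (gW' gs g = y ∨ (gT gs g = true ∧ gV gs g = y))).getD 0

def reads (gs : List Gate) (y s : ℕ) : Prop :=
  1 ≤ s ∧ s ≤ 2 * gs.length ∧ ((s % 2 = 1 ∧ gU gs ((s - 1) / 2) = y) ∨
    (s % 2 = 0 ∧ gT gs ((s - 1) / 2) = false ∧ gV gs ((s - 1) / 2) = y))

def sec (gs : List Gate) (y : ℕ) : Prop := gT gs (prod gs y) = true ∧ gW' gs (prod gs y) = y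

instance (gs : List Gate) (y s : ℕ) : Decidable (reads gs y s) := by unfold reads; infer_instance
instance (gs : List Gate) (y : ℕ) : Decidable (sec gs y) := by unfold sec; infer_instance

def prv (n y : ℕ) : ℕ := if y = 0 then n - 1 else y - 1
def nxt (n y : ℕ) : ℕ := if y + 1 = n then 0 else y + 1

def typN (n : ℕ) (gs : List Gate) (t a b : ℕ) : ℕ :=
  if t ≤ 2 then
    (if a < gs.length ∧ b = 0 then
      (if t = 0 then 2 else if gT gs a = true then (if t = 1 then 3 else 0) else 1) else 0)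
  else if a < n then
    (if t = 3 then (if b ≤ 2 * gs.length then 2 else 0) else if reads gs a b then 3 else 1)
  else 0

def P0 (gs : List Gate) (y s : ℕ) : Tm :=
  if s = 0 then
    (if gT gs (prod gs y) = true then
      (if gW' gs (prod gs y) = y then (0, prod gs y, 0, 2) else (1, prod gs y, 0, 1))
    else (2, prod gs y, 0, 1))
  else (3, y, s - 1, 2)

def P1 (gs : List Gate) (y s : ℕ) : Tm :=
  if s = 0 then (if sec gs y then (0, prod gs y, 0, 1) else (0, prod gs y, 0, 0))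
  else (3, y, s - 1, 1)

def pw (n : ℕ) (gs : List Gate) (y s : ℕ) : Tm :=
  if s = 0 then (if sec gs y then (4, y, 0, 1) else (4, prv n y, 2 * gs.length + 1, 1))
  else if reads gs y s then
    (if gT gs ((s - 1) / 2) = true then (4, gV gs ((s - 1) / 2), 0, 1)
    else if s % 2 = 1 then (1, (s - 1) / 2, 0, 1) else (4, gW' gs ((s - 1) / 2), 0, 1))
  else (4, y, s, 1)

def srcN (n : ℕ) (gs : List Gate) (t a b j : ℕ) : Tm :=
  if t = 0 then
    (if gT gs a = true then
      (if j = 0 then (4, prv n (gW' gs a), 2 * gs.length + 1, 1) else (3, gU gs a, 2 * a + 1, 0))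
    else if j = 0 then (3, gU gs a, 2 * a + 1, 0) else (4, gV gs a, 2 * a + 2, 1))
  else if t = 1 then (if j = 0 then (4, gU gs a, 2 * a + 1, 1) else (0, a, 0, 2))
  else if t = 2 then (if j = 0 then (3, gV gs a, 2 * a + 2, 0) else (0, a, 0, 1))
  else if t = 3 then (if j = 0 then pw n gs a b else P1 gs a b)
  else if j = 0 then P0 gs a b
  else if b = 2 * gs.length + 1 then P1 gs a b else (3, a, b, 0)

def tgtN (n : ℕ) (gs : List Gate) (t a b j : ℕ) : Tm :=
  if t = 0 then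
    (if gT gs a = true then
      (if j = 0 then (3, gV gs a, 0, 1) else if j = 1 then (3, gW' gs a, 0, 1)
        else (4, gW' gs a, 0, 0))
    else if j = 0 then (3, gW' gs a, 0, 1) else if j = 1 then (2, a, 0, 1) else (1, a, 0, 1))
  else if t = 1 then
    (if gT gs a = true then (4, gV gs a, 0, 0) else (3, gU gs a, 2 * a + 1, 0))
  else if t = 2 then (4, gW' gs a, 0, 0)
  else if t = 3 then
    (if j = 0 then
      (if reads gs a b then
        (if b % 2 = 1 then
          (if gT gs ((b - 1) / 2) = true then (0, (b - 1) / 2, 0, 1) else (0, (b - 1) / 2, 0, 0))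
        else (2, (b - 1) / 2, 0, 0))
      else (4, a, b, 1))
    else if j = 1 then (if b = 2 * gs.length then (4, a, b + 1, 1) else (3, a, b + 1, 1))
    else (4, a, b + 1, 0))
  else if b = 2 * gs.length + 1 then
    (if sec gs (nxt n a) then (0, prod gs (nxt n a), 0, 0) else (3, nxt n a, 0, 0))
  else if b = 0 then
    (if gT gs (prod gs a) = true then
      (if gW' gs (prod gs a) = a then (3, a, 0, 0)
        else (3, gU gs (prod gs a), 2 * prod gs a + 1, 0))
    else (3, gV gs (prod gs a), 2 * prod gs a + 2, 0))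
  else if reads gs a b then
    (if b % 2 = 1 then (1, (b - 1) / 2, 0, 0) else (0, (b - 1) / 2, 0, 1))
  else (3, a, b, 0)

structure Facts (n : ℕ) (gs : List Gate) : Prop where
  pos : 0 < n
  p1 : ∀ y < n, prod gs y < gs.length ∧
    (gW' gs (prod gs y) = y ∨ (gT gs (prod gs y) = true ∧ gV gs (prod gs y) = y))
  p2 : ∀ g < gs.length, prod gs (gW' gs g) = g ∧ (gT gs g = true → prod gs (gV gs g) = g)
  p3 : ∀ g < gs.length, gU gs g < n ∧ gV gs g < n ∧ gW' gs g < n ∧ gV gs g ≠ gW' gs g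

variable {n : ℕ} {gs : List Gate}

theorem facts (h : PCValid n gs) : Facts n gs := by
  obtain ⟨h0, h1, h2⟩ := h
  have e : ∀ k : Fin gs.length, ∀ y, IsOut gs[k] y ↔
      (gW' gs k = y ∨ (gT gs k = true ∧ gV gs k = y)) := fun k y => by
    simp [IsOut, gW', gT, gV]
  have p3 : ∀ g < gs.length, gU gs g < n ∧ gV gs g < n ∧ gW' gs g < n ∧ gV gs g ≠ gW' gs g :=
    fun g hg => by
    have := h1 gs[g] (List.getElem_mem hg)
    simp only [gU, gV, gW', List.getD_eq_getElem _ _ hg]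
    exact ⟨this.1, this.2.1, this.2.2.1, this.2.2.2.2.2⟩
  have p1 : ∀ y < n, prod gs y < gs.length ∧
      (gW' gs (prod gs y) = y ∨ (gT gs (prod gs y) = true ∧ gV gs (prod gs y) = y)) := by
    intro y hy
    obtain ⟨k, hk, -⟩ := h2 y hy
    unfold prod
    cases z : (List.range gs.length).find? fun g =>
        decide (gW' gs g = y ∨ (gT gs g = true ∧ gV gs g = y)) with
    | none =>
      have := List.find?_range_eq_none.1 z k k.2
      rw [decide_eq_true ((e k y).1 hk)] at this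
      exact absurd this (by decide)
    | some a =>
      obtain ⟨a1, a2, -⟩ := List.find?_range_eq_some.1 z
      exact ⟨by simpa using a2, by simpa using a1⟩
  have u : ∀ g < gs.length, ∀ y < n, (gW' gs g = y ∨ (gT gs g = true ∧ gV gs g = y)) →
      prod gs y = g := fun g hg y hy z => by
    have := (h2 y hy).unique ((e ⟨_, (p1 y hy).1⟩ y).2 (p1 y hy).2) ((e ⟨g, hg⟩ y).2 z)
    exact congrArg Fin.val this
  exact ⟨h0, p1, fun g hg => ⟨u g hg _ (p3 g hg).2.2.1 (Or.inl rfl),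
    fun z => u g hg _ (p3 g hg).2.1 (Or.inr ⟨z, rfl⟩)⟩, p3⟩

theorem d1 (g : ℕ) : (2 * g + 1 - 1) / 2 = g := by omega
theorem d2 (g : ℕ) : (2 * g + 2 - 1) / 2 = g := by omega
theorem d5 (g : ℕ) : (2 * g + 1) / 2 = g := by omega
theorem d3 (g : ℕ) : (2 * g + 1) % 2 = 1 := by omega
theorem d4 (g : ℕ) : (2 * g + 2) % 2 = 0 := by omega

theorem reads1 {y g : ℕ} : reads gs y (2 * g + 1) ↔ g < gs.length ∧ gU gs g = y := by
  unfold reads
  rw [d1, d3]
  simp only [true_and, one_ne_zero, false_and, or_false]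
  omega

theorem reads2 {y g : ℕ} :
    reads gs y (2 * g + 2) ↔ g < gs.length ∧ gT gs g = false ∧ gV gs g = y := by
  unfold reads
  rw [d2, d4]
  simp only [true_and, zero_ne_one, false_and, false_or]
  exact ⟨fun z => ⟨by omega, z.2.2⟩, fun z => ⟨by omega, by omega, z.2⟩⟩

theorem reads0 {y : ℕ} : ¬ reads gs y 0 := fun z => absurd z.1 (by omega)

theorem reads_cases {y s : ℕ} (r : reads gs y s) : ∃ g < gs.length,
    (s = 2 * g + 1 ∧ gU gs g = y) ∨ (s = 2 * g + 2 ∧ gT gs g = false ∧ gV gs g = y) := by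
  obtain ⟨a1, a2, a3⟩ := r
  refine ⟨(s - 1) / 2, by omega, ?_⟩
  rcases a3 with ⟨a, c⟩ | ⟨a, c⟩
  · exact Or.inl ⟨by omega, c⟩
  · exact Or.inr ⟨by omega, c⟩

theorem prv_nxt {y : ℕ} (hy : y < n) :
    prv n y < n ∧ nxt n y < n ∧ prv n (nxt n y) = y ∧ nxt n (prv n y) = y := by
  have a : ∀ y, (y = 0 ∧ prv n y = n - 1) ∨ (y ≠ 0 ∧ prv n y = y - 1) := fun y => by
    unfold prv; split_ifs <;> omega
  have c : ∀ y, (y + 1 = n ∧ nxt n y = 0) ∨ (y + 1 ≠ n ∧ nxt n y = y + 1) := fun y => by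
    unfold nxt; split_ifs <;> omega
  have a1 := a y
  have a2 := a (nxt n y)
  have c1 := c y
  have c2 := c (prv n y)
  omega

theorem prod_cases (F : Facts n gs) {y : ℕ} (hy : y < n) : ∃ g < gs.length, prod gs y = g ∧
    ((gT gs g = false ∧ gW' gs g = y ∧ ¬ sec gs y) ∨ (gT gs g = true ∧ gW' gs g = y ∧ sec gs y) ∨
      (gT gs g = true ∧ gV gs g = y ∧ gW' gs g ≠ y ∧ ¬ sec gs y)) := by
  obtain ⟨a1, a2⟩ := F.p1 y hy
  refine ⟨_, a1, rfl, ?_⟩
  unfold sec
  by_cases e : gW' gs (prod gs y) = y <;> cases z : gT gs (prod gs y) <;> simp_all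

theorem secW (F : Facts n gs) {g : ℕ} (hg : g < gs.length) :
    sec gs (gW' gs g) ↔ gT gs g = true := by
  simp [sec, (F.p2 g hg).1]

theorem secV (F : Facts n gs) {g : ℕ} (hg : g < gs.length) (t : gT gs g = true) :
    ¬ sec gs (gV gs g) := by
  simp [sec, (F.p2 g hg).2 t, (F.p3 g hg).2.2.2.symm]

def Bd (n : ℕ) (gs : List Gate) (x : Tm) : Prop :=
  x.1 < 5 ∧ x.2.1 < n + gs.length ∧ x.2.2.1 < 2 * gs.length + 2

def RI (n : ℕ) (gs : List Gate) (x : Tm) : Prop :=
  Bd n gs x ∧ x.2.2.2 < 2 ∧ ((x.2.2.2 = 0 ∧ typN n gs x.1 x.2.1 x.2.2.1 ≠ 0) ∨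
    typN n gs x.1 x.2.1 x.2.2.1 = 1 ∨ typN n gs x.1 x.2.1 x.2.2.1 = 2)

def RO (n : ℕ) (gs : List Gate) (x : Tm) : Prop :=
  Bd n gs x ∧ x.2.2.2 < 3 ∧ ((x.2.2.2 = 1 ∧ typN n gs x.1 x.2.1 x.2.2.1 ≠ 0) ∨
    typN n gs x.1 x.2.1 x.2.2.1 = 2)

theorem RI_iff {t a b j : ℕ} : RI n gs (t, a, b, j) ↔ j < 2 ∧
    ((a < gs.length ∧ b = 0 ∧ (t = 0 ∨ (t = 1 ∧ (j = 0 ∨ gT gs a = false)) ∨
      (t = 2 ∧ gT gs a = false))) ∨
    (a < n ∧ ((t = 3 ∧ b ≤ 2 * gs.length) ∨
      (t = 4 ∧ b ≤ 2 * gs.length + 1 ∧ (j = 0 ∨ ¬ reads gs a b))))) := by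
  unfold RI Bd typN
  cases gT gs a <;> by_cases r : reads gs a b <;>
    simp only [r, Bool.false_eq_true, if_false, if_true] <;> split_ifs <;> simp <;> omega

theorem RO_iff {t a b j : ℕ} : RO n gs (t, a, b, j) ↔
    ((a < gs.length ∧ b = 0 ∧ ((t = 0 ∧ j < 3) ∨ (t = 1 ∧ j = 1) ∨
      (t = 2 ∧ j = 1 ∧ gT gs a = false))) ∨
    (a < n ∧ ((t = 3 ∧ b ≤ 2 * gs.length ∧ j < 3) ∨
      (t = 4 ∧ b ≤ 2 * gs.length + 1 ∧ j = 1)))) := by
  unfold RO Bd typN
  cases gT gs a <;> by_cases r : reads gs a b <;>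
    simp only [r, Bool.false_eq_true, if_false, if_true] <;> split_ifs <;> simp <;> omega

def sN (n : ℕ) (gs : List Gate) (x : Tm) : Tm := srcN n gs x.1 x.2.1 x.2.2.1 x.2.2.2
def tN (n : ℕ) (gs : List Gate) (x : Tm) : Tm := tgtN n gs x.1 x.2.1 x.2.2.1 x.2.2.2

theorem readsE {y : ℕ} : ¬ reads gs y (2 * gs.length + 1) := by
  rw [reads1]; omega

theorem in_ok (F : Facts n gs) {t a b j : ℕ} (h : RI n gs (t, a, b, j)) :
    RO n gs (srcN n gs t a b j) ∧ tN n gs (srcN n gs t a b j) = (t, a, b, j) := by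
  rw [RI_iff] at h
  obtain ⟨hj, ⟨ha, rfl, h⟩ | ⟨ha, h⟩⟩ := h
  · obtain ⟨u1, u2, u3, u4⟩ := F.p3 a ha
    have q := prv_nxt u3
    have s1 := secW F ha
    have p := (F.p2 a ha).1
    have n1 : 2 * a + 1 ≤ 2 * gs.length := by omega
    have n2 : 2 * a + 2 ≤ 2 * gs.length := by omega
    have n3 : ¬ 2 * a + 1 = 2 * gs.length + 1 := by omega
    have n4 : ¬ 2 * a + 2 = 2 * gs.length + 1 := by omega
    rcases h with rfl | ⟨rfl, h⟩ | ⟨rfl, h⟩ <;> interval_cases j <;> cases z : gT gs a <;>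
      simp_all [srcN, tN, tgtN, RO_iff, reads1, reads2, d3, d4, d5] <;> omega
  · rcases h with ⟨rfl, hb⟩ | ⟨rfl, hb, h⟩
    · by_cases b0 : b = 0
      · subst b0
        have q := prv_nxt ha
        obtain ⟨g, hg, p, c⟩ := prod_cases F ha
        interval_cases j <;> rcases c with c | c | c <;>
          simp_all [srcN, tN, tgtN, RO_iff, pw, P1]
      · interval_cases j
        · by_cases r : reads gs a b
          · obtain ⟨g, hg, c⟩ := reads_cases r
            obtain ⟨u1, u2, u3, u4⟩ := F.p3 g hg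
            have p := F.p2 g hg
            have u5 := u4.symm
            rcases c with ⟨rfl, c⟩ | ⟨rfl, c', c⟩ <;> subst c <;> cases z : gT gs g <;>
              simp_all [srcN, tN, tgtN, RO_iff, pw, d3, d4, d5]
          · have n1 : ¬ b = 2 * gs.length + 1 := by omega
            simp [srcN, tN, tgtN, RO_iff, pw, *]
            omega
        · have n1 : ¬ b - 1 = 2 * gs.length := by omega
          simp [srcN, tN, tgtN, RO_iff, P1, *]
          omega
    · interval_cases j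
      · by_cases b0 : b = 0
        · subst b0
          obtain ⟨g, hg, p, c⟩ := prod_cases F ha
          rcases c with c | c | c <;> simp_all [srcN, tN, tgtN, RO_iff, P0]
        · simp [srcN, tN, tgtN, RO_iff, P0, *]
          omega
      · by_cases bE : b = 2 * gs.length + 1
        · simp [srcN, tN, tgtN, RO_iff, P1, *]
        · have r : ¬ reads gs a b := by simpa using h
          simp [srcN, tN, tgtN, RO_iff, *]
          omega

theorem out_ok (F : Facts n gs) {t a b j : ℕ} (h : RO n gs (t, a, b, j)) :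
    RI n gs (tgtN n gs t a b j) ∧ sN n gs (tgtN n gs t a b j) = (t, a, b, j) := by
  rw [RO_iff] at h
  obtain ⟨ha, rfl, h⟩ | ⟨ha, h⟩ := h
  · obtain ⟨u1, u2, u3, u4⟩ := F.p3 a ha
    have u5 := u4.symm
    have s1 := secW F ha
    have s2 := secV F ha
    have p := F.p2 a ha
    have n1 : 2 * a + 1 ≤ 2 * gs.length := by omega
    rcases h with ⟨rfl, h⟩ | ⟨rfl, rfl⟩ | ⟨rfl, rfl, h⟩ <;> (try interval_cases j) <;>
      cases z : gT gs a <;>
      simp_all [srcN, sN, tgtN, RI_iff, reads1, reads0, d3, P0, P1, pw]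
  · rcases h with ⟨rfl, hb, hj⟩ | ⟨rfl, hb, rfl⟩
    · interval_cases j
      · by_cases r : reads gs a b
        · obtain ⟨g, hg, c⟩ := reads_cases r
          rcases c with ⟨rfl, c⟩ | ⟨rfl, c⟩ <;> cases z : gT gs g <;>
            simp_all [srcN, sN, tgtN, RI_iff, d3, d4, d5]
        · have n1 : ¬ b = 2 * gs.length + 1 := by omega
          simp [srcN, sN, tgtN, RI_iff, *]
          omega
      · by_cases e : b = 2 * gs.length
        · simp [srcN, sN, tgtN, RI_iff, P1, readsE, *]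
        · simp [srcN, sN, tgtN, RI_iff, P1, *]
          omega
      · simp [srcN, sN, tgtN, RI_iff, P0, *]
    · by_cases bE : b = 2 * gs.length + 1
      · have q := prv_nxt ha
        obtain ⟨g, hg, p, c⟩ := prod_cases F q.2.1
        rcases c with c | c | c <;> simp_all [srcN, sN, tgtN, RI_iff, pw]
      · by_cases b0 : b = 0
        · subst b0
          obtain ⟨g, hg, p, c⟩ := prod_cases F ha
          obtain ⟨u1, u2, u3, u4⟩ := F.p3 g hg
          have n1 : 2 * g + 1 ≤ 2 * gs.length := by omega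
          have n2 : 2 * g + 2 ≤ 2 * gs.length := by omega
          rcases c with c | c | c <;>
            simp_all [srcN, sN, tgtN, RI_iff, pw, reads1, reads2, d3, d4, d5]
        · by_cases r : reads gs a b
          · obtain ⟨g, hg, c⟩ := reads_cases r
            rcases c with ⟨rfl, c⟩ | ⟨rfl, c⟩ <;> cases z : gT gs g <;>
              simp_all [srcN, sN, tgtN, RI_iff, d3, d4, d5]
          · simp [srcN, sN, tgtN, RI_iff, pw, *]
            omega

/-- the node rules at the level of names -/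
structure NV (n : ℕ) (gs : List Gate) (V : Tm → Bool) : Prop where
  buf : ∀ t a b, Bd n gs (t, a, b, 0) → typN n gs t a b = 3 → V (t, a, b, 1) = V (srcN n gs t a b 0)
  mer : ∀ t a b, Bd n gs (t, a, b, 0) → typN n gs t a b = 1 →
    polyR 2 (V (srcN n gs t a b 1)) (V (srcN n gs t a b 0)) (V (t, a, b, 1)) false false = true
  pen : ∀ t a b, Bd n gs (t, a, b, 0) → typN n gs t a b = 2 →
    polyR 4 (V (srcN n gs t a b 1)) (V (srcN n gs t a b 0)) (V (t, a, b, 2)) (V (t, a, b, 1))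
      (V (t, a, b, 0)) = true

variable {V : Tm → Bool}

theorem v_pen (h : NV n gs V) {y s : ℕ} (hy : y < n) (hs : s ≤ 2 * gs.length) :
    polyR 4 (V (P1 gs y s)) (V (pw n gs y s)) (V (P0 gs y (s + 1))) (V (P1 gs y (s + 1)))
      (V (3, y, s, 0)) = true := by
  have := h.pen 3 y s ⟨by simp, by simp; omega, by simp; omega⟩ (by simp [typN, *])
  simpa [srcN, P0, P1] using this

theorem v_buf (h : NV n gs V) {y s : ℕ} (hy : y < n) (r : reads gs y s) :
    V (4, y, s, 1) = V (P0 gs y s) := by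
  have := r.2.1
  simpa [srcN] using h.buf 4 y s ⟨by simp, by simp; omega, by simp; omega⟩ (by simp [typN, *])

theorem v_mer (h : NV n gs V) {y s : ℕ} (hy : y < n) (hs : s ≤ 2 * gs.length)
    (r : ¬ reads gs y s) :
    polyR 2 (V (3, y, s, 0)) (V (P0 gs y s)) (V (4, y, s, 1)) false false = true := by
  have n1 : ¬ s = 2 * gs.length + 1 := by omega
  simpa [srcN, n1] using h.mer 4 y s ⟨by simp, by simp; omega, by simp; omega⟩ (by simp [typN, *])

theorem v_end (h : NV n gs V) {y : ℕ} (hy : y < n) :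
    polyR 2 (V (P1 gs y (2 * gs.length + 1))) (V (P0 gs y (2 * gs.length + 1)))
      (V (4, y, 2 * gs.length + 1, 1)) false false = true := by
  simpa [srcN] using h.mer 4 y (2 * gs.length + 1) ⟨by simp, by simp; omega, by simp⟩
    (by simp [typN, readsE, *])

theorem v_nor (F : Facts n gs) (h : NV n gs V) {g : ℕ} (hg : g < gs.length)
    (t : gT gs g = false) :
    polyR 4 (V (P0 gs (gV gs g) (2 * g + 2))) (V (3, gU gs g, 2 * g + 1, 0)) (V (0, g, 0, 2))
      (V (0, g, 0, 1)) (V (P1 gs (gW' gs g) 0)) = true ∧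
    polyR 2 (V (0, g, 0, 2)) (V (P0 gs (gU gs g) (2 * g + 1)))
      (V (pw n gs (gU gs g) (2 * g + 1))) false false = true ∧
    polyR 2 (V (0, g, 0, 1)) (V (3, gV gs g, 2 * g + 2, 0)) (V (P0 gs (gW' gs g) 0)) false false
      = true ∧
    pw n gs (gV gs g) (2 * g + 2) = (4, gW' gs g, 0, 1) := by
  obtain ⟨u1, u2, u3, -⟩ := F.p3 g hg
  have s1 := secW F hg
  have p := (F.p2 g hg).1
  have r1 : reads gs (gU gs g) (2 * g + 1) := reads1.2 ⟨hg, rfl⟩
  have r2 : reads gs (gV gs g) (2 * g + 2) := reads2.2 ⟨hg, t, rfl⟩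
  rw [← v_buf h u1 r1, ← v_buf h u2 r2]
  refine ⟨?_, ?_, ?_, by simp [pw, d4, d5, *]⟩
  · simpa [srcN, P1, s1, p, t] using
      h.pen 0 g 0 ⟨by simp, by simp; omega, by simp⟩ (by simp [typN, *])
  · simpa [srcN, pw, r1, t, d3] using
      h.mer 1 g 0 ⟨by simp, by simp; omega, by simp⟩ (by simp [typN, *])
  · simpa [srcN, P0, p, t] using
      h.mer 2 g 0 ⟨by simp, by simp; omega, by simp⟩ (by simp [typN, *])

theorem v_pur (F : Facts n gs) (h : NV n gs V) {g : ℕ} (hg : g < gs.length)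
    (t : gT gs g = true) :
    polyR 4 (V (3, gU gs g, 2 * g + 1, 0)) (V (4, prv n (gW' gs g), 2 * gs.length + 1, 1))
      (V (P0 gs (gW' gs g) 0)) (V (P1 gs (gW' gs g) 0)) (V (P1 gs (gV gs g) 0)) = true ∧
    V (P0 gs (gV gs g) 0) = V (P0 gs (gU gs g) (2 * g + 1)) ∧
    pw n gs (gU gs g) (2 * g + 1) = (4, gV gs g, 0, 1) := by
  obtain ⟨u1, u2, u3, u4⟩ := F.p3 g hg
  have s1 := (secW F hg).2 t
  have s2 := secV F hg t
  have p := (F.p2 g hg).1
  have p' := (F.p2 g hg).2 t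
  have r1 : reads gs (gU gs g) (2 * g + 1) := reads1.2 ⟨hg, rfl⟩
  rw [← v_buf h u1 r1]
  refine ⟨?_, ?_, by simp [pw, *]⟩
  · simpa [srcN, P0, P1, s1, s2, p, p', t] using
      h.pen 0 g 0 ⟨by simp, by simp; omega, by simp⟩ (by simp [typN, *])
  · simpa [srcN, P0, p', t, u4.symm] using
      h.buf 1 g 0 ⟨by simp, by simp; omega, by simp⟩ (by simp [typN, *])

theorem pen_x : ∀ {y a b c : Bool}, polyR 4 y false a b c = true → a = false ∧ b = false := by
  decide
theorem pen_y : ∀ {x a b c : Bool}, polyR 4 false x a b c = true → b = false ∧ c = false := by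
  decide
theorem mer_0 : ∀ {o : Bool}, polyR 2 false false o false false = true → o = false := by decide

def Dead (gs : List Gate) (V : Tm → Bool) (y s : ℕ) : Prop :=
  V (P0 gs y s) = false ∧ V (P1 gs y s) = false

def DeadV (gs : List Gate) (V : Tm → Bool) (y s : ℕ) : Prop :=
  V (P0 gs y s) = false ∧ V (3, y, s, 0) = false

theorem k_pw (h : NV n gs V) {y s : ℕ} (hy : y < n) (hs : s ≤ 2 * gs.length)
    (e : V (pw n gs y s) = false) : Dead gs V y (s + 1) := by
  have := v_pen h hy hs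
  rw [e] at this
  exact pen_x this

theorem k_dv (h : NV n gs V) {y s : ℕ} (hy : y < n) (hs : s ≤ 2 * gs.length)
    (e : Dead gs V y s) : DeadV gs V y s := by
  have := v_pen h hy hs
  rw [e.2] at this
  exact ⟨e.1, (pen_y this).2⟩

theorem k_mer (h : NV n gs V) {y s : ℕ} (hy : y < n) (hs : s ≤ 2 * gs.length)
    (r : ¬ reads gs y s) (e : DeadV gs V y s) : V (4, y, s, 1) = false := by
  have := v_mer h hy hs r
  rw [e.1, e.2] at this
  exact mer_0 this

theorem k_zero (h : NV n gs V) {y : ℕ} (hy : y < n) (e : Dead gs V y 0) :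
    V (4, y, 0, 1) = false :=
  k_mer h hy (by omega) reads0 (k_dv h hy (by omega) e)

theorem k_nor2 (F : Facts n gs) (h : NV n gs V) {g : ℕ} (hg : g < gs.length)
    (t : gT gs g = false) (e : DeadV gs V (gV gs g) (2 * g + 2)) :
    V (0, g, 0, 1) = false ∧ Dead gs V (gW' gs g) 0 := by
  obtain ⟨a1, -, a3, -⟩ := v_nor F h hg t
  rw [e.1] at a1
  rw [e.2, (pen_y a1).1] at a3
  exact ⟨(pen_y a1).1, mer_0 a3, (pen_y a1).2⟩

theorem k_nor1 (F : Facts n gs) (h : NV n gs V) {g : ℕ} (hg : g < gs.length)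
    (t : gT gs g = false) (e : DeadV gs V (gU gs g) (2 * g + 1)) :
    V (0, g, 0, 2) = false ∧ V (pw n gs (gU gs g) (2 * g + 1)) = false := by
  obtain ⟨a1, a2, -⟩ := v_nor F h hg t
  rw [e.2] at a1
  rw [e.1, (pen_x a1).1] at a2
  exact ⟨(pen_x a1).1, mer_0 a2⟩

theorem k_pur1 (F : Facts n gs) (h : NV n gs V) {g : ℕ} (hg : g < gs.length)
    (t : gT gs g = true) (e : DeadV gs V (gU gs g) (2 * g + 1)) : Dead gs V (gV gs g) 0 := by
  obtain ⟨a1, a2, -⟩ := v_pur F h hg t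
  rw [e.2] at a1
  exact ⟨a2.trans e.1, (pen_y a1).2⟩

theorem k_pur2 (F : Facts n gs) (h : NV n gs V) {g : ℕ} (hg : g < gs.length)
    (t : gT gs g = true) (e : V (4, prv n (gW' gs g), 2 * gs.length + 1, 1) = false) :
    Dead gs V (gW' gs g) 0 := by
  obtain ⟨a1, -⟩ := v_pur F h hg t
  rw [e] at a1
  exact pen_x a1

theorem k_vp (F : Facts n gs) (h : NV n gs V) {y s : ℕ} (hy : y < n) (h1 : 1 ≤ s)
    (hs : s ≤ 2 * gs.length) (e : DeadV gs V y s) : V (pw n gs y s) = false := by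
  by_cases r : reads gs y s
  · obtain ⟨g, hg, ⟨rfl, rfl⟩ | ⟨rfl, t, rfl⟩⟩ := reads_cases r
    · cases t : gT gs g
      · exact (k_nor1 F h hg t e).2
      · rw [(v_pur F h hg t).2.2]
        exact k_zero h (F.p3 g hg).2.1 (k_pur1 F h hg t e)
    · rw [(v_nor F h hg t).2.2.2]
      exact k_zero h (F.p3 g hg).2.2.1 (k_nor2 F h hg t e).2
  · rw [pw, if_neg (by omega), if_neg r]
    exact k_mer h hy hs r e

theorem k_chain (F : Facts n gs) (h : NV n gs V) {y s : ℕ} (hy : y < n) (h1 : 1 ≤ s)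
    (e : Dead gs V y s) {s' : ℕ} (h2 : s ≤ s') (h3 : s' ≤ 2 * gs.length + 1) :
    Dead gs V y s' := by
  induction s', h2 using Nat.le_induction with
  | base => exact e
  | succ s' h2 ih =>
    exact k_pw h hy (by omega) (k_vp F h hy (by omega) (by omega)
      (k_dv h hy (by omega) (ih (by omega))))

theorem k_end (h : NV n gs V) {y : ℕ} (hy : y < n) (e : Dead gs V y (2 * gs.length + 1)) :
    V (4, y, 2 * gs.length + 1, 1) = false := by
  have := v_end h hy
  rw [e.1, e.2] at this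
  exact mer_0 this

theorem k_start (F : Facts n gs) (h : NV n gs V) {y : ℕ} (hy : y < n)
    (e : V (4, prv n y, 2 * gs.length + 1, 1) = false) : V (pw n gs y 0) = false := by
  rw [pw, if_pos rfl]
  split_ifs with z
  · have := k_pur2 F h (F.p1 y hy).1 z.1 (by rwa [z.2])
    rw [z.2] at this
    exact k_zero h hy this
  · exact e

theorem k_next (F : Facts n gs) (h : NV n gs V) {y s : ℕ} (hy : y < n) (h1 : 1 ≤ s)
    (h2 : s ≤ 2 * gs.length + 1) (e : Dead gs V y s) : Dead gs V (nxt n y) 1 := by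
  have q := prv_nxt hy
  exact k_pw h q.2.1 (by omega) (k_start F h q.2.1 (by
    rw [q.2.2.1]
    exact k_end h hy (k_chain F h hy h1 e h2 le_rfl)))

theorem k_all (F : Facts n gs) (h : NV n gs V) {y s : ℕ} (hy : y < n) (h1 : 1 ≤ s)
    (h2 : s ≤ 2 * gs.length + 1) (e : Dead gs V y s) : ∀ z < n, Dead gs V z 1 := by
  have up : ∀ y < n, Dead gs V y 1 → ∀ z, y ≤ z → z < n → Dead gs V z 1 := fun y hy e z a c => by
    induction z, a using Nat.le_induction with
    | base => exact e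
    | succ z a ih =>
      have := k_next F h (y := z) (by omega) le_rfl (by omega) (ih (by omega))
      rwa [nxt, if_neg (by omega)] at this
  have a1 := k_next F h hy h1 h2 e
  have a2 := up _ (prv_nxt hy).2.1 a1 (n - 1) (by have := (prv_nxt hy).2.1; omega) (by omega)
  have a3 := k_next F h (y := n - 1) (by omega) le_rfl (by omega) a2
  rw [nxt, if_pos (by omega)] at a3
  exact fun z hz => up 0 F.pos a3 z (by omega) hz

theorem all_dead (F : Facts n gs) (h : NV n gs V) (e : Dead gs V 0 1) :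
    ∀ x, RO n gs x → V x = false := by
  have a1 := k_all F h F.pos le_rfl (by omega) e
  have a2 : ∀ y < n, ∀ s, 1 ≤ s → s ≤ 2 * gs.length + 1 → Dead gs V y s := fun y hy s x z =>
    k_chain F h hy le_rfl (a1 y hy) x z
  have a3 : ∀ y < n, V (4, y, 2 * gs.length + 1, 1) = false := fun y hy =>
    k_end h hy (a2 y hy _ (by omega) le_rfl)
  have a4 : ∀ y < n, ∀ s, 1 ≤ s → s ≤ 2 * gs.length → DeadV gs V y s := fun y hy s x z =>
    k_dv h hy z (a2 y hy s x (by omega))
  have a5 : ∀ y < n, Dead gs V y 0 := fun y hy => by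
    obtain ⟨g, hg, -, ⟨t, rfl, -⟩ | ⟨t, rfl, -⟩ | ⟨t, rfl, -⟩⟩ := prod_cases F hy
    · exact (k_nor2 F h hg t (a4 _ (F.p3 g hg).2.1 _ (by omega) (by omega))).2
    · exact k_pur2 F h hg t (a3 _ (prv_nxt hy).1)
    · exact k_pur1 F h hg t (a4 _ (F.p3 g hg).1 _ (by omega) (by omega))
  have a6 : ∀ y < n, ∀ s, s ≤ 2 * gs.length → DeadV gs V y s := fun y hy s z => by
    by_cases s0 : s = 0
    · exact s0 ▸ k_dv h hy (by omega) (a5 y hy)
    · exact a4 y hy s (by omega) z
  rintro ⟨t, a, b, j⟩ hx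
  rw [RO_iff] at hx
  obtain ⟨ha, rfl, hx⟩ | ⟨ha, ⟨rfl, hb, hj⟩ | ⟨rfl, hb, rfl⟩⟩ := hx
  · obtain ⟨u1, u2, u3, u4⟩ := F.p3 a ha
    have s1 := secW F ha
    have s2 := secV F ha
    have p := F.p2 a ha
    have w := a5 _ u3
    have v := a5 _ u2
    have u5 := u4.symm
    unfold Dead at w v
    cases z : gT gs a
    · have n1 := k_nor1 F h ha z (a4 _ u1 _ (by omega) (by omega))
      have n2 := (k_nor2 F h ha z (a4 _ u2 _ (by omega) (by omega))).1
      have r1 : reads gs (gU gs a) (2 * a + 1) := reads1.2 ⟨ha, rfl⟩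
      rcases hx with ⟨rfl, hj⟩ | ⟨rfl, rfl⟩ | ⟨rfl, rfl, -⟩ <;> (try interval_cases j) <;>
        simp_all [P0, P1, pw, d3]
    · rcases hx with ⟨rfl, hj⟩ | ⟨rfl, rfl⟩ | ⟨rfl, rfl, hj⟩ <;> (try interval_cases j) <;>
        simp_all [P0, P1]
  · have w := a2 a ha (b + 1) (by omega) (by omega)
    interval_cases j
    · exact (a6 a ha b hb).2
    · simpa [P1] using w.2
    · simpa [P0] using w.1
  · by_cases e : b = 2 * gs.length + 1
    · exact e ▸ a3 a ha
    · by_cases r : reads gs a b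
      · rw [v_buf h ha r, (a6 a ha b (by omega)).1]
      · exact k_mer h ha (by omega) r (a6 a ha b (by omega))

def dec (a b : Bool) : ℕ := if a = true ∧ b = false then 0 else if b = true ∧ a = false then 1 else 2

theorem copy_ok : ∀ u0 u1 w0 w1 v1 : Bool, polyR 4 u1 true w0 w1 v1 = true →
    ¬ (u0 = false ∧ v1 = false) → (dec u0 v1 ≤ 1 ∨ dec w0 w1 ≤ 1) ∧
      (dec u0 u1 ≤ 1 → dec u0 v1 = dec u0 u1 ∧ dec w0 w1 = dec u0 u1) := by decide

theorem nor_ok : ∀ u0 u1 v0 v1 g f w0 w1 : Bool, polyR 4 v0 u1 g f w1 = true →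
    polyR 2 g u0 true false false = true → polyR 2 f v1 w0 false false = true →
    ¬ (v0 = false ∧ v1 = false) → (dec u0 u1 = 0 ∧ dec v0 v1 = 0 → dec w0 w1 = 1) ∧
      (dec u0 u1 = 1 ∨ dec v0 v1 = 1 → dec w0 w1 = 0) := by decide

theorem alive (F : Facts n gs) (h : NV n gs V) (e : ¬ Dead gs V 0 1) {g : ℕ} (hg : g < gs.length) :
    GateOK (gT gs g) (dec (V (P0 gs (gU gs g) 0)) (V (P1 gs (gU gs g) 0)))
      (dec (V (P0 gs (gV gs g) 0)) (V (P1 gs (gV gs g) 0)))
      (dec (V (P0 gs (gW' gs g) 0)) (V (P1 gs (gW' gs g) 0))) := by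
  have a1 : ∀ y < n, ∀ s ≤ 2 * gs.length, V (pw n gs y s) = true := fun y hy s hs => by
    by_contra z
    exact e (k_all F h hy (by omega) (by omega) (k_pw h hy hs (by simpa using z)) 0 F.pos)
  have a0 : ∀ y < n, V (4, y, 0, 1) = true := fun y hy => by
    obtain ⟨g, hg, -, ⟨t, rfl, -⟩ | ⟨t, rfl, s⟩ | ⟨t, rfl, -⟩⟩ := prod_cases F hy
    · rw [← (v_nor F h hg t).2.2.2]
      exact a1 _ (F.p3 g hg).2.1 _ (by omega)
    · simpa [pw, s] using a1 _ hy 0 (by omega)
    · rw [← (v_pur F h hg t).2.2]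
      exact a1 _ (F.p3 g hg).1 _ (by omega)
  have a2 : ∀ y < n, ∀ s ≤ 2 * gs.length, ¬ DeadV gs V y s := fun y hy s hs z => by
    by_cases s0 : s = 0
    · subst s0
      have := k_mer h hy hs reads0 z
      rw [a0 y hy] at this
      exact absurd this (by decide)
    · have := k_vp F h hy (by omega) hs z
      rw [a1 y hy s hs] at this
      exact absurd this (by decide)
  have a3 : ∀ y < n, ∀ s ≤ 2 * gs.length, dec (V (P0 gs y s)) (V (P1 gs y s)) ≤ 1 →
      dec (V (P0 gs y s)) (V (3, y, s, 0)) = dec (V (P0 gs y s)) (V (P1 gs y s)) ∧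
      dec (V (P0 gs y (s + 1))) (V (P1 gs y (s + 1))) = dec (V (P0 gs y s)) (V (P1 gs y s)) :=
    fun y hy s hs => by
    have := v_pen h hy hs
    rw [a1 y hy s hs] at this
    exact (copy_ok _ _ _ _ _ this (a2 y hy s hs)).2
  have a4 : ∀ y < n, dec (V (P0 gs y 0)) (V (P1 gs y 0)) ≤ 1 → ∀ s ≤ 2 * gs.length,
      dec (V (P0 gs y s)) (V (P1 gs y s)) = dec (V (P0 gs y 0)) (V (P1 gs y 0)) :=
    fun y hy z s hs => by
    induction s with
    | zero => rfl
    | succ s ih => rw [(a3 y hy s (by omega) (by rwa [ih (by omega)])).2, ih (by omega)]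
  have a5 : ∀ y < n, dec (V (P0 gs y 0)) (V (P1 gs y 0)) ≤ 1 → ∀ s ≤ 2 * gs.length,
      dec (V (P0 gs y s)) (V (3, y, s, 0)) = dec (V (P0 gs y 0)) (V (P1 gs y 0)) :=
    fun y hy z s hs => by rw [(a3 y hy s hs (by rwa [a4 y hy z s hs])).1, a4 y hy z s hs]
  obtain ⟨u1, u2, u3, -⟩ := F.p3 g hg
  have bu := fun z => a5 _ u1 z (2 * g + 1) (by omega)
  refine ⟨fun t => ?_, fun t => ?_⟩
  · have bv := fun z => a5 _ u2 z (2 * g + 2) (by omega)
    obtain ⟨n1, n2, n3, -⟩ := v_nor F h hg t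
    rw [a1 _ u1 _ (by omega)] at n2
    obtain ⟨o1, o2⟩ := nor_ok _ _ _ _ _ _ _ _ n1 n2 n3 (a2 _ u2 _ (by omega))
    refine ⟨fun ⟨x, y⟩ => o1 ⟨by rw [bu (by omega), x], by rw [bv (by omega), y]⟩, ?_⟩
    rintro (x | x)
    · exact o2 (Or.inl (by rw [bu (by omega), x]))
    · exact o2 (Or.inr (by rw [bv (by omega), x]))
  · obtain ⟨n1, n2, -⟩ := v_pur F h hg t
    have pp : V (4, prv n (gW' gs g), 2 * gs.length + 1, 1) = true := by
      by_contra z
      have := k_zero h u3 (k_pur2 F h hg t (by simpa using z))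
      rw [a0 _ u3] at this
      exact absurd this (by decide)
    rw [pp] at n1
    obtain ⟨o1, o2⟩ := copy_ok (V (P0 gs (gV gs g) 0)) _ _ _ _ n1 fun z => by
      have := k_zero h u2 z
      rw [a0 _ u2] at this
      exact absurd this (by decide)
    refine ⟨o1, fun z => ?_⟩
    have bz := bu z
    rw [← bz, ← n2] at z
    rw [← bz, ← n2]
    exact o2 z

end Pool.Agent.Lib.MP_33ce69_lc.Odd
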