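import Pool.Agent.Lib.MP_33ce69_lc.Odd.Kink
import Pool.Agent.Lib.MP_33ce69_lc.Defs

/-!
The graph of a board: two copies, each with an apex, joined by two edges.
-/

namespace Pool.Agent.Lib.MP_33ce69_lc.Odd

set_option maxHeartbeats 400000

open SimpleGraph

theorem ham_two {V : Type} [DecidableEq V] {G : SimpleGraph V} {v : V} {D : G.Walk v v}
    (hD : D.IsHamiltonianCycle) (x : V) :
    ∃ a c, a ≠ c ∧ ∀ y, s(x, y) ∈ D.edges ↔ y = a ∨ y = c := by
  obtain ⟨a, c, h1, h2⟩ := Set.ncard_eq_two.1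
    (hD.isCycle.ncard_neighborSet_toSubgraph_eq_two (hD.mem_support x))
  refine ⟨a, c, h1, fun y => ?_⟩
  rw [← Walk.adj_toSubgraph_iff_mem_edges, ← Subgraph.mem_neighborSet, h2]
  simp

theorem ham_cut {V : Type} [DecidableEq V] {G : SimpleGraph V} {v : V} {D : G.Walk v v}
    (hD : D.IsHamiltonianCycle) (X : Set V) {a c : V} (ha : a ∈ X) (hc : c ∉ X) :
    ∃ x y x' y', x ∈ X ∧ y ∉ X ∧ s(x, y) ∈ D.edges ∧ x' ∈ X ∧ y' ∉ X ∧ s(x', y') ∈ D.edges ∧
      ¬ (x = x' ∧ y = y') := by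
  have h1 := hD.mem_support a
  have hD' := (Walk.isHamiltonianCycle_rotate h1).2 hD
  have he : ∀ e, e ∈ (D.rotate a h1).edges → e ∈ D.edges := fun e h =>
    (D.rotate_edges a h1).perm.subset h
  generalize D.rotate a h1 = D' at hD' he
  have h2 := hD'.mem_support c
  obtain ⟨d1, a1, a2, a3⟩ := (D'.takeUntil c h2).exists_boundary_dart X ha hc
  obtain ⟨d2, b1, b2, b3⟩ := (D'.dropUntil c h2).exists_boundary_dart Xᶜ hc (not_not.2 ha)
  have e1 : s(d1.fst, d1.snd) ∈ (D'.takeUntil c h2).edges := List.mem_map.2 ⟨d1, a1, rfl⟩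
  have e2 : s(d2.snd, d2.fst) ∈ (D'.dropUntil c h2).edges :=
    Sym2.eq_swap ▸ List.mem_map.2 ⟨d2, b1, rfl⟩
  have hn := hD'.isCycle.edges_nodup
  rw [← D'.take_spec h2, Walk.edges_append] at hn
  refine ⟨d1.fst, d1.snd, d2.snd, d2.fst, a2, a3, he _ (D'.edges_takeUntil_subset_edges h2 e1),
    not_not.1 b3, b2, he _ (D'.edges_dropUntil_subset_edges h2 e2), fun ⟨z1, z2⟩ => ?_⟩
  rw [z1, z2] at e1
  exact List.disjoint_of_nodup_append hn e1 e2

namespace Board

variable (b : Board)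

def tg (v : ℕ) : ℕ := if b.kd v = 0 then b.n else b.ch v

def edges : List (ℕ × ℕ) :=
  ((List.range b.n).flatMap fun v => [(v, v + 1), (v, b.tg v), (b.n + 1 + v, b.n + 1 + v + 1),
    (b.n + 1 + v, b.n + 1 + b.tg v)]) ++ [(b.n, b.n + 1), (2 * b.n + 1, 0)]

def Rel (x y : ℕ) : Prop :=
  (∃ v < b.n, (x = v ∧ (y = v + 1 ∨ y = b.tg v)) ∨
    (x = b.n + 1 + v ∧ (y = b.n + 1 + v + 1 ∨ y = b.n + 1 + b.tg v))) ∨
  (x = b.n ∧ y = b.n + 1) ∨ (x = 2 * b.n + 1 ∧ y = 0)

def A (x y : ℕ) : Prop := b.Rel x y ∨ b.Rel y x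

def graph : SimpleGraph (Fin (2 * b.n + 2)) := SimpleGraph.fromRel fun x y => b.Rel x y

def Cp (o o' : ℕ) : Prop := (o = 0 ∧ o' = b.n + 1) ∨ (o = b.n + 1 ∧ o' = 0)

def pv (o o' v : ℕ) : ℕ := if v = 0 then o' + b.n else o + v - 1

theorem mem_edges (x y : ℕ) : (x, y) ∈ b.edges ↔ b.Rel x y := by
  simp only [edges, Rel, List.mem_append, List.mem_flatMap, List.mem_range, List.mem_cons,
    Prod.mk.injEq, List.not_mem_nil, or_false]
  refine or_congr (exists_congr fun v => and_congr Iff.rfl ?_) Iff.rfl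
  omega

variable {b}

theorem tg_spec (h : b.Valid) {v : ℕ} (hv : v < b.n) :
    b.tg v ≠ v ∧ b.tg v ≠ v + 1 ∧ v ≠ b.tg v + 1 ∧
      ((b.kd v = 0 ∧ b.tg v = b.n) ∨
        (b.kd v ≠ 0 ∧ b.tg v = b.ch v ∧ b.tg v < b.n ∧ b.tg (b.tg v) = v)) := by
  by_cases k : b.kd v = 0
  · have := h.nxt hv (by omega)
    have e : b.tg v = b.n := if_pos k
    omega
  · obtain ⟨c1, c2, c3, c4, c5⟩ := h.chord v hv k
    have k' : b.kd (b.ch v) ≠ 0 := by unfold okc at c5; omega
    have : b.ch v ≠ v := fun e => by rw [e] at c5; unfold okc at c5; omega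
    have e : b.tg v = b.ch v := if_neg k
    have e' : b.tg (b.ch v) = b.ch (b.ch v) := if_neg k'
    rw [e]
    omega

theorem rel_lt (h : b.Valid) {x y : ℕ} (r : b.Rel x y) :
    x < 2 * b.n + 2 ∧ y < 2 * b.n + 2 ∧ x ≠ y := by
  rcases r with ⟨v, hv, r⟩ | r | r
  · have := tg_spec h hv
    omega
  · omega
  · omega

theorem adj_iff (h : b.Valid) {x y : Fin (2 * b.n + 2)} : b.graph.Adj x y ↔ b.A x y := by
  rw [graph, fromRel_adj]
  refine ⟨fun a => a.2, fun a => ⟨fun e => ?_, a⟩⟩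
  rcases a with a | a <;> exact (rel_lt h a).2.2 (by rw [e])

theorem lists (h : b.Valid) : Lists b.edges b.graph.edgeSet :=
  ⟨fun p hp => ⟨(rel_lt h ((b.mem_edges p.1 p.2).1 hp)).1,
      (rel_lt h ((b.mem_edges p.1 p.2).1 hp)).2.1⟩,
    fun x y => by rw [mem_edgeSet, adj_iff h, mem_edges, mem_edges, A]⟩

theorem nbr (h : b.Valid) {o o' : ℕ} (c : b.Cp o o') {v : ℕ} (hv : v < b.n) (y : ℕ) :
    b.A (o + v) y ↔ y = b.pv o o' v ∨ y = o + v + 1 ∨ y = o + b.tg v := by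
  have t := tg_spec h hv
  unfold Cp at c
  constructor
  · rintro ((⟨u, hu, r⟩ | r | r) | (⟨u, hu, r⟩ | r | r))
    · have e : u = v := by omega
      subst e
      omega
    · omega
    · omega
    · have t' := tg_spec h hu
      by_cases e : b.tg u = v
      · rw [e] at t'
        unfold pv
        split_ifs <;> omega
      · unfold pv
        split_ifs <;> omega
    · unfold pv
      split_ifs <;> omega
    · unfold pv
      split_ifs <;> omega
  · rintro (r | r | r)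
    · unfold pv at r
      split_ifs at r with e
      · exact Or.inr (Or.inr (by omega))
      · exact Or.inr (Or.inl ⟨v - 1, by omega, by omega⟩)
    · exact Or.inl (Or.inl ⟨v, hv, by omega⟩)
    · exact Or.inl (Or.inl ⟨v, hv, by omega⟩)

theorem nbw (h : b.Valid) {o o' : ℕ} (c : b.Cp o o') (y : ℕ) :
    b.A (o + b.n) y ↔ y = o + b.n - 1 ∨ y = o' ∨ ∃ p < b.n, b.kd p = 0 ∧ y = o + p := by
  have hp := h.pos
  unfold Cp at c
  constructor
  · rintro ((⟨u, hu, r⟩ | r | r) | (⟨u, hu, r⟩ | r | r))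
    · omega
    · omega
    · omega
    · have t' := tg_spec h hu
      by_cases k : b.kd u = 0 ∧ y = o + u
      · exact Or.inr (Or.inr ⟨u, hu, k⟩)
      · omega
    · omega
    · omega
  · rintro (r | r | ⟨p, h1, h2, r⟩)
    · exact Or.inr (Or.inl ⟨b.n - 1, by omega, by omega⟩)
    · exact Or.inl (Or.inr (by omega))
    · have t' := tg_spec h h1
      exact Or.inr (Or.inl ⟨p, h1, by omega⟩)

theorem deg_eq (h : b.Valid) (x : Fin (2 * b.n + 2)) :
    (b.graph.neighborSet x).ncard = {y | b.A x y}.ncard := by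
  rw [← Set.ncard_image_of_injective _ Fin.val_injective]
  congr 1
  ext y
  simp only [Set.mem_image, mem_neighborSet, adj_iff h, Set.mem_ofPred_eq]
  refine ⟨fun ⟨z, h1, h2⟩ => h2 ▸ h1, fun a => ⟨⟨y, ?_⟩, a, rfl⟩⟩
  rcases a with a | a
  · exact (rel_lt h a).2.1
  · exact (rel_lt h a).1

theorem deg_three (h : b.Valid) {o o' : ℕ} (c : b.Cp o o') {v : ℕ} (hv : v < b.n) :
    {y | b.A (o + v) y}.ncard = 3 := by
  have t := tg_spec h hv
  refine Set.ncard_eq_three.2 ⟨b.pv o o' v, o + v + 1, o + b.tg v, ?_, ?_, by omega, ?_⟩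
  · unfold pv Cp at *
    split_ifs <;> omega
  · unfold pv Cp at *
    split_ifs <;> omega
  · ext y
    simp [nbr h c hv]

theorem ports_odd (h : b.Valid) (hn : Odd b.n) :
    Odd ((Finset.range b.n).filter fun v => b.kd v = 0).card := by
  have h1 := Finset.card_filter_add_card_filter_not (s := Finset.range b.n) fun v => b.kd v = 0
  have h2 : ∑ _v ∈ (Finset.range b.n).filter (fun v => ¬ b.kd v = 0), (1 : ZMod 2) = 0 := by
    refine Finset.sum_involution (fun v _ => b.ch v) (fun _ _ => rfl) (fun v hv _ => ?_)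
      (fun v hv => ?_) (fun v hv => ?_) <;> rw [Finset.mem_filter, Finset.mem_range] at hv
    · have := tg_spec h hv.1
      omega
    · obtain ⟨c1, -, -, -, c5⟩ := h.chord v hv.1 hv.2
      unfold okc at c5
      rw [Finset.mem_filter, Finset.mem_range]
      omega
    · exact (h.chord v hv.1 hv.2).2.1
  rw [Finset.sum_const, nsmul_eq_mul, mul_one, ZMod.natCast_eq_zero_iff_even] at h2
  rw [Finset.card_range] at h1
  rw [Nat.odd_iff] at hn ⊢
  rw [Nat.even_iff] at h2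
  omega

theorem deg_odd (h : b.Valid) (hn : Odd b.n) {o o' : ℕ} (c : b.Cp o o') :
    Odd {y | b.A (o + b.n) y}.ncard := by
  have hp := h.pos
  have hl := h.kl
  have e : {y | b.A (o + b.n) y} = ↑(insert (o + b.n - 1) (insert o'
      (((Finset.range b.n).filter fun v => b.kd v = 0).image (o + ·)))) := by
    ext y
    simp only [Set.mem_ofPred_eq, nbw h c, Finset.coe_insert, Set.mem_insert_iff, Finset.coe_image,
      Set.mem_image, Finset.coe_filter, Finset.mem_range]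
    refine or_congr Iff.rfl (or_congr Iff.rfl (exists_congr fun p => ?_))
    omega
  unfold Cp at c
  rw [e, Set.ncard_coe_finset, Finset.card_insert_of_notMem, Finset.card_insert_of_notMem,
    Finset.card_image_of_injective _ (add_right_injective o)]
  · have := ports_odd h hn
    rw [Nat.odd_iff] at this ⊢
    omega
  · simp only [Finset.mem_image, Finset.mem_filter, Finset.mem_range, not_exists]
    intro p
    omega
  · simp only [Finset.mem_insert, Finset.mem_image, Finset.mem_filter, Finset.mem_range, not_or,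
      not_exists]
    refine ⟨by omega, fun p ⟨⟨a1, a2⟩, a3⟩ => ?_⟩
    have : p = b.n - 1 := by omega
    rw [this] at a2
    omega

theorem degrees (h : b.Valid) (hn : Odd b.n) :
    (∀ x, Odd (b.graph.neighborSet x).ncard) ∧
      ∃ a c, ∀ x, x ≠ a → x ≠ c → (b.graph.neighborSet x).ncard = 3 := by
  have c0 : b.Cp 0 (b.n + 1) := Or.inl ⟨rfl, rfl⟩
  have c1 : b.Cp (b.n + 1) 0 := Or.inr ⟨rfl, rfl⟩
  have h3 : ∀ x : Fin (2 * b.n + 2), x.val ≠ b.n → x.val ≠ 2 * b.n + 1 →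
      (b.graph.neighborSet x).ncard = 3 := fun x a1 a2 => by
    rw [deg_eq h]
    have := x.2
    by_cases e : x.val < b.n
    · have := deg_three h c0 e
      rwa [Nat.zero_add] at this
    · have := deg_three h c1 (v := x.val - (b.n + 1)) (by omega)
      rwa [show b.n + 1 + (x.val - (b.n + 1)) = x.val by omega] at this
  refine ⟨fun x => ?_, ⟨b.n, by omega⟩, ⟨2 * b.n + 1, by omega⟩, fun x a1 a2 =>
    h3 x (fun e => a1 (Fin.ext e)) (fun e => a2 (Fin.ext e))⟩
  by_cases a1 : x.val = b.n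
  · have := deg_odd h hn c0
    rwa [deg_eq h, a1, ← Nat.zero_add b.n]
  · by_cases a2 : x.val = 2 * b.n + 1
    · have := deg_odd h hn c1
      rwa [deg_eq h, a2, show 2 * b.n + 1 = b.n + 1 + b.n by omega]
    · rw [h3 x a1 a2]
      decide

theorem a_succ {x : ℕ} (hx : x + 1 < 2 * b.n + 2) : b.A x (x + 1) := by
  rcases lt_trichotomy x b.n with e | e | e
  · exact Or.inl (Or.inl ⟨x, e, by omega⟩)
  · exact Or.inl (Or.inr (by omega))
  · exact Or.inl (Or.inl ⟨x - (b.n + 1), by omega, by omega⟩)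

theorem exists_path (h : b.Valid) (k : ℕ) (hk : k < 2 * b.n + 2) :
    ∃ p : b.graph.Walk ⟨0, by omega⟩ ⟨k, hk⟩, p.support.map Fin.val = List.range (k + 1) ∧
      ∀ x y, s(x, y) ∈ p.edges ↔ (y.val = x.val + 1 ∧ y.val ≤ k) ∨
        (x.val = y.val + 1 ∧ x.val ≤ k) := by
  induction k with
  | zero => exact ⟨Walk.nil, by simp, fun x y => by
      simp only [Walk.edges_nil, List.not_mem_nil, false_iff]
      omega⟩
  | succ k ih =>
    obtain ⟨p, h1, h2⟩ := ih (by omega)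
    refine ⟨p.concat ((adj_iff h).2 (a_succ hk)), ?_, fun x y => ?_⟩
    · rw [Walk.support_concat, List.range_succ (n := k + 1), ← h1]
      simp
    · rw [Walk.edges_concat, List.concat_eq_append, List.mem_append, h2, List.mem_singleton,
        Sym2.eq_iff]
      simp only [Fin.ext_iff]
      omega

theorem exists_home (h : b.Valid) :
    ∃ (v : Fin (2 * b.n + 2)) (C : b.graph.Walk v v),
      C.support.map Fin.val = (2 * b.n + 1) :: List.range (2 * b.n + 2) ∧ C.IsHamiltonianCycle ∧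
      ∀ x y, s(x, y) ∈ C.edges ↔ y.val = x.val + 1 ∨ x.val = y.val + 1 ∨
        (x.val = 2 * b.n + 1 ∧ y.val = 0) ∨ (y.val = 2 * b.n + 1 ∧ x.val = 0) := by
  obtain ⟨p, h1, h2⟩ := exists_path h (2 * b.n + 1) (by omega)
  have hp := h.pos
  have ha : b.graph.Adj ⟨2 * b.n + 1, by omega⟩ ⟨0, by omega⟩ :=
    (adj_iff h).2 (Or.inl (Or.inr (Or.inr ⟨rfl, rfl⟩)))
  refine ⟨_, Walk.cons ha p, by rw [Walk.support_cons, List.map_cons, h1], ?_, fun x y => ?_⟩
  · rw [Walk.isHamiltonianCycle_iff_isCycle_and_length_eq, Walk.cons_isCycle_iff]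
    refine ⟨⟨Walk.IsPath.mk' (List.Nodup.of_map Fin.val (h1 ▸ List.nodup_range)), ?_⟩, ?_⟩
    · rw [h2]
      simp only
      omega
    · have := congrArg List.length h1
      simp only [List.length_map, Walk.length_support, List.length_range] at this
      rw [Walk.length_cons, Fintype.card_fin]
      omega
  · rw [Walk.edges_cons, List.mem_cons, h2, Sym2.eq_iff]
    simp only [Fin.ext_iff]
    have := x.2
    have := y.2
    omega

/-- what we use of a Hamiltonian cycle -/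
structure Cyc (b : Board) (U : ℕ → ℕ → Prop) : Prop where
  symm : ∀ x y, U x y → U y x
  sub : ∀ x y, U x y → b.A x y
  two : ∀ x < 2 * b.n + 2, ∃ a c, a ≠ c ∧ ∀ y, U x y ↔ y = a ∨ y = c
  cut : ∀ X : ℕ → Prop, (∃ x < 2 * b.n + 2, X x) → (∃ y < 2 * b.n + 2, ¬ X y) →
    ∃ x y x' y', X x ∧ ¬ X y ∧ U x y ∧ X x' ∧ ¬ X y' ∧ U x' y' ∧ ¬ (x = x' ∧ y = y')

theorem cyc_of (h : b.Valid) {w : Fin (2 * b.n + 2)} {D : b.graph.Walk w w}
    (hD : D.IsHamiltonianCycle) {E : List (ℕ × ℕ)} (hE : Lists E D.edgeSet) :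
    b.Cyc fun x y => (x, y) ∈ E ∨ (y, x) ∈ E := by
  have e : ∀ x y : Fin (2 * b.n + 2), s(x, y) ∈ D.edges ↔
      (x.val, y.val) ∈ E ∨ (y.val, x.val) ∈ E := fun x y => by rw [← hE.2, Walk.mem_edgeSet]
  have l : ∀ x y, (x, y) ∈ E ∨ (y, x) ∈ E → x < 2 * b.n + 2 ∧ y < 2 * b.n + 2 := by
    rintro x y (a | a)
    · exact hE.1 _ a
    · exact (hE.1 _ a).symm
  refine ⟨fun x y a => a.symm, fun x y a => ?_, fun x hx => ?_, fun X ⟨x, hx, x1⟩ ⟨y, hy, y1⟩ => ?_⟩
  · exact (adj_iff h).1 (D.adj_of_mem_edges ((e ⟨x, (l x y a).1⟩ ⟨y, (l x y a).2⟩).2 a))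
  · obtain ⟨a, c, h1, h2⟩ := ham_two hD ⟨x, hx⟩
    refine ⟨a, c, fun z => h1 (Fin.ext z), fun y => ⟨fun z => ?_, fun z => ?_⟩⟩
    · have := (h2 ⟨y, (l x y z).2⟩).1 ((e _ _).2 z)
      simpa only [Fin.ext_iff] using this
    · rcases z with rfl | rfl
      · exact (e _ _).1 ((h2 a).2 (Or.inl rfl))
      · exact (e _ _).1 ((h2 c).2 (Or.inr rfl))
  · obtain ⟨a, c, a', c', h1, h2, h3, h4, h5, h6, h7⟩ :=
      ham_cut hD {z | X z.val} (a := ⟨x, hx⟩) (c := ⟨y, hy⟩) x1 y1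
    exact ⟨a, c, a', c', h1, h2, (e _ _).1 h3, h4, h5, (e _ _).1 h6,
      fun z => h7 ⟨Fin.ext z.1, Fin.ext z.2⟩⟩

variable {U : ℕ → ℕ → Prop}

theorem cut_used (h : b.Valid) (c : b.Cyc U) {o o' : ℕ} (p : b.Cp o o') : U (o + b.n) o' := by
  have key : ∀ x y, (o ≤ x ∧ x ≤ o + b.n) → ¬ (o ≤ y ∧ y ≤ o + b.n) → U x y →
      (x = o ∧ y = o' + b.n) ∨ (x = o + b.n ∧ y = o') := fun x y x1 y1 u => by
    have a := c.sub x y u
    by_cases e : x = o + b.n
    · rw [e, nbw h p] at a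
      have := h.pos
      rcases a with a | a | ⟨z, a1, -, a2⟩ <;> omega
    · obtain ⟨v, rfl⟩ := Nat.exists_eq_add_of_le x1.1
      have hv : v < b.n := by omega
      have := tg_spec h hv
      rw [nbr h p hv, pv] at a
      split_ifs at a <;> omega
  unfold Cp at p
  obtain ⟨x, y, x', y', h1, h2, h3, h4, h5, h6, h7⟩ := c.cut (fun x => o ≤ x ∧ x ≤ o + b.n)
    ⟨o, by omega, by omega⟩ ⟨o', by omega, by omega⟩
  rcases key x y h1 h2 h3 with a | ⟨rfl, rfl⟩
  · rcases key x' y' h4 h5 h6 with a' | ⟨rfl, rfl⟩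
    · omega
    · exact h6
  · exact h3

theorem state_of (h : b.Valid) (c : b.Cyc U) {o o' : ℕ} (p : b.Cp o o') :
    ∃ m q, b.State m q ∧ ∀ v < b.n, (m v ≠ 2 ↔ U (o + v) (o + b.tg v)) ∧
      (m v ≠ 1 ↔ U (o + v) (o + v + 1)) := by
  classical
  have p' : b.Cp o' o := by unfold Cp at *; omega
  have hp := h.pos
  have pp := p
  unfold Cp at pp
  let m : ℕ → ℕ := fun v =>
    if ¬ U (o + v) (b.pv o o' v) then 0 else if ¬ U (o + v) (o + v + 1) then 1 else 2
  have tri : ∀ v < b.n, m v ≤ 2 ∧ (m v ≠ 0 ↔ U (o + v) (b.pv o o' v)) ∧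
      (m v ≠ 1 ↔ U (o + v) (o + v + 1)) ∧ (m v ≠ 2 ↔ U (o + v) (o + b.tg v)) := fun v hv => by
    obtain ⟨a, d, h1, h2⟩ := c.two (o + v) (by omega)
    have a1 := (nbr h p hv a).1 (c.sub _ _ ((h2 a).2 (Or.inl rfl)))
    have a2 := (nbr h p hv d).1 (c.sub _ _ ((h2 d).2 (Or.inr rfl)))
    have t := tg_spec h hv
    have n1 : b.pv o o' v ≠ o + v + 1 := by unfold pv; split_ifs <;> omega
    have n2 : b.pv o o' v ≠ o + b.tg v := by unfold pv; split_ifs <;> omega
    have n3 : o + v + 1 ≠ o + b.tg v := by omega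
    simp only [m, h2]
    clear t pp
    generalize b.pv o o' v = x at *
    generalize o + b.tg v = z at *
    generalize o + v + 1 = y at *
    split_ifs <;> omega
  obtain ⟨q, q1, q2, q3⟩ : ∃ q < b.n, (q = b.n - 1 ∨ b.kd q = 0) ∧
      ∀ v < b.n, U (o + b.n) (o + v) ↔ v = q := by
    obtain ⟨a, d, h1, h2⟩ := c.two (o + b.n) (by omega)
    obtain ⟨y, y1, y2⟩ : ∃ y, y ≠ o' ∧ ∀ z, U (o + b.n) z ↔ z = o' ∨ z = y := by
      rcases (h2 o').1 (cut_used h c p) with rfl | rfl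
      · exact ⟨d, h1.symm, h2⟩
      · exact ⟨a, h1, fun z => (h2 z).trans or_comm⟩
    rcases (nbw h p y).1 (c.sub _ _ ((y2 y).2 (Or.inr rfl))) with a | a | ⟨z, a1, a2, a3⟩
    · exact ⟨b.n - 1, by omega, Or.inl rfl, fun v hv => by rw [y2]; omega⟩
    · exact absurd a y1
    · exact ⟨z, a1, Or.inr a2, fun v hv => by rw [y2]; omega⟩
  have sy : ∀ x y, U x y ↔ U y x := fun x y => ⟨c.symm x y, c.symm y x⟩
  refine ⟨m, q, ⟨⟨fun v hv => (tri v hv).1, fun v hv => ?_, fun v hv k e => ?_⟩, ?_, q1, q2, ?_,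
    fun v hv k => ?_, fun X ⟨v, hv, x1⟩ x0 => ?_⟩, fun v hv => ⟨(tri v hv).2.2.2, (tri v hv).2.2.1⟩⟩
  · have a1 := (tri v (by omega)).2.2.1
    have a2 := (tri (v + 1) hv).2.1
    rw [show b.pv o o' (v + 1) = o + v by simp [pv], sy, ← Nat.add_assoc, ← a1] at a2
    omega
  · have t := tg_spec h hv
    have a1 := (tri v hv).2.2.2
    have a2 := (tri (b.tg v) (by omega)).2.2.2
    rw [show b.tg (b.tg v) = v by omega, sy, ← a1, show b.tg v = b.ch v by omega] at a2
    omega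
  · rw [(tri 0 hp).2.1, sy]
    simpa [pv] using cut_used h c p'
  · have a1 := (tri (b.n - 1) (by omega)).2.2.1
    rw [show o + (b.n - 1) + 1 = o + b.n by omega, sy, q3 _ (by omega)] at a1
    omega
  · rw [(tri v hv).2.2.2, sy, show b.tg v = b.n by simp [tg, k], q3 v hv]
  · obtain ⟨x, y, x', y', h1, h2, h3, h4, h5, h6, h7⟩ :=
      c.cut (fun x => ∃ v < b.n, x = o + v ∧ X v) ⟨o + v, by omega, v, hv, rfl, x1⟩
        ⟨o + b.n, by omega, fun ⟨z, a1, a2, _⟩ => by omega⟩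
    have key : ∀ x y, (∃ v < b.n, x = o + v ∧ X v) → ¬ (∃ v < b.n, y = o + v ∧ X v) → U x y →
        (x = o + q ∧ y = o + b.n) ∨ ∃ u < b.n, ∃ v < b.n, X u ∧ ¬ X v ∧ b.Used m u v := by
      rintro x y ⟨u, hu, rfl, xu⟩ hy a
      by_cases e : y = o + b.n
      · rw [e, sy, q3 u hu] at a
        exact Or.inl ⟨by rw [a], e⟩
      · have t := tg_spec h hu
        have u0 : u ≠ 0 := fun z => x0 (z ▸ xu)
        obtain ⟨-, t1, t2, t3⟩ := tri u hu
        right
        rcases (nbr h p hu y).1 (c.sub _ _ a) with z | z | z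
        · refine ⟨u, hu, u - 1, by omega, xu, fun w => hy ⟨u - 1, by omega, ?_, w⟩,
            Or.inr (Or.inl ⟨by omega, t1.2 (z ▸ a)⟩)⟩
          rw [z, pv, if_neg u0]
          omega
        · exact ⟨u, hu, u + 1, by omega, xu, fun w => hy ⟨u + 1, by omega, z, w⟩,
            Or.inl ⟨rfl, t2.2 (z ▸ a)⟩⟩
        · exact ⟨u, hu, b.tg u, by omega, xu, fun w => hy ⟨b.tg u, by omega, z, w⟩,
            Or.inr (Or.inr ⟨by omega, by omega, t3.2 (z ▸ a)⟩)⟩
    rcases key x y h1 h2 h3 with a | a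
    · rcases key x' y' h4 h5 h6 with a' | a'
      · omega
      · exact a'
    · exact a

open Classical in
/-- the tokens of one copy -/
theorem copy_sem (h : b.Valid) (c : b.Cyc U) {o o' : ℕ} (p : b.Cp o o') :
    b.Sem (fun v => decide (U (o + v) (o + b.ch v))) ∧
      ((∀ v < b.n, b.kd v = 1 ∨ b.kd v = 2 → ¬ U (o + v) (o + b.ch v)) →
        ∀ v < b.n, ¬ U (o + v) (o + b.tg v) ∧ U (o + v) (o + v + 1)) := by
  obtain ⟨m, q, s, hm⟩ := state_of h c p
  have e : ∀ v < b.n, b.kd v ≠ 0 → decide (U (o + v) (o + b.ch v)) = decide (m v ≠ 2) :=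
    fun v hv k => by
    rw [decide_eq_decide, (hm v hv).1, tg, if_neg k]
  have ec : ∀ v < b.n, b.kd v ≠ 0 →
      decide (U (o + b.ch v) (o + b.ch (b.ch v))) = decide (m (b.ch v) ≠ 2) := fun v hv k => by
    obtain ⟨c1, -, -, -, c5⟩ := h.chord v hv k
    exact e _ c1 (by unfold okc at c5; omega)
  obtain ⟨s1, s2, s3⟩ := sem h s
  refine ⟨⟨fun v hv k => ?_, fun v hv k => ?_, fun u hu k => ?_⟩, fun hT v hv => ?_⟩
  · have a0 := h.nxt hv (by omega)
    have a1 := h.pair v a0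
    rw [ec v hv (by omega), e _ a0 (by unfold okp at a1; omega)]
    exact s1 v hv k
  · have := s2 v hv k
    obtain ⟨u, rfl⟩ := h.prv (v := v) (by omega)
    have a1 := h.pair u hv
    rw [ec _ hv (by omega), e (u + 1 - 1) (by omega) (by unfold okp at a1; simp; omega)]
    exact this
  · have := s3 u hu k
    obtain ⟨c1, -, -, -, c5⟩ := h.chord u hu (by omega)
    obtain ⟨p1, p2, -, p4⟩ := h.poly u hu k
    have k7 : b.kd (b.ch u) = 7 := by unfold okc at c5; omega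
    have a0 := h.nxt c1 (by omega)
    have a2 := h.pair _ a0
    have e1 := e _ a0 (by unfold okp at a2; omega)
    have eo : ∀ w, u < w → w < b.ch u → _ := fun w w1 w2 =>
      ec w (by omega) (by have := (p4 w w1 w2).1; omega)
    have e0 : decide (U (o + (u - 1)) (o + b.ch (u - 1))) = decide (m (u - 1) ≠ 2) := by
      obtain ⟨x, rfl⟩ := h.prv (v := u) (by omega)
      have a1 := h.pair x hu
      exact e _ (by omega) (by unfold okp at a1; simp; omega)
    rw [e0, e1, eo (u + 1) (by omega) (by omega)]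
    rcases (by omega : b.ch u = u + 2 ∨ b.ch u = u + 3 ∨ b.ch u = u + 4) with z | z | z
    · rw [show b.ch u - u = 2 by omega] at this ⊢
      simpa [polyR] using this
    · rw [eo (u + 2) (by omega) (by omega)]
      rw [show b.ch u - u = 3 by omega] at this ⊢
      simpa [polyR] using this
    · rw [eo (u + 2) (by omega) (by omega), eo (u + 3) (by omega) (by omega)]
      exact this
  · have := home h s (fun v hv k => by
      have a1 := hT v hv k
      have a2 := (hm v hv).1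
      rw [tg, if_neg (by omega)] at a2
      exact not_not.1 (mt a2.1 a1)) v hv
    rw [← (hm v hv).1, ← (hm v hv).2]
    omega

theorem all_home (h : b.Valid) (c : b.Cyc U)
    (h0 : ∀ v < b.n, ¬ U (0 + v) (0 + b.tg v) ∧ U (0 + v) (0 + v + 1))
    (h1 : ∀ v < b.n, ¬ U (b.n + 1 + v) (b.n + 1 + b.tg v) ∧ U (b.n + 1 + v) (b.n + 1 + v + 1))
    (x y : ℕ) (hx : x < 2 * b.n + 2) (hy : y < 2 * b.n + 2) :
    U x y ↔ y = x + 1 ∨ x = y + 1 ∨ (x = 2 * b.n + 1 ∧ y = 0) ∨ (y = 2 * b.n + 1 ∧ x = 0) := by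
  simp only [Nat.zero_add] at h0
  have k1 : ∀ x y, U x y → b.Rel x y → y = x + 1 ∨ (x = 2 * b.n + 1 ∧ y = 0) := by
    rintro x y u (⟨v, hv, ⟨rfl, a | rfl⟩ | ⟨rfl, a | rfl⟩⟩ | a | a)
    · omega
    · exact absurd u (h0 _ hv).1
    · omega
    · exact absurd u (h1 _ hv).1
    · omega
    · omega
  have k2 : ∀ x, x + 1 < 2 * b.n + 2 → U x (x + 1) := fun x hx => by
    rcases lt_trichotomy x b.n with e | e | e
    · exact (h0 x e).2
    · have := cut_used h c (Or.inl ⟨rfl, rfl⟩)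
      rwa [Nat.zero_add, ← e] at this
    · have := (h1 (x - (b.n + 1)) (by omega)).2
      rwa [show b.n + 1 + (x - (b.n + 1)) = x by omega] at this
  have k3 : U (2 * b.n + 1) 0 := by
    have := cut_used h c (Or.inr ⟨rfl, rfl⟩)
    rwa [show b.n + 1 + b.n = 2 * b.n + 1 by omega] at this
  constructor
  · intro u
    rcases c.sub _ _ u with a | a
    · have := k1 x y u a
      omega
    · have := k1 y x (c.symm _ _ u) a
      omega
  · rintro (rfl | rfl | ⟨rfl, rfl⟩ | ⟨rfl, rfl⟩)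
    · exact k2 x hy
    · exact c.symm _ _ (k2 y hx)
    · exact k3
    · exact c.symm _ _ k3

end Board

end Pool.Agent.Lib.MP_33ce69_lc.Odd
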