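import Pool.Agent.Lib.MP_33ce69_lc.Odd.Tile

/-!
The board made of `M` tiles laid out along a spiral with `L` tiles per turn.
-/

namespace Pool.Agent.Lib.MP_33ce69_lc.Odd

set_option maxHeartbeats 400000

open Board

def gN (M : ℕ) : ℕ := 24 * (M - 1) + 15

def gW (M L k : ℕ) : ℕ := if k < L then gN M else 24 * min k (M - 1) + 13

def gF (M L : ℕ) (T : ℕ → ℕ) (k d : ℕ) : ℕ :=
  if d < 24 then 24 * k + d
  else if d = 24 then gW M L (k + L - 1)
  else if d = 25 then (if k + L < M then 24 * k + 2 else gW M L (M - 1))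
  else if d = 26 then gW M L (k + L)
  else if d = 27 then gW M L (k - 1)
  else if d = 28 then (if k < L then gN M else 24 * (k - L) + 2)
  else if d = 29 then gW M L k
  else 24 * (k + 1) + pN (T (k + 1))

def gC (L : ℕ) (T : ℕ → ℕ) (k c : ℕ) : ℕ :=
  if c < 24 then 24 * k + c
  else if c = 24 then 24 * (k + L) + 10
  else if c = 25 then 24 * (k + L) + 13
  else if c = 26 then 24 * (k - L) + 2
  else if c = 27 then 24 * (k - L) + 21
  else if c = 28 then 24 * (k - 1) + pS (T (k - 1))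
  else 24 * (k + 1) + pN (T (k + 1))

def gK (T : ℕ → ℕ) (v : ℕ) : ℕ := look tK (T (v / 24)) (v % 24)

def gH (L : ℕ) (T : ℕ → ℕ) (v : ℕ) : ℕ := gC L T (v / 24) (look tC (T (v / 24)) (v % 24))

def grid (M L : ℕ) (T : ℕ → ℕ) : Board where
  n := gN M
  kd := gK T
  sd v := decide (look tS (T (v / 24)) (v % 24) = 1)
  ch := gH L T
  L v := gF M L T (v / 24) (look tL (T (v / 24)) (v % 24))
  R v := gF M L T (v / 24) (look tR (T (v / 24)) (v % 24))
  vt v := gF M L T (v / 24) (if v % 24 = 2 then 24 else if v % 24 = 13 then 28 else 27)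

structure GridOK (M L : ℕ) (T : ℕ → ℕ) : Prop where
  pos : 0 < L
  lt : L < M
  ty : ∀ k < M, T k < 23
  last : T (M - 1) = 22
  hu : ∀ k, k + L < M → (fue (T k) ↔ fuw (T (k + L)))
  hl : ∀ k, k + L < M → (fle (T k) ↔ flw (T (k + L)))
  west : ∀ k < L, ¬ fuw (T k) ∧ ¬ flw (T k)
  east : ∀ k < M, M ≤ k + L → ¬ fue (T k) ∧ ¬ fle (T k)
  vert : ∀ k, k + 1 < M → (fvout (T k) ↔ fvin (T (k + 1)))
  top : ¬ fvin (T 0)

variable {M L : ℕ} {T : ℕ → ℕ}

theorem dv (k : ℕ) {i : ℕ} (hi : i < 24) : (24 * k + i) / 24 = k ∧ (24 * k + i) % 24 = i := by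
  omega

theorem g_kd (k : ℕ) {i : ℕ} (hi : i < 24) :
    (grid M L T).kd (24 * k + i) = look tK (T k) i := by
  simp only [grid, gK, (dv k hi).1, (dv k hi).2]

theorem g_sd (k : ℕ) {i : ℕ} (hi : i < 24) :
    (grid M L T).sd (24 * k + i) = decide (look tS (T k) i = 1) := by
  simp only [grid, (dv k hi).1, (dv k hi).2]

theorem g_ch (k : ℕ) {i : ℕ} (hi : i < 24) :
    (grid M L T).ch (24 * k + i) = gC L T k (look tC (T k) i) := by
  simp only [grid, gH, (dv k hi).1, (dv k hi).2]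

theorem g_vt (k : ℕ) {i : ℕ} (hi : i < 24) : (grid M L T).vt (24 * k + i) =
    gF M L T k (if i = 2 then 24 else if i = 13 then 28 else 27) := by
  simp only [grid, (dv k hi).1, (dv k hi).2]

theorem g_LR (k : ℕ) {i : ℕ} (hi : i < 24) :
    (grid M L T).L (24 * k + i) = gF M L T k (look tL (T k) i) ∧
    (grid M L T).R (24 * k + i) = gF M L T k (look tR (T k) i) := by
  simp only [grid, (dv k hi).1, (dv k hi).2, and_self]

theorem g_LR' (h : GridOK M L T) {k i : ℕ} (hi : i < 24) (hv : 24 * k + i < gN M) :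
    (grid M L T).L (24 * k + i + 1) = gF M L T k (look tL (T k) (i + 1)) ∧
    (grid M L T).R (24 * k + i + 1) = gF M L T k (look tR (T k) (i + 1)) := by
  by_cases e : i + 1 < 24
  · exact g_LR k e
  · obtain rfl : i = 23 := by omega
    unfold gN at hv
    have a1 := c_ends _ (h.ty k (by omega))
    have a2 := c_ends _ (h.ty (k + 1) (by omega))
    have a3 := g_LR (M := M) (L := L) (T := T) (k + 1) (i := 0) (by omega)
    rw [show 24 * k + 23 + 1 = 24 * (k + 1) + 0 by omega, a3.1, a3.2, a1.2.2.2.1, a1.2.2.2.2.2.1,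
      a2.2.2.1, a2.2.2.2.2.1]
    refine ⟨?_, ?_⟩
    · simp only [gF]
      norm_num
    · unfold gF
      rw [if_pos (by omega)]
      norm_num

theorem g_face (h : GridOK M L T) {k i : ℕ} (hi : i < 24) (hv : 24 * k + i < gN M) :
    (grid M L T).bef (24 * k + i) = gF M L T k (bD (T k) i) ∧
    (grid M L T).aft (24 * k + i) = gF M L T k (aD (T k) i) ∧
    (grid M L T).non (24 * k + i) = gF M L T k (nD (T k) i) ∧
    (grid M L T).non' (24 * k + i) = gF M L T k (nD' (T k) i) := by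
  unfold bef aft non non' bD aD nD nD'
  rw [g_sd k hi, (g_LR k hi).1, (g_LR k hi).2, (g_LR' h hi hv).1, (g_LR' h hi hv).2]
  by_cases e : look tS (T k) i = 1 <;> simp [e]

theorem split_v {v : ℕ} (hv : v < gN M) :
    ∃ k i, i < 24 ∧ v = 24 * k + i ∧ k ≤ M - 1 ∧ (k = M - 1 → i ≤ 14) := by
  unfold gN at hv
  exact ⟨v / 24, v % 24, by omega, by omega, by omega, by omega⟩

theorem f24 (k : ℕ) : gF M L T k 24 = gW M L (k + L - 1) := rfl
theorem f25 (k : ℕ) :
    gF M L T k 25 = if k + L < M then 24 * k + 2 else gW M L (M - 1) := rfl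
theorem f26 (k : ℕ) : gF M L T k 26 = gW M L (k + L) := rfl
theorem f27 (k : ℕ) : gF M L T k 27 = gW M L (k - 1) := rfl
theorem f28 (k : ℕ) : gF M L T k 28 = if k < L then gN M else 24 * (k - L) + 2 := rfl
theorem f29 (k : ℕ) : gF M L T k 29 = gW M L k := rfl
theorem f30 (k : ℕ) : gF M L T k 30 = 24 * (k + 1) + pN (T (k + 1)) := rfl
theorem fl (k : ℕ) {d : ℕ} (hd : d < 24) : gF M L T k d = 24 * k + d := if_pos hd
theorem cl (k : ℕ) {d : ℕ} (hd : d < 24) : gC L T k d = 24 * k + d := if_pos hd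
theorem w_in {k : ℕ} (h1 : L ≤ k) (h2 : k < M) : gW M L k = 24 * k + 13 := by
  unfold gW
  rw [if_neg (by omega), min_eq_left (by omega)]
theorem w_hi {k : ℕ} (h1 : L < M) (h2 : M - 1 ≤ k) : gW M L k = gW M L (M - 1) := by
  unfold gW
  rw [if_neg (by omega), if_neg (by omega), min_eq_right h2, min_self]
theorem w_lo {k : ℕ} (h1 : k < L) : gW M L k = gN M := if_pos h1

theorem not_vout (h : GridOK M L T) {k : ℕ} (hk : k < M) (e : fvout (T k)) : k + 1 < M := by
  by_contra hc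
  rw [show k = M - 1 by omega, h.last] at e
  exact absurd e (by decide)

theorem g_port (h : GridOK M L T) {k i : ℕ} (hi : i < 24) (hv : 24 * k + i < gN M)
    (hk : look tK (T k) i = 0) {x y : ℕ} (hx : x = gF M L T k (bD (T k) i))
    (hy : y = gF M L T k (aD (T k) i)) :
    x = y ∨ (x < gN M ∧ (grid M L T).kd x = 0 ∧ (grid M L T).vt x = y) ∨
      (y < gN M ∧ (grid M L T).kd y = 0 ∧ (grid M L T).vt y = x) := by
  have hp := h.pos
  have hl := h.lt
  have hv' := hv
  unfold gN at hv'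
  have kM : k < M := by omega
  have t := h.ty k kM
  obtain ⟨g1, g2, g3, g4, g5, g6⟩ := c_flag _ t
  have en := c_ends _ t
  rcases c_port _ t i hi hk with a | ⟨rfl, a, c⟩ | ⟨rfl, a, c⟩ | ⟨rfl, a, c⟩ | ⟨rfl, a, c⟩ |
    ⟨rfl, a, c⟩ | ⟨rfl, a, c⟩
  · exact Or.inl (by rw [hx, hy, a])
  all_goals rw [a] at hx; rw [c] at hy
  · rw [f24] at hx
    rw [f25] at hy
    split_ifs at hy with e
    · refine Or.inr (Or.inr ⟨hy ▸ hv, ?_, ?_⟩)
      · rw [hy, g_kd k hi, hk]
      · rw [hy, g_vt k hi, hx]; rfl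
    · exact Or.inl (by rw [hx, hy, w_hi hl (by omega)])
  · rw [f25] at hx
    rw [f26] at hy
    split_ifs at hx with e
    · rw [w_in (by omega) e] at hy
      have a1 := (c_flag _ (h.ty _ e)).2.2.1
      have a2 := h.hl k e
      refine Or.inr (Or.inr ⟨by unfold gN; omega, ?_, ?_⟩)
      · rw [hy, g_kd _ (by omega)]
        by_contra z
        exact g4.1 (a2.2 (a1.2 z)) hk
      · rw [hy, g_vt _ (by omega), hx]
        simp [f28]
    · exact Or.inl (by rw [hx, hy, w_hi (k := k + L) hl (by omega)])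
  · rw [f27] at hx
    rw [f28] at hy
    split_ifs at hy with e
    · exact Or.inl (by rw [hx, hy, w_lo (by omega)])
    · obtain ⟨j, rfl⟩ := Nat.exists_eq_add_of_le' (not_lt.1 e)
      rw [Nat.add_sub_cancel] at hy
      have a1 := (c_flag _ (h.ty j (by omega))).1
      have a2 := h.hu j kM
      refine Or.inr (Or.inr ⟨by unfold gN; omega, ?_, ?_⟩)
      · rw [hy, g_kd _ (by omega)]
        by_contra z
        exact g2.1 (a2.1 (a1.2 z)) hk
      · rw [hy, g_vt _ (by omega), hx]; rfl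
  · rw [f28] at hx
    rw [f29] at hy
    by_cases e : k < L
    · exact Or.inl (by rw [hx, hy, w_lo e, if_pos e])
    · rw [w_in (by omega) kM] at hy
      refine Or.inr (Or.inr ⟨hy ▸ hv, ?_, ?_⟩)
      · rw [hy, g_kd k hi, hk]
      · rw [hy, g_vt k hi, hx]; rfl
  · rw [fl k hi] at hx
    refine Or.inr (Or.inl ⟨hx ▸ hv, ?_, ?_⟩)
    · rw [hx, g_kd k hi, hk]
    · rw [hx, g_vt k hi, hy, if_neg (by omega), if_neg (by omega)]
  · rw [f29] at hx
    rw [f30] at hy
    have e : k + 1 < M := by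
      by_contra hc
      have : k = M - 1 := by omega
      rw [this, h.last] at hv'
      have : pS 22 = 15 := rfl
      omega
    have a0 := c_ends _ (h.ty _ e)
    have a1 := (c_flag _ (h.ty _ e)).2.2.2.2.1
    have a2 := h.vert k e
    refine Or.inr (Or.inr ⟨by unfold gN; omega, ?_, ?_⟩)
    · rw [hy, g_kd _ (by omega)]
      by_contra z
      exact g6.1 (a2.2 (a1.2 z)) hk
    · rw [hy, g_vt _ (by omega), hx, if_neg (by omega), if_neg (by omega)]; rfl

/-- the facts about a used slot -/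
theorem slot (t : ℕ) (ht : t < 23) :
    (fue t → look tK t 2 = 1 ∧ look tC t 2 = 24 ∧ bD t 2 = 24 ∧ aD t 2 = 25) ∧
    (fle t → look tK t 21 = 3 ∧ look tC t 21 = 25 ∧ bD t 21 = 25 ∧ aD t 21 = 26) ∧
    (fuw t → (look tK t 10 = 3 ∨ look tK t 10 = 4) ∧ look tC t 10 = 26 ∧ bD t 10 = 27 ∧
      aD t 10 = 28) ∧
    (flw t → look tK t 13 = 1 ∧ look tC t 13 = 27 ∧ bD t 13 = 28 ∧ aD t 13 = 29) ∧
    (fvin t → look tK t (pN t) = 2 ∧ look tC t (pN t) = 28 ∧ bD t (pN t) = pN t ∧
      aD t (pN t) = 27) ∧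
    (fvout t → (look tK t (pS t) = 3 ∨ look tK t (pS t) = 4 ∨ look tK t (pS t) = 6) ∧
      look tC t (pS t) = 29 ∧ bD t (pS t) = 29 ∧ aD t (pS t) = 30) := by
  obtain ⟨g1, g2, g3, g4, g5, g6⟩ := c_flag _ ht
  obtain ⟨s1, s2, s3, s4, s5, s6⟩ := c_slot _ ht
  have en := c_ends _ ht
  refine ⟨fun e => ?_, fun e => ?_, fun e => ?_, fun e => ?_, fun e => ?_, fun e => ?_⟩
  · have := c_chord t ht 2 (by omega) (g1.1 e)
    have := s1 e
    omega
  · have := c_chord t ht 21 (by omega) (g4.1 e)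
    have := s4 e
    omega
  · have := c_chord t ht 10 (by omega) (g2.1 e)
    have := s2 e
    omega
  · have := c_chord t ht 13 (by omega) (g3.1 e)
    have := s3 e
    omega
  · have := c_chord t ht (pN t) (by omega) (g5.1 e)
    have := s5 e
    omega
  · have := c_chord t ht (pS t) (by omega) (g6.1 e)
    have := s6 e
    omega

def Good (b : Board) (v : ℕ) : Prop :=
  (b.ch v < b.n ∧ b.ch (b.ch v) = v ∧ b.ch v ≠ v + 1 ∧ v ≠ b.ch v + 1 ∧
    okc (b.kd v) (b.kd (b.ch v))) ∧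
  ((b.bef v = b.bef (b.ch v) ∧ b.aft v = b.aft (b.ch v)) ∨
    (b.bef v = b.aft (b.ch v) ∧ b.aft v = b.bef (b.ch v))) ∧
  (b.kd v = 1 ∨ b.kd v = 5 → b.aft v = v) ∧ (b.kd v = 2 → b.bef v = v)

theorem good_mk (h : GridOK M L T) {k i k' i' : ℕ} (hi : i < 24) (hi' : i' < 24)
    (hv : 24 * k + i < gN M) (hv' : 24 * k' + i' < gN M)
    (c1 : gC L T k (look tC (T k) i) = 24 * k' + i')
    (c2 : gC L T k' (look tC (T k') i') = 24 * k + i)
    (n1 : 24 * k' + i' ≠ 24 * k + i + 1) (n2 : 24 * k + i ≠ 24 * k' + i' + 1)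
    (o : okc (look tK (T k) i) (look tK (T k') i'))
    (f : (gF M L T k (bD (T k) i) = gF M L T k' (bD (T k') i') ∧
        gF M L T k (aD (T k) i) = gF M L T k' (aD (T k') i')) ∨
      (gF M L T k (bD (T k) i) = gF M L T k' (aD (T k') i') ∧
        gF M L T k (aD (T k) i) = gF M L T k' (bD (T k') i')))
    (oA : look tK (T k) i = 1 ∨ look tK (T k) i = 5 → gF M L T k (aD (T k) i) = 24 * k + i)
    (oB : look tK (T k) i = 2 → gF M L T k (bD (T k) i) = 24 * k + i) :
    Good (grid M L T) (24 * k + i) := by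
  unfold Good
  rw [g_ch k hi, c1, g_ch k' hi', c2, g_kd k hi, g_kd k' hi', (g_face h hi hv).1,
    (g_face h hi hv).2.1, (g_face h hi' hv').1, (g_face h hi' hv').2.1]
  exact ⟨⟨hv', rfl, n1, n2, o⟩, f, oA, oB⟩

theorem g_good (h : GridOK M L T) {k i : ℕ} (hi : i < 24) (hv : 24 * k + i < gN M)
    (hk : look tK (T k) i ≠ 0) : Good (grid M L T) (24 * k + i) := by
  have hp := h.pos
  have hl := h.lt
  have hv' := hv
  unfold gN at hv'
  have kM : k < M := by omega
  have t := h.ty k kM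
  obtain ⟨g1, g2, g3, g4, g5, g6⟩ := c_flag _ t
  have en := c_ends _ t
  rcases c_chord _ t i hi hk with ⟨a1, a2, a3, a4, a5, a6, a7, a8, a9⟩ | ⟨a1, rfl, a2, a3, a4⟩ |
    ⟨a1, rfl, a2, a3, a4⟩ | ⟨a1, rfl, a2, a3, a4⟩ | ⟨a1, rfl, a2, a3, a4⟩ |
    ⟨a1, rfl, a2, a3, a4⟩ | ⟨a1, rfl, a2, a3, a4⟩
  · refine good_mk h hi a1 hv ?_ (cl k a1) (by rw [a2, cl k hi]) (by omega) (by omega) a5 ?_
      (fun e => by rw [a7 e, fl k hi]) (fun e => by rw [a8 e, fl k hi])
    · unfold gN
      by_cases e : k = M - 1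
      · have := a9 (e ▸ h.last)
        omega
      · omega
    · rcases a6 with ⟨z1, z2⟩ | ⟨z1, z2⟩
      · exact Or.inl ⟨by rw [z1], by rw [z2]⟩
      · exact Or.inr ⟨by rw [z1], by rw [z2]⟩
  · have e : k + L < M := by
      by_contra hc
      exact (h.east k kM (by omega)).1 (g1.2 hk)
    obtain ⟨b1, b2, b3, b4⟩ := (slot _ (h.ty _ e)).2.2.1 ((h.hu k e).1 (g1.2 hk))
    refine good_mk h (k' := k + L) (i' := 10) hi (by omega) hv (by unfold gN; omega)
      (by rw [a1]; rfl) (by rw [b2]; simp [gC]) (by omega) (by omega) (by unfold okc; omega)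
      (Or.inl ?_) (fun _ => by rw [a4, f25, if_pos e]) (by omega)
    rw [a3, a4, b3, b4, f24, f25, f27, f28, if_pos e, if_neg (by omega), Nat.add_sub_cancel]
    exact ⟨rfl, rfl⟩
  · have e : k + L < M := by
      by_contra hc
      exact (h.east k kM (by omega)).2 (g4.2 hk)
    obtain ⟨b1, b2, b3, b4⟩ := (slot _ (h.ty _ e)).2.2.2.1 ((h.hl k e).1 (g4.2 hk))
    refine good_mk h (k' := k + L) (i' := 13) hi (by omega) hv (by unfold gN; omega)
      (by rw [a1]; rfl) (by rw [b2]; simp [gC]) (by omega) (by omega) (by unfold okc; omega)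
      (Or.inl ?_) (by omega) (by omega)
    rw [a3, a4, b3, b4, f25, f26, f28, f29, if_pos e, if_neg (by omega), Nat.add_sub_cancel]
    exact ⟨rfl, rfl⟩
  · have e : L ≤ k := by
      by_contra hc
      exact (h.west k (by omega)).1 (g2.2 hk)
    obtain ⟨j, rfl⟩ := Nat.exists_eq_add_of_le' e
    obtain ⟨b1, b2, b3, b4⟩ := (slot _ (h.ty j (by omega))).1 ((h.hu j kM).2 (g2.2 hk))
    refine good_mk h (k' := j) (i' := 2) hi (by omega) hv (by unfold gN; omega)
      (by rw [a1]; simp [gC]) (by rw [b2]; rfl) (by omega) (by omega) (by unfold okc; omega)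
      (Or.inl ?_) (by omega) (by omega)
    rw [a3, a4, b3, b4, f24, f25, f27, f28, if_pos kM, if_neg (by omega), Nat.add_sub_cancel]
    exact ⟨rfl, rfl⟩
  · have e : L ≤ k := by
      by_contra hc
      exact (h.west k (by omega)).2 (g3.2 hk)
    obtain ⟨j, rfl⟩ := Nat.exists_eq_add_of_le' e
    obtain ⟨b1, b2, b3, b4⟩ := (slot _ (h.ty j (by omega))).2.1 ((h.hl j kM).2 (g3.2 hk))
    refine good_mk h (k' := j) (i' := 21) hi (by omega) hv (by unfold gN; omega)
      (by rw [a1]; simp [gC]) (by rw [b2]; rfl) (by omega) (by omega) (by unfold okc; omega)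
      (Or.inl ?_) (fun _ => by rw [a4, f29, w_in e kM]) (by omega)
    rw [a3, a4, b3, b4, f25, f26, f28, f29, if_pos kM, if_neg (by omega), Nat.add_sub_cancel]
    exact ⟨rfl, rfl⟩
  · obtain ⟨j, rfl⟩ : ∃ j, k = j + 1 := by
      cases k with
      | zero => exact absurd (g5.2 hk) h.top
      | succ j => exact ⟨j, rfl⟩
    have en' := c_ends _ (h.ty j (by omega))
    obtain ⟨b1, b2, b3, b4⟩ := (slot _ (h.ty j (by omega))).2.2.2.2.2 ((h.vert j kM).2 (g5.2 hk))
    refine good_mk h (k' := j) (i' := pS (T j)) hi (by omega) hv (by unfold gN; omega)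
      (by rw [a1]; simp [gC]) (by rw [b2]; rfl) (by omega) (by omega) (by unfold okc; omega)
      (Or.inr ?_) (by omega) (fun _ => by rw [a3, fl _ hi])
    rw [a3, a4, b3, b4, f27, f29, f30, fl _ hi, Nat.add_sub_cancel]
    exact ⟨rfl, rfl⟩
  · have e := not_vout h kM (g6.2 hk)
    have en' := c_ends _ (h.ty _ e)
    obtain ⟨b1, b2, b3, b4⟩ := (slot _ (h.ty _ e)).2.2.2.2.1 ((h.vert k e).1 (g6.2 hk))
    refine good_mk h (k' := k + 1) (i' := pN (T (k + 1))) hi (by omega) hv (by unfold gN; omega)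
      (by rw [a1]; rfl) (by rw [b2]; simp [gC]) (by omega) (by omega) (by unfold okc; omega)
      (Or.inr ?_) (by omega) (by omega)
    rw [a3, a4, b3, b4, f27, f29, f30, fl (k + 1) (by omega), Nat.add_sub_cancel]
    exact ⟨rfl, rfl⟩

theorem grid_valid (h : GridOK M L T) : (grid M L T).Valid := by
  have hp := h.pos
  have hl := h.lt
  have gd : ∀ v < (grid M L T).n, (grid M L T).kd v ≠ 0 → Good (grid M L T) v := fun v hv k => by
    obtain ⟨k, i, hi, rfl, -⟩ := split_v hv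
    exact g_good h hi hv (by rwa [g_kd _ hi] at k)
  have e0 := c_ends _ (h.ty 0 (by omega))
  refine ⟨by unfold grid gN; simp, ?_, ?_, fun v hv => ?_, fun v hv => ?_, fun v hv hk => ?_,
    fun v hv k => (gd v hv k).1, fun v hv k => (gd v hv k).2.1,
    fun v hv k => (gd v hv (by omega)).2.2.1 k, fun v hv k => (gd v hv (by omega)).2.2.2 k,
    fun v hv hk => ?_, ?_, ?_⟩
  · exact e0.1
  · rw [show (grid M L T).n - 1 = 24 * (M - 1) + 14 from rfl, g_kd _ (by omega), h.last]
    rfl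
  · obtain ⟨k, i, hi, rfl, h1, h2⟩ := split_v (M := M) (v := v) (Nat.lt_of_succ_lt hv)
    by_cases e : i < 23
    · rw [Nat.add_assoc, g_kd k hi, g_kd k (by omega)]
      exact c_pair _ (h.ty k (by omega)) i e
    · obtain rfl : i = 23 := by omega
      rw [show 24 * k + 23 + 1 = 24 * (k + 1) + 0 by omega, g_kd k hi, g_kd _ (by omega),
        (c_ends _ (h.ty k (by omega))).2.1, (c_ends _ (h.ty (k + 1) (by omega))).1]
      decide
  · obtain ⟨k, i, hi, rfl, h1, -⟩ := split_v hv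
    rw [(g_face h hi hv).2.2.1, (g_face h hi hv).2.2.2, c_cont _ (h.ty k (by omega)) i hi]
  · obtain ⟨k, i, hi, rfl, -⟩ := split_v hv
    exact g_port h hi hv (by rwa [g_kd _ hi] at hk) (g_face h hi hv).1 (g_face h hi hv).2.1
  · obtain ⟨k, i, hi, rfl, h1, -⟩ := split_v hv
    rw [g_kd _ hi] at hk
    obtain ⟨a1, -, -, a2, a3, a4, a5⟩ := c_poly _ (h.ty k (by omega)) i hi hk
    rw [g_ch k hi, cl k (by omega), g_sd k hi, g_sd k (by omega), a4]
    refine ⟨by omega, by omega, rfl, fun w w1 w2 => ?_⟩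
    obtain ⟨j, rfl⟩ : ∃ j, w = 24 * k + j := ⟨w - 24 * k, by omega⟩
    rw [g_kd k (by omega), g_sd k (by omega)]
    exact a5 j (by omega) (by omega) (by omega)
  · have a := g_LR (M := M) (L := L) (T := T) 0 (i := 0) (by omega)
    have e : (grid M L T).R 0 = 24 * 0 + pN (T 0) := by
      rw [← fl (M := M) (L := L) (T := T) 0 (by omega), ← e0.2.2.2.2.1]
      exact a.2
    refine ⟨?_, ?_, ?_, ?_⟩
    · rw [show (grid M L T).L 0 = _ from a.1, e0.2.2.1, f24, w_lo (by omega)]
      rfl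
    · rw [e]
      change _ < gN M
      unfold gN
      omega
    · rw [e, g_kd _ (by omega)]
      by_contra z
      exact h.top ((c_flag _ (h.ty 0 (by omega))).2.2.2.2.1.2 z)
    · rw [e, g_vt _ (by omega), if_neg (by omega), if_neg (by omega), f27, w_lo (by omega)]
      rfl
  · have a := g_LR (M := M) (L := L) (T := T) (M - 1) (i := 15) (by omega)
    rw [show (grid M L T).n = 24 * (M - 1) + 15 from rfl, a.1, a.2, h.last]
    change gF M L T (M - 1) 25 = gF M L T (M - 1) 29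
    rw [f25, f29, if_neg (by omega)]

theorem grid_odd : Odd (grid M L T).n := ⟨12 * (M - 1) + 7, by change gN M = _; unfold gN; omega⟩

theorem grid_sem (h : GridOK M L T) {tok : ℕ → Bool} (s : (grid M L T).Sem tok) {k : ℕ}
    (hk : k < M) : Loc (T k) fun c => tok (gC L T k c) := by
  intro i hi
  have t := h.ty k hk
  obtain ⟨r1, r2, -, r4⟩ := c_rel _ t i hi
  have hv : look tK (T k) i ≠ 0 → 24 * k + i < (grid M L T).n := fun z => by
    change _ < gN M
    unfold gN
    by_cases e : k = M - 1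
    · have := r4 (e ▸ h.last)
      omega
    · omega
  refine ⟨fun e => ?_, fun e => ?_, fun e => ?_⟩
  · have := s.rn _ (hv (by omega)) (by rw [g_kd k hi, e])
    rw [g_ch k hi] at this
    simp only
    rw [this, cl k (by have := r1 e; omega), Nat.add_assoc]
  · have := s.rp _ (hv (by omega)) (by rw [g_kd k hi, e])
    rw [g_ch k hi] at this
    simp only
    rw [this, cl k (by omega), Nat.add_sub_assoc (r2 e)]
  · have := s.poly _ (hv (by omega)) (by rw [g_kd k hi, e])
    obtain ⟨a1, a2, a3, a4, -⟩ := c_poly _ t i hi e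
    rw [g_ch k hi, cl k (by omega), Nat.add_assoc _ i, Nat.add_assoc _ i, Nat.add_assoc _ i,
      g_ch k (by omega), g_ch k (by omega), g_ch k (by omega), Nat.add_sub_add_left,
      Nat.add_sub_assoc a2, Nat.add_assoc] at this
    simp only
    rwa [cl k (d := i - 1) (by omega), cl k (d := look tC (T k) i + 1) (by omega)]

/-- tokens entering tile `k` from the east, north, west -/
theorem grid_tok (h : GridOK M L T) {tok : ℕ → Bool} (s : (grid M L T).Sem tok) :
    (∀ k < M, semT (T k) (tok (24 * k + 2)) (tok (24 * k + pN (T k))) (tok (24 * k + 13))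
      (tok (24 * (k - L) + 2)) (tok (24 * (k + L) + 13)) (tok (24 * (k + 1) + pN (T (k + 1))))) ∧
    ((∀ k < M, (fue (T k) → tok (24 * k + 2) = false) ∧
        (fvin (T k) → tok (24 * k + pN (T k)) = false) ∧ (flw (T k) → tok (24 * k + 13) = false)) →
      ∀ v < (grid M L T).n, (grid M L T).kd v = 1 ∨ (grid M L T).kd v = 2 → tok v = false) := by
  have hl := h.lt
  refine ⟨fun k hk => ?_, fun hz v hv e => ?_⟩
  · have a := (sem_all _ (h.ty k hk) _ (grid_sem h s hk)).1
    have en := c_ends _ (h.ty k hk)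
    rwa [cl k (d := pN (T k)) (by omega)] at a
  · obtain ⟨k, i, hi, rfl, h1, -⟩ := split_v hv
    have hk : k < M := by omega
    have a := (sem_all _ (h.ty k hk) _ (grid_sem h s hk)).2
    have en := c_ends _ (h.ty k hk)
    obtain ⟨z1, z2, z3⟩ := hz k hk
    rw [g_kd k hi] at e
    have := a z1 (fun y => by simp only; rw [cl k (by omega)]; exact z2 y) z3 i
      ((c_rel _ (h.ty k hk) i hi).2.2.1 e)
    simp only at this
    rwa [cl k hi] at this

end Pool.Agent.Lib.MP_33ce69_lc.Odd
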