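import Pool.Agent.Lib.MP_33ce69_lc.Odd.Board

/-!
Counting gives one missing edge per polygon; the face pointers exclude an end at a port.
-/

namespace Pool.Agent.Lib.MP_33ce69_lc.Odd

set_option maxHeartbeats 200000

namespace Board

variable {b : Board} {m : ℕ → ℕ} {q : ℕ}

theorem sum_split (h : b.Valid) (f : ℕ → ℤ) :
    ∑ v ∈ Finset.range b.n, f v = ∑ v ∈ (Finset.range b.n).filter (fun v => b.kd v < 5), f v +
      ∑ u ∈ (Finset.range b.n).filter (fun v => b.kd v = 5),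
        ∑ w ∈ Finset.Ico u (b.ch u + 1), f w := by
  rw [← Finset.sum_filter_add_sum_filter_not (Finset.range b.n) (fun v => b.kd v < 5),
    ← Finset.sum_biUnion]
  · congr 1
    refine Finset.sum_congr ?_ fun _ _ => rfl
    ext w
    simp only [Finset.mem_filter, Finset.mem_range, Finset.mem_biUnion, Finset.mem_Ico]
    constructor
    · rintro ⟨h1, h2⟩
      obtain ⟨u, a1, a2, a3, a4⟩ := h.first h1 (by omega)
      exact ⟨u, ⟨a1, a2⟩, a3, by omega⟩
    · rintro ⟨u, ⟨a1, a2⟩, a3, a4⟩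
      have := h.corner a1 a2 a3 (by omega)
      omega
  · intro u hu u' hu' hne
    simp only [Finset.coe_filter, Finset.mem_range, Set.mem_ofPred_eq] at hu hu'
    rw [Function.onFun, Finset.disjoint_left]
    intro w h1 h2
    rw [Finset.mem_Ico] at h1 h2
    rcases lt_or_gt_of_ne hne with e | e
    · have := h.corner hu.1 hu.2 e.le (by omega)
      omega
    · have := h.corner hu'.1 hu'.2 e.le (by omega)
      omega

/-- the neighbour of the port `q` along its missing edge -/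
def tk (m : ℕ → ℕ) (q : ℕ) : ℕ := if m q = 1 then q + 1 else q - 1

theorem wire_d (h : b.Valid) (s : b.State m q) {v : ℕ} (hv : v < b.n)
    (hd : ((b.kd v = 1 ∨ b.kd v = 3) ∧ m v = 0) ∨ ((b.kd v = 2 ∨ b.kd v = 4) ∧ m v = 1))
    (hl : v ≠ b.n - 1) : q ≠ b.n - 1 ∧ v = tk m q := by
  have := h.kl
  rcases hd with ⟨a1, a2⟩ | ⟨a1, a2⟩
  · obtain ⟨u, rfl⟩ := h.prv (v := v) (by omega)
    have h1 := (s.path u hv).2 a2
    have h2 := h.pair u hv
    unfold okp at h2
    have h3 := (s.port u (by omega) (by omega)).1 (by omega)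
    subst h3
    exact ⟨by omega, by simp [tk, h1]⟩
  · have h0 : v + 1 < b.n := by omega
    have h1 := (s.path v h0).1 a2
    have h2 := h.pair v h0
    unfold okp at h2
    have h3 := (s.port (v + 1) h0 (by omega)).1 (by omega)
    subst h3
    refine ⟨fun e => ?_, by simp [tk, h1]⟩
    rw [← e] at this
    omega

theorem tk_spec (h : b.Valid) (s : b.State m q) (hq : q ≠ b.n - 1) :
    tk m q < b.n - 1 ∧ (b.kd (tk m q) = 1 ∨ b.kd (tk m q) = 3) ∧ m (tk m q) = 0 ∨
      tk m q < b.n - 1 ∧ (b.kd (tk m q) = 2 ∨ b.kd (tk m q) = 4) ∧ m (tk m q) = 1 := by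
  have k0 : b.kd q = 0 := s.qk.resolve_left hq
  have h1 := s.qlt
  have h2 := (s.port q h1 k0).2 rfl
  have h3 := s.le q h1
  have h4 := h.kl
  unfold tk
  split_ifs with e
  · have a0 : q + 1 < b.n := by omega
    have a1 := (s.path q a0).1 e
    have a2 := h.pair q a0
    have a3 := s.port (q + 1) a0
    unfold okp at a2
    have : q + 1 ≠ b.n - 1 := fun e' => by rw [← e'] at h4; omega
    left
    omega
  · have e0 : m q = 0 := by omega
    obtain ⟨u, rfl⟩ : ∃ u, q = u + 1 := by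
      cases q with
      | zero => exact absurd e0 s.first
      | succ u => exact ⟨u, rfl⟩
    have a1 := (s.path u h1).2 e0
    have a2 := h.pair u h1
    have a3 := s.port u (by omega)
    unfold okp at a2
    right
    simp only [Nat.add_sub_cancel]
    omega

theorem weak_home (b : Board) : b.Weak fun _ => 2 :=
  ⟨fun _ _ => le_rfl, fun _ _ => by simp, fun _ _ _ _ => rfl⟩

theorem count (h : b.Valid) (s : b.State m q) :
    (∀ u < b.n, b.kd u = 5 → b.One m u) ∧
      (q ≠ b.n - 1 → b.kd (tk m q) = 1 ∨ b.kd (tk m q) = 2) := by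
  have h0 : ∑ v ∈ Finset.range b.n, (b.sg m v - b.sg (fun _ => 2) v) = 0 := by
    rw [Finset.sum_sub_distrib, sum_sg h s.toWeak, sum_sg h (weak_home b), sub_zero]
  rw [sum_split h] at h0
  have hp := h.pos
  have hl := h.kl
  have hB : ∀ u ∈ (Finset.range b.n).filter (fun v => b.kd v = 5),
      0 ≤ ∑ w ∈ Finset.Ico u (b.ch u + 1), (b.sg m w - b.sg (fun _ => 2) w) := fun u hu => by
    rw [Finset.mem_filter, Finset.mem_range] at hu
    exact (poly_sum h s hu.1 hu.2).1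
  have hB' := Finset.sum_nonneg hB
  let c : ℕ → ℤ := fun v => if q = b.n - 1 then 0 else
    (if v = tk m q then 1 else 0) - (if v = b.n - 1 then 1 else 0)
  have hc : ∑ v ∈ (Finset.range b.n).filter (fun v => b.kd v < 5), c v = 0 := by
    by_cases hq : q = b.n - 1
    · simp [c, hq]
    · have := tk_spec h s hq
      simp only [c, if_neg hq, Finset.sum_sub_distrib, Finset.sum_ite_eq', Finset.mem_filter,
        Finset.mem_range]
      rw [if_pos (by omega), if_pos (by omega), sub_self]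
  have hA : ∀ v ∈ (Finset.range b.n).filter (fun v => b.kd v < 5),
      0 ≤ b.sg m v - b.sg (fun _ => 2) v + c v := fun v hv => by
    rw [Finset.mem_filter, Finset.mem_range] at hv
    by_cases e : v = b.n - 1
    · have a1 := s.last
      have a2 := fun hq => tk_spec h s hq
      simp only [c, sg, e, hl, sgn]
      norm_num
      split_ifs <;> omega
    · have a1 := fun hd => wire_d h s hv.1 hd e
      simp only [c, sg, if_neg e]
      rcases (by omega : b.kd v = 0 ∨ b.kd v = 1 ∨ b.kd v = 2 ∨ b.kd v = 3 ∨ b.kd v = 4) with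
        k | k | k | k | k <;> simp only [k, sgn] at a1 ⊢ <;> norm_num at a1 ⊢ <;>
        split_ifs <;> omega
  have hA' := Finset.sum_nonneg hA
  have hA0 : ∑ v ∈ (Finset.range b.n).filter (fun v => b.kd v < 5),
      (b.sg m v - b.sg (fun _ => 2) v + c v) = 0 := by
    rw [Finset.sum_add_distrib, hc] at hA' ⊢
    omega
  have hB0 : ∑ u ∈ (Finset.range b.n).filter (fun v => b.kd v = 5),
      ∑ w ∈ Finset.Ico u (b.ch u + 1), (b.sg m w - b.sg (fun _ => 2) w) = 0 := by
    rw [Finset.sum_add_distrib, hc] at hA0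
    omega
  refine ⟨fun u hu hk => (poly_sum h s hu hk).2 ((Finset.sum_eq_zero_iff_of_nonneg hB).1 hB0 u
    (by simp [hu, hk])), fun hq => ?_⟩
  have a1 := tk_spec h s hq
  have a2 := (Finset.sum_eq_zero_iff_of_nonneg hA).1 hA0 (tk m q) (by
    rw [Finset.mem_filter, Finset.mem_range]; omega)
  simp only [c, if_neg hq, if_pos, sg] at a2
  rw [if_neg (by omega)] at a2
  rcases a1 with ⟨-, k | k, e⟩ | ⟨-, k | k, e⟩
  · exact Or.inl k
  · simp [k, e, sgn] at a2
  · exact Or.inr k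
  · simp [k, e, sgn] at a2

/-- the pointer from a face across the missing edge it owns -/
def Step (b : Board) (m : ℕ → ℕ) (f g : ℕ) : Prop :=
  f < b.n ∧ ((b.kd f = 0 ∧ g = b.vt f) ∨
    (b.kd f = 1 ∧ ((m f = 2 ∧ g = b.bef f) ∨ (m f = 1 ∧ g = b.non f))) ∨
    (b.kd f = 2 ∧ ((m f = 2 ∧ g = b.aft f) ∨ (m f = 0 ∧ g = b.non f))) ∨
    (b.kd f = 5 ∧ ((m f = 2 ∧ g = b.bef f) ∨ ∃ j, f ≤ j ∧ j < b.ch f ∧ m j = 1 ∧
      g = if b.sd f then b.R (j + 1) else b.L (j + 1))))

theorem step_unique (h : b.Valid) (s : b.State m q) {f g g' : ℕ} (h1 : b.Step m f g)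
    (h2 : b.Step m f g') : g = g' := by
  obtain ⟨hf, h1⟩ := h1
  obtain ⟨-, h2⟩ := h2
  by_cases k : b.kd f = 5
  · have ho := (count h s).1 f hf k
    rcases h1 with h1 | h1 | h1 | ⟨-, h1⟩ <;> try omega
    rcases h2 with h2 | h2 | h2 | ⟨-, h2⟩ <;> try omega
    rcases ho with ⟨o1, o2⟩ | ⟨o1, j, -, -, -, o2⟩
    · rcases h1 with h1 | ⟨j, a1, a2, a3, -⟩
      · rcases h2 with h2 | ⟨j, a1, a2, a3, -⟩
        · omega
        · exact absurd a3 (o2 j a1 a2)
      · exact absurd a3 (o2 j a1 a2)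
    · rcases h1 with h1 | ⟨i, a1, a2, a3, a4⟩
      · omega
      · rcases h2 with h2 | ⟨i', b1, b2, b3, b4⟩
        · omega
        · rw [a4, b4, o2 i a1 a2 a3, o2 i' b1 b2 b3]
  · rcases h1 with h1 | h1 | h1 | ⟨h1, -⟩ <;> rcases h2 with h2 | h2 | h2 | ⟨h2, -⟩ <;> omega

theorem inside (h : b.Valid) {u : ℕ} (hu : u < b.n) (hk : b.kd u = 5) {j : ℕ} (h1 : u ≤ j)
    (h2 : j < b.ch u) : (if b.sd u then b.L (j + 1) else b.R (j + 1)) = u := by
  induction j, h1 using Nat.le_induction with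
  | base => exact h.ownA u hu (Or.inr hk)
  | succ j h1 ih =>
    have a1 := ih (by omega)
    have a2 := ((h.poly u hu hk).2.2.2 (j + 1) (by omega) h2).2
    have a3 := h.cont (j + 1) (by have := (h.chord u hu (by omega)).1; omega)
    unfold non non' at a3
    rw [a2] at a3
    cases e : b.sd u <;> simp_all

theorem sides (h : b.Valid) (J : ℕ → Prop) {u : ℕ} (hu : u < b.n) :
    (¬ J (b.L u) ∧ ¬ J (b.R u) ↔ ¬ J (b.non u) ∧ ¬ J (b.bef u)) ∧
    (¬ J (b.L (u + 1)) ∧ ¬ J (b.R (u + 1)) ↔ ¬ J (b.non u) ∧ ¬ J (b.aft u)) ∧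
    ((J (b.L u) ↔ J (b.R u)) ↔ (J (b.non u) ↔ J (b.bef u))) ∧
    ((J (b.L (u + 1)) ↔ J (b.R (u + 1))) ↔ (J (b.non u) ↔ J (b.aft u))) := by
  refine ⟨?_, ?_, ?_, ?_⟩
  · unfold non bef
    split_ifs
    · exact and_comm
    · rfl
  · rw [h.cont u hu]
    unfold non' aft
    split_ifs
    · exact and_comm
    · rfl
  · unfold non bef
    split_ifs
    · exact iff_comm
    · rfl
  · rw [h.cont u hu]
    unfold non' aft
    split_ifs
    · exact iff_comm
    · rfl

theorem nokink (h : b.Valid) (s : b.State m q) : q = b.n - 1 := by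
  by_contra hq
  set t := tk m q with ht
  have t1 := tk_spec h s hq
  have t2 := (count h s).2 hq
  rw [← ht] at t1 t2
  let J : ℕ → Prop := fun f => Relation.ReflTransGen (b.Step m) f t
  have Jt : J t := Relation.ReflTransGen.refl
  have hJ : ∀ f g, b.Step m f g → (J f ↔ J g) := fun f g hs => by
    refine ⟨fun hf => ?_, fun hg => hg.head hs⟩
    rcases hf.cases_head with e | ⟨g', a1, a2⟩
    · subst e
      obtain ⟨-, hs⟩ := hs
      omega
    · rwa [step_unique h s hs a1]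
  have Jn : ¬ J b.n := fun hf => by
    rcases hf.cases_head with e | ⟨g', a1, -⟩
    · omega
    · exact absurd a1.1 (lt_irrefl _)
  have eP : ∀ v, v + 1 < b.n → m v = 1 → v ≠ q → v + 1 ≠ q →
      (J (b.L (v + 1)) ↔ J (b.R (v + 1))) := fun v hv e n1 n2 => by
    have e' := (s.path v hv).1 e
    have p1 := s.port v (by omega)
    have p2 := s.port (v + 1) hv
    have hp := h.pair v hv
    unfold okp at hp
    by_cases k1 : b.kd v = 1
    · have a1 := hJ v (b.non v) ⟨by omega, Or.inr (Or.inl ⟨k1, Or.inr ⟨e, rfl⟩⟩)⟩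
      have a2 := h.ownA v (by omega) (Or.inl k1)
      rw [h.cont v (by omega)] at a1
      unfold aft at a2
      unfold non' at a1
      cases e : b.sd v <;> simp_all
    · by_cases k2 : b.kd (v + 1) = 2
      · have a1 := hJ (v + 1) (b.non (v + 1))
          ⟨hv, Or.inr (Or.inr (Or.inl ⟨k2, Or.inr ⟨e', rfl⟩⟩))⟩
        have a2 := h.ownB (v + 1) hv k2
        unfold bef at a2
        unfold non at a1
        cases e : b.sd (v + 1) <;> simp_all
      · obtain ⟨u, u1, u2, u3, u4⟩ := h.first (w := v) (by omega) (by omega)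
        have u5 := (h.corner u1 u2 u3 u4).2
        have u6 : v < b.ch u := by have := h.poly u u1 u2; omega
        have a1 := hJ u _ ⟨u1, Or.inr (Or.inr (Or.inr ⟨u2, Or.inr ⟨v, u3, u6, e, rfl⟩⟩))⟩
        have a2 := inside h u1 u2 u3 u6
        cases e : b.sd u <;> simp_all
  have eC' : ∀ v < b.n, m v = 2 → b.kd v = 1 ∨ b.kd v = 2 ∨ b.kd v = 5 →
      (J (b.bef v) ↔ J (b.aft v)) := fun v hv e k => by
    rcases k with k | k | k
    · rw [h.ownA v hv (Or.inl k)]
      exact (hJ v _ ⟨hv, Or.inr (Or.inl ⟨k, Or.inl ⟨e, rfl⟩⟩)⟩).symm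
    · rw [h.ownB v hv k]
      exact hJ v _ ⟨hv, Or.inr (Or.inr (Or.inl ⟨k, Or.inl ⟨e, rfl⟩⟩))⟩
    · rw [h.ownA v hv (Or.inr k)]
      exact (hJ v _ ⟨hv, Or.inr (Or.inr (Or.inr ⟨k, Or.inl ⟨e, rfl⟩⟩))⟩).symm
  have eC : ∀ v < b.n, m v = 2 ∨ b.kd v = 0 → (J (b.bef v) ↔ J (b.aft v)) := fun v hv e => by
    by_cases k : b.kd v = 0
    · rcases h.port v hv k with a | ⟨a1, a2, a3⟩ | ⟨a1, a2, a3⟩
      · rw [a]
      · exact hJ _ _ ⟨a1, Or.inl ⟨a2, a3.symm⟩⟩
      · exact (hJ _ _ ⟨a1, Or.inl ⟨a2, a3.symm⟩⟩).symm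
    · have e2 := e.resolve_right k
      obtain ⟨c1, -, -, -, c5⟩ := h.chord v hv k
      unfold okc at c5
      by_cases k' : b.kd v = 1 ∨ b.kd v = 2 ∨ b.kd v = 5
      · exact eC' v hv e2 k'
      · have := eC' _ c1 (s.chord v hv k e2) (by omega)
        rcases h.face v hv k with ⟨a1, a2⟩ | ⟨a1, a2⟩ <;> rw [a1, a2]
        · exact this
        · exact this.symm
  let Y : ℕ → Prop := fun v => ¬ J (b.L v) ∧ ¬ J (b.R v) ∧ ¬ J (b.L (v + 1)) ∧ ¬ J (b.R (v + 1))
  have eV : ∀ v < b.n, v ≠ t → ((m v = 2 ∨ b.kd v = 0) ∧ (J (b.bef v) ↔ J (b.aft v))) ∨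
      (m v = 0 ∧ (J (b.L v) ↔ J (b.R v))) ∨ (m v = 1 ∧ (J (b.L (v + 1)) ↔ J (b.R (v + 1)))) :=
    fun v hv hne => by
    by_cases k : m v = 2 ∨ b.kd v = 0
    · exact Or.inl ⟨k, eC v hv k⟩
    · have a1 := s.le v hv
      have k0 : b.kd q = 0 := s.qk.resolve_left hq
      have nq : v ≠ q := fun e => k (Or.inr (e ▸ k0))
      by_cases e : m v = 0
      · obtain ⟨u, rfl⟩ := h.prv (v := v) (by omega)
        have a2 := (s.path u hv).2 e
        refine Or.inr (Or.inl ⟨e, eP u hv a2 (fun e' => hne ?_) nq⟩)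
        rw [ht, ← e', tk, if_pos a2]
      · have e1 : m v = 1 := by omega
        refine Or.inr (Or.inr ⟨e1, ?_⟩)
        by_cases hl : v + 1 < b.n
        · refine eP v hl e1 nq fun e' => hne ?_
          rw [ht, ← e', tk, if_neg (by have := (s.path v hl).1 e1; omega)]
          rfl
        · rw [show v + 1 = b.n by omega, h.inner]
  have Y0 : Y 0 := by
    obtain ⟨r1, r2, r3, r4⟩ := h.root
    have a1 : ¬ J (b.L 0) := r1 ▸ Jn
    have a2 : ¬ J (b.R 0) := fun e => Jn ((hJ _ _ ⟨r2, Or.inl ⟨r3, r4.symm⟩⟩).1 e)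
    have a3 := eC 0 h.pos (Or.inr h.k0)
    have a4 := h.cont 0 h.pos
    unfold bef aft at a3
    unfold non non' at a4
    cases e : b.sd 0 <;> simp_all [Y]
  have Yt : ¬ Y t := fun ⟨y1, y2, y3, y4⟩ => by
    rcases t2 with k | k
    · have := h.ownA t (by omega) (Or.inl k)
      unfold aft at this
      cases e : b.sd t <;> simp_all
    · have := h.ownB t (by omega) k
      unfold bef at this
      cases e : b.sd t <;> simp_all
  obtain ⟨u, hu, v, hv, x1, x2, hU⟩ := s.cut (fun v => ¬ Y v) ⟨t, by omega, Yt⟩ (not_not.2 Y0)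
  obtain ⟨y1, y2, y3, y4⟩ := not_not.1 x2
  apply x1
  have hE := eV u hu
  obtain ⟨s1, s2, s3, s4⟩ := sides h J hu
  have fin : ¬ J (b.non u) → ¬ J (b.bef u) → ¬ J (b.aft u) → Y u := fun a1 a2 a3 =>
    ⟨(s1.2 ⟨a1, a2⟩).1, (s1.2 ⟨a1, a2⟩).2, (s2.2 ⟨a1, a3⟩).1, (s2.2 ⟨a1, a3⟩).2⟩
  rw [s3, s4] at hE
  rcases hU with ⟨rfl, e⟩ | ⟨rfl, e⟩ | ⟨k, rfl, e⟩
  · obtain ⟨a1, a2⟩ := s2.1 ⟨y1, y2⟩
    by_cases hne : u = t
    · exact absurd (by rw [h.ownA u hu (by rw [hne] at e ⊢; omega), hne]) a2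
    · rcases hE hne with ⟨-, a⟩ | ⟨-, a⟩ | ⟨a, -⟩
      · exact fin a1 (fun z => a2 (a.1 z)) a2
      · exact fin a1 (fun z => a1 (a.2 z)) a2
      · exact absurd a e
  · obtain ⟨a1, a2⟩ := s1.1 ⟨y3, y4⟩
    by_cases hne : v + 1 = t
    · exact absurd (by rw [h.ownB _ hu (by rw [hne] at e ⊢; omega), hne]) a2
    · rcases hE hne with ⟨-, a⟩ | ⟨a, -⟩ | ⟨-, a⟩
      · exact fin a1 a2 (fun z => a2 (a.2 z))
      · exact absurd a e
      · exact fin a1 a2 (fun z => a1 (a.2 z))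
  · have z : ¬ J (b.bef u) ∧ ¬ J (b.aft u) := by
      have z1 : ¬ J (b.bef (b.ch u)) := by unfold bef; split_ifs <;> assumption
      have z2 : ¬ J (b.aft (b.ch u)) := by unfold aft; split_ifs <;> assumption
      rcases h.face u hu k with ⟨a1, a2⟩ | ⟨a1, a2⟩ <;> rw [a1, a2]
      · exact ⟨z1, z2⟩
      · exact ⟨z2, z1⟩
    by_cases hne : u = t
    · exfalso
      rcases t2 with k | k
      · exact z.2 (by rw [hne, h.ownA t (by omega) (Or.inl k)])
      · exact z.1 (by rw [hne, h.ownB t (by omega) k])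
    · rcases hE hne with ⟨a, -⟩ | ⟨-, a⟩ | ⟨-, a⟩
      · omega
      · exact fin (fun y => z.1 (a.1 y)) z.1 z.2
      · exact fin (fun y => z.2 (a.1 y)) z.1 z.2

def polyR (k : ℕ) (a b o1 o2 o3 : Bool) : Bool :=
  if k = 2 then (o1 == (a || b)) && !(a && b)
  else if k = 3 then (o1 == b) && (o2 == a)
  else (!a && !b && !o1 && !o2 && !o3) || (!a && b && o1 && !o2 && !o3) ||
    (a && !b && !o1 && !o2 && o3) || (a && b && o2 && (o1 != o3))

theorem key2 {a b c : ℕ} (l0 : a ≤ 2) (l1 : b ≤ 2) (l2 : c ≤ 2) (t0 : a = 1 ↔ b = 0)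
    (t1 : b = 1 ↔ c = 0) (hc : c = 2 ↔ a = 2) (n1 : ¬ (a = 2 ∧ b = 1))
    (ex : a = 2 ∨ a = 1 ∨ b = 1) (x y : Bool) :
    polyR 2 (decide (a = 0)) (decide (c = 1)) (decide (b ≠ 2)) x y = true := by
  interval_cases a <;> interval_cases b <;> interval_cases c <;> simp_all [polyR]

theorem key3 {a b c d : ℕ} (l0 : a ≤ 2) (l1 : b ≤ 2) (l2 : c ≤ 2) (l3 : d ≤ 2)
    (t0 : a = 1 ↔ b = 0) (t1 : b = 1 ↔ c = 0) (t2 : c = 1 ↔ d = 0) (hc : d = 2 ↔ a = 2)
    (n1 : ¬ (a = 2 ∧ b = 1)) (n2 : ¬ (a = 2 ∧ c = 1)) (n3 : ¬ (a = 1 ∧ c = 1))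
    (ex : a = 2 ∨ a = 1 ∨ b = 1 ∨ c = 1) (y : Bool) :
    polyR 3 (decide (a = 0)) (decide (d = 1)) (decide (b ≠ 2)) (decide (c ≠ 2)) y = true := by
  interval_cases a <;> interval_cases b <;> interval_cases c <;> interval_cases d <;>
    simp_all [polyR]

theorem key4 {a b c d e : ℕ} (l0 : a ≤ 2) (l1 : b ≤ 2) (l2 : c ≤ 2) (l3 : d ≤ 2) (l4 : e ≤ 2)
    (t0 : a = 1 ↔ b = 0) (t1 : b = 1 ↔ c = 0) (t2 : c = 1 ↔ d = 0) (t3 : d = 1 ↔ e = 0)
    (hc : e = 2 ↔ a = 2) (n1 : ¬ (a = 2 ∧ b = 1)) (n2 : ¬ (a = 2 ∧ c = 1))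
    (n3 : ¬ (a = 2 ∧ d = 1)) (n4 : ¬ (a = 1 ∧ c = 1)) (n5 : ¬ (a = 1 ∧ d = 1))
    (n6 : ¬ (b = 1 ∧ d = 1)) (ex : a = 2 ∨ a = 1 ∨ b = 1 ∨ c = 1 ∨ d = 1) :
    polyR 4 (decide (a = 0)) (decide (e = 1)) (decide (b ≠ 2)) (decide (c ≠ 2))
      (decide (d ≠ 2)) = true := by
  interval_cases a <;> interval_cases b <;> interval_cases c <;> interval_cases d <;>
    interval_cases e <;> simp_all [polyR]

/-- the tokens on the wires obey the relays and the polygons -/
structure Sem (b : Board) (tok : ℕ → Bool) : Prop where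
  rn : ∀ v < b.n, b.kd v = 3 → tok (b.ch v) = tok (v + 1)
  rp : ∀ v < b.n, b.kd v = 4 → tok (b.ch v) = tok (v - 1)
  poly : ∀ u < b.n, b.kd u = 5 → polyR (b.ch u - u) (tok (u - 1)) (tok (b.ch u + 1))
    (tok (b.ch (u + 1))) (tok (b.ch (u + 2))) (tok (b.ch (u + 3))) = true

theorem nod (h : b.Valid) (s : b.State m q) {v : ℕ} (hv : v < b.n) :
    (b.kd v = 0 → m v = 2) ∧ (b.kd v = 1 ∨ b.kd v = 3 → m v ≠ 0) ∧
      (b.kd v = 2 ∨ b.kd v = 4 → m v ≠ 1) := by
  have hq := nokink h s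
  have hl := h.kl
  refine ⟨fun k => ?_, fun k e => ?_, fun k e => ?_⟩
  · by_contra e
    have := (s.port v hv k).1 e
    rw [← hq, ← this] at hl
    omega
  · exact (wire_d h s hv (Or.inl ⟨k, e⟩) fun e' => by rw [← e'] at hl; omega).1 hq
  · by_cases e' : v = b.n - 1
    · exact s.last.1 (e' ▸ e) hq
    · exact (wire_d h s hv (Or.inr ⟨k, e⟩) e').1 hq

theorem chd (h : b.Valid) (s : b.State m q) {v : ℕ} (hv : v < b.n) (k : b.kd v ≠ 0) :
    m (b.ch v) = 2 ↔ m v = 2 := by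
  obtain ⟨c1, c2, -, -, c5⟩ := h.chord v hv k
  unfold okc at c5
  exact ⟨fun e => c2 ▸ s.chord _ c1 (by omega) e, s.chord v hv k⟩

theorem sem (h : b.Valid) (s : b.State m q) : b.Sem fun v => decide (m v ≠ 2) := by
  refine ⟨fun v hv k => ?_, fun v hv k => ?_, fun u hu k => ?_⟩
  · have a0 := h.nxt hv (by omega)
    have a1 := h.pair v a0
    have a2 := nod h s hv
    have a3 := nod h s a0
    have a4 := chd h s hv (by omega)
    have a5 := s.path v a0
    have a6 := s.le v hv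
    have a7 := s.le _ a0
    unfold okp at a1
    rw [decide_eq_decide]
    omega
  · obtain ⟨u, rfl⟩ := h.prv (v := v) (by omega)
    have a1 := h.pair u hv
    have a2 := nod h s hv
    have a3 := nod h s (v := u) (by omega)
    have a4 := chd h s hv (by omega)
    have a5 := s.path u hv
    have a6 := s.le _ hv
    have a7 := s.le u (by omega)
    unfold okp at a1
    rw [decide_eq_decide, Nat.add_sub_cancel]
    omega
  · obtain ⟨c1, c2, -, -, c5⟩ := h.chord u hu (by omega)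
    obtain ⟨p1, p2, -, p4⟩ := h.poly u hu k
    have k7 : b.kd (b.ch u) = 7 := by unfold okc at c5; omega
    have hc := chd h s hu (by omega)
    have ho := (count h s).1 u hu k
    obtain ⟨x, rfl⟩ := h.prv (v := u) (by omega)
    have a0 := h.nxt c1 (by omega)
    have a1 := h.pair x hu
    have a2 := h.pair _ a0
    unfold okp at a1 a2
    have a3 := (nod h s (v := x) (by omega)).2.1 (by omega)
    have a4 := (nod h s a0).2.2 (by omega)
    have a5 := s.path x hu
    have a6 := s.path _ a0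
    have a7 := s.le x (by omega)
    have a8 := s.le _ a0
    have ea : decide (m x ≠ 2) = decide (m (x + 1) = 0) := by rw [decide_eq_decide]; omega
    have eb : decide (m (b.ch (x + 1) + 1) ≠ 2) = decide (m (b.ch (x + 1)) = 1) := by
      rw [decide_eq_decide]; omega
    have eo : ∀ w, x + 1 < w → w < b.ch (x + 1) →
        decide (m (b.ch w) ≠ 2) = decide (m w ≠ 2) := fun w w1 w2 => by
      have := chd h s (v := w) (by omega) (by have := (p4 w w1 w2).1; omega)
      rw [decide_eq_decide]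
      omega
    simp only [Nat.add_sub_cancel]
    rw [ea, eb, eo (x + 1 + 1) (by omega) (by omega)]
    clear a1 a2 a3 a4 a5 a6 a7 a8 ea eb c5
    generalize x + 1 = u at *
    have l0 := s.le u hu
    have l1 := s.le (u + 1) (by omega)
    have l2 := s.le (u + 2) (by omega)
    have t0 := s.path u (by omega)
    have t1 : m (u + 1) = 1 ↔ m (u + 2) = 0 := s.path (u + 1) (by omega)
    have one : ∀ i j, i < j → u + j < b.ch u → ¬ (m (u + i) = 1 ∧ m (u + j) = 1) := by
      rintro i j a1 a2 ⟨a3, a4⟩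
      rcases ho with ⟨-, o2⟩ | ⟨-, z, -, -, -, o2⟩
      · exact o2 _ (by omega) a2 a4
      · have := o2 _ (by omega) a2 a4
        have := o2 _ (by omega) (by omega) a3
        omega
    have two : ∀ j, u + j < b.ch u → ¬ (m u = 2 ∧ m (u + j) = 1) := by
      rintro j a2 ⟨a3, a4⟩
      rcases ho with ⟨-, o2⟩ | ⟨o1, -⟩
      · exact o2 _ (by omega) a2 a4
      · exact o1 a3
    have ex : m u = 2 ∨ ∃ j, u + j < b.ch u ∧ m (u + j) = 1 := by
      rcases ho with ⟨o1, -⟩ | ⟨-, z, z1, z2, z3, -⟩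
      · exact Or.inl o1
      · obtain ⟨j, rfl⟩ := Nat.exists_eq_add_of_le z1
        exact Or.inr ⟨j, z2, z3⟩
    rcases (by omega : b.ch u = u + 2 ∨ b.ch u = u + 3 ∨ b.ch u = u + 4) with e | e | e
    · rw [e] at hc ⊢
      rw [show u + 2 - u = 2 by omega]
      refine key2 l0 l1 l2 t0 t1 hc (two 1 (by omega)) ?_ _ _
      rcases ex with a | ⟨j, a1, a2⟩
      · exact Or.inl a
      · rcases (by omega : j = 0 ∨ j = 1) with rfl | rfl <;> (try rw [Nat.add_zero] at a2) <;> simp [a2]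
    · rw [eo (u + 2) (by omega) (by omega)]
      rw [e] at hc ⊢
      rw [show u + 3 - u = 3 by omega]
      refine key3 l0 l1 l2 (s.le (u + 3) (by omega)) t0 t1 (s.path (u + 2) (by omega)) hc
        (two 1 (by omega)) (two 2 (by omega)) (one 0 2 (by omega) (by omega)) ?_ _
      rcases ex with a | ⟨j, a1, a2⟩
      · exact Or.inl a
      · rcases (by omega : j = 0 ∨ j = 1 ∨ j = 2) with rfl | rfl | rfl <;>
          (try rw [Nat.add_zero] at a2) <;> simp [a2]
    · rw [eo (u + 2) (by omega) (by omega), eo (u + 3) (by omega) (by omega)]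
      rw [e] at hc ⊢
      rw [show u + 4 - u = 4 by omega]
      refine key4 l0 l1 l2 (s.le (u + 3) (by omega)) (s.le (u + 4) (by omega)) t0 t1
        (s.path (u + 2) (by omega)) (s.path (u + 3) (by omega)) hc
        (two 1 (by omega)) (two 2 (by omega)) (two 3 (by omega)) (one 0 2 (by omega) (by omega))
        (one 0 3 (by omega) (by omega)) (one 1 3 (by omega) (by omega)) ?_
      rcases ex with a | ⟨j, a1, a2⟩
      · exact Or.inl a
      · rcases (by omega : j = 0 ∨ j = 1 ∨ j = 2 ∨ j = 3) with rfl | rfl | rfl | rfl <;>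
          (try rw [Nat.add_zero] at a2) <;> simp [a2]

theorem home (h : b.Valid) (s : b.State m q)
    (hT : ∀ v < b.n, b.kd v = 1 ∨ b.kd v = 2 → m v = 2) : ∀ v < b.n, m v = 2 := by
  have h5 : ∀ u < b.n, b.kd u = 5 → m u = 2 := fun u hu k => by
    obtain ⟨x, rfl⟩ := h.prv (v := u) (by omega)
    have a0 := h.nxt hu (by omega)
    have a1 := h.pair x hu
    have a2 := h.pair _ a0
    obtain ⟨c1, -, -, -, c5⟩ := h.chord _ a0 (by unfold okp at a2; omega)
    unfold okp at a1 a2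
    unfold okc at c5
    have a3 := hT x (by omega) (by omega)
    have a4 := hT _ c1 (by omega)
    have a5 := chd h s a0 (by omega)
    have a6 := s.path x hu
    have a7 := s.path _ a0
    have a8 := s.le _ hu
    omega
  intro v hv
  by_cases k : b.kd v = 0
  · exact (nod h s hv).1 k
  · obtain ⟨c1, -, -, -, c5⟩ := h.chord v hv k
    have a1 := chd h s hv k
    have a2 := hT v hv
    have a3 := hT _ c1
    have a4 := h5 v hv
    have a5 := h5 _ c1
    unfold okc at c5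
    omega

end Board

end Pool.Agent.Lib.MP_33ce69_lc.Odd
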