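import Pool.Agent.Lib.MP_33ce69_lc.Odd.Circ
import Pool.Agent.Lib.MP_33ce69_lc.Odd.Graph

/-!
Numbering of the network of a Pure-Circuit instance, the graph and the decoder.
-/

namespace Pool.Agent.Lib.MP_33ce69_lc.Odd

set_option maxHeartbeats 400000

open Board SimpleGraph

def cA (n : ℕ) (gs : List Gate) : ℕ := n + gs.length
def cB (gs : List Gate) : ℕ := 2 * gs.length + 2
def cN (n : ℕ) (gs : List Gate) : ℕ := 5 * cA n gs * cB gs
def encN (n : ℕ) (gs : List Gate) (x : Tm) : ℕ := (x.1 * cA n gs + x.2.1) * cB gs + x.2.2.1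
def decN (n : ℕ) (gs : List Gate) (k j : ℕ) : Tm :=
  (k / cB gs / cA n gs, k / cB gs % cA n gs, k % cB gs, j)
def cTyp (n : ℕ) (gs : List Gate) (k : ℕ) : ℕ :=
  typN n gs (k / cB gs / cA n gs) (k / cB gs % cA n gs) (k % cB gs)
def encO (n : ℕ) (gs : List Gate) (x : Tm) : ℕ := 3 * encN n gs x + x.2.2.2
def encI (n : ℕ) (gs : List Gate) (x : Tm) : ℕ := 2 * encN n gs x + x.2.2.2
def cSrc (n : ℕ) (gs : List Gate) (i : ℕ) : ℕ := encO n gs (sN n gs (decN n gs (i / 2) (i % 2)))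
def cTgt (n : ℕ) (gs : List Gate) (o : ℕ) : ℕ := encI n gs (tN n gs (decN n gs (o / 3) (o % 3)))
def cBoard (n : ℕ) (gs : List Gate) : Board :=
  netB (cN n gs) (cTyp n gs) (cSrc n gs) (cTgt n gs)
def cOut (n : ℕ) (gs : List Gate) (x : Tm) : ℕ :=
  outV (cN n gs) (cTyp n gs) (cSrc n gs) (cTgt n gs) (encO n gs x)

variable {n : ℕ} {gs : List Gate}

theorem enc_dec {k : ℕ} (hk : k < cN n gs) (j : ℕ) :
    Bd n gs (decN n gs k j) ∧ encN n gs (decN n gs k j) = k := by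
  have hB : 0 < cB gs := by unfold cB; omega
  have hA : 0 < cA n gs := Nat.pos_of_ne_zero fun e => by simp [cN, e] at hk
  refine ⟨⟨?_, Nat.mod_lt _ hA, Nat.mod_lt _ hB⟩, ?_⟩
  · exact (Nat.div_lt_iff_lt_mul hA).2 ((Nat.div_lt_iff_lt_mul hB).2 hk)
  · simp only [encN, decN]
    rw [Nat.div_add_mod', Nat.div_add_mod']

theorem dec_enc {x : Tm} (hx : Bd n gs x) :
    encN n gs x < cN n gs ∧ (∀ j, decN n gs (encN n gs x) j = (x.1, x.2.1, x.2.2.1, j)) ∧
      cTyp n gs (encN n gs x) = typN n gs x.1 x.2.1 x.2.2.1 := by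
  obtain ⟨t, a, b, j⟩ := x
  obtain ⟨h1, h2, h3⟩ := hx
  have h2' : a < cA n gs := h2
  have h3' : b < cB gs := h3
  have e1 := dm (t * cA n gs + a) h3'
  have e2 := dm t h2'
  refine ⟨?_, fun j => ?_, ?_⟩
  · have : (t * cA n gs + a + 1) * cB gs ≤ 5 * cA n gs * cB gs :=
      Nat.mul_le_mul_right _ (by
        have : t * cA n gs ≤ 4 * cA n gs := Nat.mul_le_mul_right _ (by simp at h1; omega)
        omega)
    rw [Nat.add_mul _ 1] at this
    simp only [encN, cN]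
    omega
  · simp only [encN, decN, e1.1, e1.2, e2.1, e2.2]
  · simp only [encN, cTyp, e1.1, e1.2, e2.1, e2.2]

theorem o_enc {y : Tm} (h : RO n gs y) : encO n gs y < 3 * cN n gs ∧
    rout (cTyp n gs) (encO n gs y) ∧ cTgt n gs (encO n gs y) = encI n gs (tN n gs y) := by
  obtain ⟨h1, h2, h3⟩ := h
  obtain ⟨d1, d2, d3⟩ := dec_enc h1
  have e1 : encO n gs y / 3 = encN n gs y := by unfold encO; omega
  have e2 : encO n gs y % 3 = y.2.2.2 := by unfold encO; omega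
  refine ⟨by omega, ?_, ?_⟩
  · rwa [rout, e1, e2, d3]
  · rw [cTgt, e1, e2, d2]

theorem i_enc {x : Tm} (hb : Bd n gs x) (h2 : x.2.2.2 < 2) : encI n gs x < 2 * cN n gs ∧
    (RI n gs x → rin (cTyp n gs) (encI n gs x)) ∧
    cSrc n gs (encI n gs x) = encO n gs (sN n gs x) := by
  obtain ⟨d1, d2, d3⟩ := dec_enc hb
  have e1 : encI n gs x / 2 = encN n gs x := by unfold encI; omega
  have e2 : encI n gs x % 2 = x.2.2.2 := by unfold encI; omega
  refine ⟨by omega, fun h => ?_, ?_⟩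
  · rw [rin, e1, e2, d3]
    exact h.2.2
  · rw [cSrc, e1, e2, d2]

theorem i_dec {i : ℕ} (hi : i < 2 * cN n gs) (r : rin (cTyp n gs) i) :
    ∃ x, RI n gs x ∧ encI n gs x = i := by
  obtain ⟨b1, b2⟩ := enc_dec (n := n) (gs := gs) (k := i / 2) (by omega) (i % 2)
  refine ⟨_, ⟨b1, Nat.mod_lt _ (by omega), r⟩, ?_⟩
  rw [encI, b2]
  exact Nat.div_add_mod i 2

theorem o_dec {o : ℕ} (ho : o < 3 * cN n gs) (r : rout (cTyp n gs) o) :
    ∃ y, RO n gs y ∧ encO n gs y = o := by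
  obtain ⟨b1, b2⟩ := enc_dec (n := n) (gs := gs) (k := o / 3) (by omega) (o % 3)
  refine ⟨_, ⟨b1, Nat.mod_lt _ (by omega), r⟩, ?_⟩
  rw [encO, b2]
  exact Nat.div_add_mod o 3

theorem c_ok (F : Facts n gs) : NetOK (cN n gs) (cTyp n gs) (cSrc n gs) (cTgt n gs) := by
  have hG : 0 < gs.length := by have := (F.p1 0 F.pos).1; omega
  have h0 := dec_enc (n := n) (gs := gs) (x := (0, 0, 0, 0))
    ⟨by simp, by simp; omega, by simp⟩
  refine ⟨by omega, ?_, fun a _ => ?_, fun i hi r => ?_, fun o ho r => ?_⟩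
  · have := h0.2.2
    simp only [encN, Nat.zero_mul, Nat.add_zero] at this
    rw [this]
    simp [typN, hG]
  · unfold cTyp typN
    split_ifs <;> omega
  · obtain ⟨x, hx, rfl⟩ := i_dec hi r
    obtain ⟨c1, c2⟩ : RO n gs (sN n gs x) ∧ tN n gs (sN n gs x) = x := in_ok F hx
    obtain ⟨d1, d2, d3⟩ := o_enc c1
    rw [(i_enc hx.1 hx.2.1).2.2]
    exact ⟨d1, d2, by rw [d3, c2]⟩
  · obtain ⟨y, hy, rfl⟩ := o_dec ho r
    obtain ⟨c1, c2⟩ : RI n gs (tN n gs y) ∧ sN n gs (tN n gs y) = y := out_ok F hy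
    obtain ⟨d1, d2, d3⟩ := i_enc c1.1 c1.2.1
    rw [(o_enc hy).2.2]
    exact ⟨d1, d2 c1, by rw [d3, c2]⟩

theorem c_sem (F : Facts n gs) {tok : ℕ → Bool} (s : (cBoard n gs).Sem tok) :
    NV n gs (fun x => tok (cOut n gs x)) ∧ (Dead gs (fun x => tok (cOut n gs x)) 0 1 →
      ∀ v < (cBoard n gs).n, (cBoard n gs).kd v = 1 ∨ (cBoard n gs).kd v = 2 → tok v = false) := by
  obtain ⟨s1, s2⟩ := net_sem (c_ok F) s
  have k : ∀ t a b, Bd n gs (t, a, b, 0) → cTyp n gs (encN n gs (t, a, b, 0)) = typN n gs t a b ∧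
      cSrc n gs (2 * encN n gs (t, a, b, 0)) = encO n gs (srcN n gs t a b 0) ∧
      cSrc n gs (2 * encN n gs (t, a, b, 0) + 1) = encO n gs (srcN n gs t a b 1) :=
    fun t a b h => ⟨(dec_enc h).2.2, (i_enc (x := (t, a, b, 0)) h (by simp)).2.2,
      (i_enc (x := (t, a, b, 1)) h (by simp)).2.2⟩
  have nv : NV n gs (fun x => tok (cOut n gs x)) := by
    refine ⟨fun t a b h e => ?_, fun t a b h e => ?_, fun t a b h e => ?_⟩
    · obtain ⟨k1, k2, k3⟩ := k t a b h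
      have := (s1 _ (dec_enc h).1).1 (k1.trans e)
      rw [k2] at this
      exact this
    · obtain ⟨k1, k2, k3⟩ := k t a b h
      have := (s1 _ (dec_enc h).1).2.1 (k1.trans e)
      rw [k2, k3] at this
      exact this
    · obtain ⟨k1, k2, k3⟩ := k t a b h
      have := (s1 _ (dec_enc h).1).2.2 (k1.trans e)
      rw [k2, k3] at this
      exact this
  refine ⟨nv, fun d => s2 fun o ho r => ?_⟩
  obtain ⟨y, hy, rfl⟩ := o_dec ho r
  exact all_dead F nv d y hy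

/-- is the chord at vertex `v` of the copy with offset `o` listed in `E` -/
def tokE (n : ℕ) (gs : List Gate) (E : List (ℕ × ℕ)) (o v : ℕ) : Bool :=
  decide ((o + v, o + (cBoard n gs).ch v) ∈ E ∨ (o + (cBoard n gs).ch v, o + v) ∈ E)

def valE (n : ℕ) (gs : List Gate) (E : List (ℕ × ℕ)) (o : ℕ) (x : Tm) : Bool :=
  tokE n gs E o (cOut n gs x)

def offE (n : ℕ) (gs : List Gate) (E : List (ℕ × ℕ)) : ℕ :=
  if valE n gs E 0 (P0 gs 0 1) = false ∧ valE n gs E 0 (P1 gs 0 1) = false then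
    (cBoard n gs).n + 1 else 0

def solE (n : ℕ) (gs : List Gate) (E : List (ℕ × ℕ)) : List ℕ :=
  (List.range n).map fun y =>
    dec (valE n gs E (offE n gs E) (P0 gs y 0)) (valE n gs E (offE n gs E) (P1 gs y 0))

def cycL (n : ℕ) (gs : List Gate) : List ℕ :=
  (2 * (cBoard n gs).n + 1) :: List.range (2 * (cBoard n gs).n + 2)

theorem solves (h : PCValid n gs) {V : Tm → Bool} (nv : NV n gs V) (e : ¬ Dead gs V 0 1) :
    PCSolves n gs ((List.range n).map fun y => dec (V (P0 gs y 0)) (V (P1 gs y 0))) := by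
  refine ⟨by simp, fun a ha => ?_, fun g hg => ?_⟩
  · obtain ⟨y, -, rfl⟩ := List.mem_map.1 ha
    unfold dec
    split_ifs <;> omega
  · obtain ⟨u1, u2, u3, -⟩ := h.2.1 g hg
    obtain ⟨k, hk, rfl⟩ := List.getElem_of_mem hg
    have := alive (facts h) nv e hk
    simp only [gT, gU, gV, gW', List.getD_eq_getElem _ _ hk] at this
    simpa [List.getD_eq_getElem?_getD, u1, u2, u3] using this

theorem main (h : PCValid n gs) :
    ∃ (m : ℕ) (G : SimpleGraph (Fin m)) (v : Fin m) (C : G.Walk v v),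
      Lists (cBoard n gs).edges G.edgeSet ∧ cycL n gs = C.support.map Fin.val ∧
      C.IsHamiltonianCycle ∧ (∀ x, Odd (G.neighborSet x).ncard) ∧
      (∃ a c, ∀ x, x ≠ a → x ≠ c → (G.neighborSet x).ncard = 3) ∧ m = 2 * (cBoard n gs).n + 2 ∧
      ∀ (w : Fin m) (D : G.Walk w w) (E : List (ℕ × ℕ)), D.IsHamiltonianCycle →
        D.edgeSet ≠ C.edgeSet → Lists E D.edgeSet → PCSolves n gs (solE n gs E) := by
  have F := facts h
  have hv : (cBoard n gs).Valid := grid_valid (net_grid (c_ok F))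
  obtain ⟨v, C, c1, c2, c3⟩ := exists_home hv
  obtain ⟨d1, d2⟩ := degrees hv grid_odd
  refine ⟨_, _, v, C, lists hv, c1.symm, c2, d1, d2, rfl, fun w D E hD hne hE => ?_⟩
  have c := cyc_of hv hD hE
  have k : ∀ o o', (cBoard n gs).Cp o o' → NV n gs (valE n gs E o) ∧
      (Dead gs (valE n gs E o) 0 1 → ∀ v < (cBoard n gs).n,
        ¬ ((o + v, o + (cBoard n gs).tg v) ∈ E ∨ (o + (cBoard n gs).tg v, o + v) ∈ E) ∧
        ((o + v, o + v + 1) ∈ E ∨ (o + v + 1, o + v) ∈ E)) := fun o o' p => by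
    obtain ⟨s1, s2⟩ := copy_sem hv c p
    have s : (cBoard n gs).Sem (tokE n gs E o) := by
      convert s1 using 2 with v
      unfold tokE
      congr
    obtain ⟨t1, t2⟩ := c_sem F s
    exact ⟨t1, fun d => s2 fun v hv k => by simpa [tokE] using t2 d v hv k⟩
  obtain ⟨a1, a2⟩ := k 0 _ (Or.inl ⟨rfl, rfl⟩)
  obtain ⟨b1, b2⟩ := k _ 0 (Or.inr ⟨rfl, rfl⟩)
  unfold solE offE
  split_ifs with z
  · refine solves h b1 fun z' => hne ?_
    ext e
    induction e using Sym2.ind with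
    | h x y =>
      rw [hE.2, all_home hv c (a2 z) (b2 z') x y x.2 y.2, Walk.mem_edgeSet, c3]
  · exact solves h a1 z

end Pool.Agent.Lib.MP_33ce69_lc.Odd
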