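import Pool.Agent.Lib.MP_33ce69_lc.Odd.Grid

/-!
A network of nodes (1 merge, 2 pentagon, 3 buffer, 0 absent) laid out on the grid: row 0 holds the
nodes, every other row carries one output to one input.
-/

namespace Pool.Agent.Lib.MP_33ce69_lc.Odd

set_option maxHeartbeats 400000
set_option synthInstance.maxSize 4000

open Board

def rin (typ : ℕ → ℕ) (i : ℕ) : Prop :=
  (i % 2 = 0 ∧ typ (i / 2) ≠ 0) ∨ typ (i / 2) = 1 ∨ typ (i / 2) = 2

def rout (typ : ℕ → ℕ) (o : ℕ) : Prop := (o % 3 = 1 ∧ typ (o / 3) ≠ 0) ∨ typ (o / 3) = 2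

def ocol (o : ℕ) : ℕ := 5 * (o / 3) + 2 * (o % 3)

def lcol (i : ℕ) : ℕ := 5 * (i / 2) + 1 + 2 * (i % 2)

def pvv (N : ℕ) (typ tgt : ℕ → ℕ) (c l : ℕ) : Prop :=
  c < 5 * N ∧ ((c % 5 % 2 = 0 ∧ rout typ (3 * (c / 5) + c % 5 / 2) ∧
      l + tgt (3 * (c / 5) + c % 5 / 2) ≤ 2 * N) ∨
    (c % 5 % 2 = 1 ∧ rin typ (2 * (c / 5) + c % 5 / 2) ∧ 2 * N < l + (2 * (c / 5) + c % 5 / 2)))

instance (typ : ℕ → ℕ) (i : ℕ) : Decidable (rin typ i) := by unfold rin; infer_instance
instance (typ : ℕ → ℕ) (i : ℕ) : Decidable (rout typ i) := by unfold rout; infer_instance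
instance (N : ℕ) (typ tgt : ℕ → ℕ) (c l : ℕ) : Decidable (pvv N typ tgt c l) := by
  unfold pvv; infer_instance

def ty0 (t r : ℕ) : ℕ :=
  if t = 2 then [12, 3, 21, 4, 17].getD r 0 else if t = 1 then [0, 0, 18, 3, 15].getD r 0
  else if t = 3 then [0, 0, 6, 0, 0].getD r 0 else 0

def tyR (v : Bool) (c s t e : ℕ) : ℕ :=
  if c = e then 22 else if c = t then (if s < c then 13 else 12)
  else if c = s then (if t < c then 11 else 8)
  else if v = true then (if t < c then (if s < c then 10 else 9) else if s < c then 7 else 6)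
  else (if t < c then (if s < c then 4 else 3) else if s < c then 1 else 0)

def ty (N : ℕ) (typ src tgt : ℕ → ℕ) (c l : ℕ) : ℕ :=
  if l = 0 then (if c < 5 * N then ty0 (typ (c / 5)) (c % 5) else 0)
  else if rin typ (2 * N - l) then
    tyR (decide (pvv N typ tgt c l)) c (ocol (src (2 * N - l))) (lcol (2 * N - l)) (5 * N)
  else if pvv N typ tgt c l then 6 else 0

def nT (N : ℕ) (typ src tgt : ℕ → ℕ) (k : ℕ) : ℕ :=
  ty N typ src tgt (k / (2 * N + 1)) (k % (2 * N + 1))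

structure NetOK (N : ℕ) (typ src tgt : ℕ → ℕ) : Prop where
  pos : 0 < N
  t0 : typ 0 ≠ 0
  le : ∀ a < N, typ a ≤ 3
  ins : ∀ i < 2 * N, rin typ i → src i < 3 * N ∧ rout typ (src i) ∧ tgt (src i) = i
  outs : ∀ o < 3 * N, rout typ o → tgt o < 2 * N ∧ rin typ (tgt o) ∧ src (tgt o) = o

def NodeRel (typ src : ℕ → ℕ) (val : ℕ → Bool) (a : ℕ) : Prop :=
  (typ a = 3 → val (3 * a + 1) = val (src (2 * a))) ∧
  (typ a = 1 → polyR 2 (val (src (2 * a + 1))) (val (src (2 * a))) (val (3 * a + 1)) false false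
    = true) ∧
  (typ a = 2 → polyR 4 (val (src (2 * a + 1))) (val (src (2 * a))) (val (3 * a + 2))
    (val (3 * a + 1)) (val (3 * a)) = true)

variable {N : ℕ} {typ src tgt : ℕ → ℕ}

theorem ocol_dm (o : ℕ) : ocol o / 5 = o / 3 ∧ ocol o % 5 = 2 * (o % 3) := by
  unfold ocol; omega

theorem lcol_dm (i : ℕ) : lcol i / 5 = i / 2 ∧ lcol i % 5 = 1 + 2 * (i % 2) := by
  unfold lcol; omega

theorem pv_out {o l : ℕ} (ho : o < 3 * N) :
    pvv N typ tgt (ocol o) l ↔ rout typ o ∧ l + tgt o ≤ 2 * N := by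
  have e : 3 * (ocol o / 5) + ocol o % 5 / 2 = o := by
    rw [(ocol_dm o).1, (ocol_dm o).2]
    omega
  have e' : ocol o % 5 % 2 = 0 ∧ ocol o < 5 * N :=
    ⟨by rw [(ocol_dm o).2]; omega, by clear e; unfold ocol; omega⟩
  unfold pvv
  rw [e]
  simp [e'.1, e'.2]

theorem pv_in {i l : ℕ} (hi : i < 2 * N) :
    pvv N typ tgt (lcol i) l ↔ rin typ i ∧ 2 * N < l + i := by
  have e : 2 * (lcol i / 5) + lcol i % 5 / 2 = i := by
    rw [(lcol_dm i).1, (lcol_dm i).2]
    omega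
  have e' : lcol i % 5 % 2 = 1 ∧ lcol i < 5 * N :=
    ⟨by rw [(lcol_dm i).2]; omega, by clear e; unfold lcol; omega⟩
  unfold pvv
  rw [e]
  simp [e'.1, e'.2]

theorem col_cases {c : ℕ} (hc : c < 5 * N) :
    (∃ o < 3 * N, c = ocol o) ∨ ∃ i < 2 * N, c = lcol i := by
  by_cases e : c % 5 % 2 = 0
  · exact Or.inl ⟨3 * (c / 5) + c % 5 / 2, by omega, by unfold ocol; omega⟩
  · exact Or.inr ⟨2 * (c / 5) + c % 5 / 2, by omega, by unfold lcol; omega⟩

theorem pv_step (h : NetOK N typ src tgt) {c l : ℕ} (h1 : 0 < l) (h2 : l ≤ 2 * N)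
    (hc : rin typ (2 * N - l) → c ≠ ocol (src (2 * N - l)) ∧ c ≠ lcol (2 * N - l)) :
    pvv N typ tgt c l ↔ pvv N typ tgt c (l + 1) := by
  by_cases e : c < 5 * N
  · rcases col_cases e with ⟨o, ho, rfl⟩ | ⟨i, hi, rfl⟩
    · rw [pv_out ho, pv_out ho]
      refine and_congr_right fun r => ⟨fun a => ?_, fun a => by omega⟩
      obtain ⟨a1, a2, a3⟩ := h.outs o ho r
      by_contra z
      have e' : 2 * N - l = tgt o := by omega
      rw [e', a3] at hc
      exact (hc a2).1 rfl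
    · rw [pv_in hi, pv_in hi]
      refine and_congr_right fun r => ⟨fun a => by omega, fun a => ?_⟩
      by_contra z
      have e' : 2 * N - l = i := by omega
      rw [e'] at hc
      exact (hc r).2 rfl
  · exact ⟨fun a => absurd a.1 e, fun a => absurd a.1 e⟩

theorem tyR_spec (v : Bool) {c s t e : ℕ} (hs : s < e) (ht : t < e) (hne : s ≠ t) (hc : c ≤ e) :
    tyR v c s t e < 23 ∧ (fue (tyR v c s t e) ↔ t ≤ c ∧ c < e) ∧ (fuw (tyR v c s t e) ↔ t < c) ∧
    (fle (tyR v c s t e) ↔ s ≤ c ∧ c < e) ∧ (flw (tyR v c s t e) ↔ s < c) ∧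
    (fvin (tyR v c s t e) ↔ c ≠ e ∧ c ≠ t ∧ (c = s ∨ v = true)) ∧
    (fvout (tyR v c s t e) ↔ c ≠ e ∧ c ≠ s ∧ (c = t ∨ v = true)) := by
  unfold tyR
  split_ifs <;> simp [fue, fuw, fle, flw, fvin, fvout, *] <;> omega

theorem tyR_sem (v : Bool) {c s t e : ℕ} (hs : s < e) (ht : t < e) (hne : s ≠ t) (hc : c ≤ e)
    {a n w wu el z : Bool} (h : semT (tyR v c s t e) a n w wu el z) :
    (c ≠ e → c ≠ s → c ≠ t → v = true → z = n) ∧ (t < c → c < e → wu = a) ∧ (c = e → wu = w) ∧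
    (s < c → c < e → el = w) ∧ (c = s → el = n) ∧ (c = t → z = a) := by
  unfold tyR at h
  split_ifs at h <;> (try simp [semT] at h) <;> simp [*] <;> omega

theorem geo (h : NetOK N typ src tgt) {l : ℕ} (h1 : 0 < l) (h2 : l ≤ 2 * N)
    (r : rin typ (2 * N - l)) :
    ocol (src (2 * N - l)) < 5 * N ∧ lcol (2 * N - l) < 5 * N ∧ 0 < lcol (2 * N - l) ∧
    ocol (src (2 * N - l)) ≠ lcol (2 * N - l) ∧
    pvv N typ tgt (ocol (src (2 * N - l))) l ∧ ¬ pvv N typ tgt (ocol (src (2 * N - l))) (l + 1) ∧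
    ¬ pvv N typ tgt (lcol (2 * N - l)) l ∧ pvv N typ tgt (lcol (2 * N - l)) (l + 1) := by
  have hi : 2 * N - l < 2 * N := by omega
  obtain ⟨a1, a2, a3⟩ := h.ins _ hi r
  rw [pv_out a1, pv_out a1, pv_in hi, pv_in hi, a3]
  refine ⟨by unfold ocol; omega, by unfold lcol; omega, by unfold lcol; omega,
    fun z => ?_, ⟨a2, by omega⟩, by omega, by omega, r, by omega⟩
  have z1 := (ocol_dm (src (2 * N - l))).2
  rw [z, (lcol_dm _).2] at z1
  clear z
  omega

theorem flags (h : NetOK N typ src tgt) {c l : ℕ} (h1 : 0 < l) (h2 : l ≤ 2 * N) (hc : c ≤ 5 * N) :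
    ty N typ src tgt c l < 23 ∧
    (fue (ty N typ src tgt c l) ↔ rin typ (2 * N - l) ∧ lcol (2 * N - l) ≤ c ∧ c < 5 * N) ∧
    (fuw (ty N typ src tgt c l) ↔ rin typ (2 * N - l) ∧ lcol (2 * N - l) < c) ∧
    (fle (ty N typ src tgt c l) ↔ rin typ (2 * N - l) ∧ ocol (src (2 * N - l)) ≤ c ∧ c < 5 * N) ∧
    (flw (ty N typ src tgt c l) ↔ rin typ (2 * N - l) ∧ ocol (src (2 * N - l)) < c) ∧
    (fvin (ty N typ src tgt c l) ↔ pvv N typ tgt c l) ∧
    (fvout (ty N typ src tgt c l) ↔ pvv N typ tgt c (l + 1)) := by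
  have st := pv_step h (c := c) h1 h2
  unfold ty
  rw [if_neg (by omega)]
  by_cases r : rin typ (2 * N - l)
  · obtain ⟨g1, g2, -, g3, g4, g5, g6, g7⟩ := geo h h1 h2 r
    obtain ⟨a0, a1, a2, a3, a4, a5, a6⟩ := tyR_spec (decide (pvv N typ tgt c l)) g1 g2 g3 hc
    rw [if_pos r, a1, a2, a3, a4, a5, a6]
    simp only [r, true_and, decide_eq_true_eq]
    refine ⟨a0, ⟨fun ⟨_, _, z⟩ => ?_, fun z => ⟨z.1.ne, fun e => g6 (e ▸ z), Or.inr z⟩⟩,
      ⟨fun ⟨_, y, z⟩ => ?_, fun z => ⟨z.1.ne, fun e => g5 (e ▸ z), ?_⟩⟩⟩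
    · rcases z with rfl | z
      · exact g4
      · exact z
    · by_cases e : c = lcol (2 * N - l)
      · exact e ▸ g7
      · exact (st fun _ => ⟨y, e⟩).1 (z.resolve_left e)
    · by_cases e : c = lcol (2 * N - l)
      · exact Or.inl e
      · exact Or.inr ((st fun _ => ⟨fun e => g5 (e ▸ z), e⟩).2 z)
  · rw [if_neg r, ← st fun z => absurd z r]
    by_cases e : pvv N typ tgt c l <;> simp [e, r, fue, fuw, fle, flw, fvin, fvout]

theorem ty0_spec : ∀ t ≤ 3, ∀ r < 5, ty0 t r < 23 ∧ (fue (ty0 t r) ↔ r < 4 ∧ fuw (ty0 t (r + 1))) ∧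
    (fle (ty0 t r) ↔ r < 4 ∧ flw (ty0 t (r + 1))) ∧ (r = 0 → ¬ fuw (ty0 t r) ∧ ¬ flw (ty0 t r)) ∧
    (fvin (ty0 t r) ↔ (r = 2 ∧ t ≠ 0) ∨ (r = 4 ∧ (t = 1 ∨ t = 2))) ∧
    (fvout (ty0 t r) ↔ (r = 2 ∧ t ≠ 0) ∨ (r % 2 = 0 ∧ t = 2)) := by decide

theorem row0 (a : ℕ) {r : ℕ} (hr : r < 5) (ha : a < N) :
    ty N typ src tgt (5 * a + r) 0 = ty0 (typ a) r := by
  unfold ty
  rw [if_pos rfl, if_pos (by omega), show (5 * a + r) / 5 = a by omega,
    show (5 * a + r) % 5 = r by omega]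

theorem row0' : ty N typ src tgt (5 * N) 0 = 0 := by simp [ty]

theorem flags0 (h : NetOK N typ src tgt) {c : ℕ} (hc : c ≤ 5 * N) :
    ty N typ src tgt c 0 < 23 ∧
    (c < 5 * N → (fue (ty N typ src tgt c 0) ↔ fuw (ty N typ src tgt (c + 1) 0)) ∧
      (fle (ty N typ src tgt c 0) ↔ flw (ty N typ src tgt (c + 1) 0))) ∧
    (c = 0 → ¬ fuw (ty N typ src tgt c 0) ∧ ¬ flw (ty N typ src tgt c 0)) ∧
    (fvin (ty N typ src tgt c 0) ↔ 0 < c ∧ pvv N typ tgt (c - 1) (2 * N + 1)) ∧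
    (fvout (ty N typ src tgt c 0) ↔ pvv N typ tgt c 1) := by
  have hp := h.pos
  have key : ∀ c, pvv N typ tgt c (2 * N + 1) ↔ c < 5 * N ∧
      ((c % 5 = 1 ∧ typ (c / 5) ≠ 0) ∨ (c % 5 = 3 ∧ (typ (c / 5) = 1 ∨ typ (c / 5) = 2))) := by
    intro c
    unfold pvv rin
    refine and_congr_right fun _ => ?_
    by_cases e : c % 5 % 2 = 1
    · rw [show (2 * (c / 5) + c % 5 / 2) / 2 = c / 5 by omega]
      omega
    · omega
  rw [key]
  by_cases e : c = 5 * N
  · subst e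
    rw [row0']
    refine ⟨by omega, by omega, by omega, ⟨fun z => absurd z (by decide), by omega⟩,
      ⟨fun z => absurd z (by decide), fun z => absurd z.1 (lt_irrefl _)⟩⟩
  · obtain ⟨a, r, hr, rfl⟩ : ∃ a r, r < 5 ∧ c = 5 * a + r := ⟨c / 5, c % 5, by omega, by omega⟩
    have ha : a < N := by omega
    obtain ⟨s0, s1, s2, s3, s4, s5⟩ := ty0_spec _ (h.le a ha) r hr
    rw [row0 a hr ha, s1, s2, s4, s5]
    refine ⟨s0, fun _ => ?_, fun z => s3 (by omega), ?_, ?_⟩
    · by_cases e4 : r < 4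
      · rw [Nat.add_assoc, row0 a (by omega) ha]
        simp [e4]
      · have : ¬ fuw (ty N typ src tgt (5 * a + r + 1) 0) ∧
            ¬ flw (ty N typ src tgt (5 * a + r + 1) 0) := by
          by_cases e5 : a + 1 < N
          · rw [show 5 * a + r + 1 = 5 * (a + 1) + 0 by omega, row0 _ (by omega) e5]
            exact (ty0_spec _ (h.le _ e5) 0 (by omega)).2.2.2.1 rfl
          · rw [show 5 * a + r + 1 = 5 * N by omega, row0']
            decide
        simp [e4, this.1, this.2]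
    · by_cases e0 : r = 0
      · omega
      · rw [show (5 * a + r - 1) / 5 = a by omega]
        omega
    · by_cases e2 : r % 2 = 0
      · have ho : 3 * a + r / 2 < 3 * N := by omega
        have := h.outs _ ho
        rw [show 5 * a + r = ocol (3 * a + r / 2) by unfold ocol; omega, pv_out ho]
        unfold rout at this ⊢
        rw [show (3 * a + r / 2) / 3 = a by omega] at this ⊢
        omega
      · have hi : 2 * a + r / 2 < 2 * N := by omega
        rw [show 5 * a + r = lcol (2 * a + r / 2) by unfold lcol; omega, pv_in hi]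
        constructor
        · omega
        · rintro ⟨-, z⟩
          omega

theorem dm (c : ℕ) {l L : ℕ} (h : l < L) : (c * L + l) / L = c ∧ (c * L + l) % L = l := by
  rw [Nat.add_comm, Nat.add_mul_div_right _ _ (by omega), Nat.add_mul_mod_self_right,
    Nat.div_eq_of_lt h, Nat.mod_eq_of_lt h]
  simp

theorem nT_eq (c : ℕ) {l : ℕ} (h : l ≤ 2 * N) :
    nT N typ src tgt (c * (2 * N + 1) + l) = ty N typ src tgt c l := by
  unfold nT
  rw [(dm c (by omega)).1, (dm c (by omega)).2]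

theorem split_k {k m : ℕ} (hk : k < m * (2 * N + 1)) :
    ∃ c l, c < m ∧ l ≤ 2 * N ∧ k = c * (2 * N + 1) + l :=
  ⟨k / (2 * N + 1), k % (2 * N + 1), (Nat.div_lt_iff_lt_mul (by omega)).2 hk,
    Nat.le_of_lt_succ (Nat.mod_lt _ (by omega)), (Nat.div_add_mod' _ _).symm⟩

theorem net_grid (h : NetOK N typ src tgt) :
    GridOK ((5 * N + 1) * (2 * N + 1)) (2 * N + 1) (nT N typ src tgt) := by
  have hp := h.pos
  have nx : ∀ c l, c * (2 * N + 1) + l + (2 * N + 1) = (c + 1) * (2 * N + 1) + l := by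
    intro c l; ring
  have hor : ∀ k, k + (2 * N + 1) < (5 * N + 1) * (2 * N + 1) →
      (fue (nT N typ src tgt k) ↔ fuw (nT N typ src tgt (k + (2 * N + 1)))) ∧
      (fle (nT N typ src tgt k) ↔ flw (nT N typ src tgt (k + (2 * N + 1)))) := fun k hk => by
    obtain ⟨c, l, h1, h2, rfl⟩ := split_k (N := N) (k := k) (m := 5 * N)
      (by rw [Nat.add_mul (5 * N)] at hk; omega)
    rw [nx, nT_eq c h2, nT_eq _ h2]
    by_cases e : l = 0
    · subst e
      exact (flags0 h h1.le).2.1 h1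
    · obtain ⟨-, a1, -, a2, -⟩ := flags h (c := c) (by omega) h2 h1.le
      obtain ⟨-, -, b1, -, b2, -⟩ := flags h (c := c + 1) (by omega) h2 h1
      rw [a1, a2, b1, b2]
      exact ⟨and_congr_right fun _ => by omega, and_congr_right fun _ => by omega⟩
  refine ⟨by omega, by nlinarith, fun k hk => ?_, ?_, fun k hk => (hor k hk).1,
    fun k hk => (hor k hk).2, fun k hk => ?_, fun k hk hk' => ?_, fun k hk => ?_, ?_⟩
  · obtain ⟨c, l, h1, h2, rfl⟩ := split_k hk
    rw [nT_eq c h2]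
    by_cases e : l = 0
    · exact e ▸ (flags0 h (by omega)).1
    · exact (flags h (by omega) h2 (by omega)).1
  · rw [show (5 * N + 1) * (2 * N + 1) - 1 = 5 * N * (2 * N + 1) + 2 * N by
      rw [Nat.add_mul (5 * N)]; omega, nT_eq _ le_rfl, ty, if_neg (by omega), Nat.sub_self,
      if_pos (show rin typ 0 from Or.inl ⟨rfl, h.t0⟩), tyR, if_pos rfl]
  · have e := nT_eq (typ := typ) (src := src) (tgt := tgt) 0 (l := k) (N := N) (by omega)
    rw [Nat.zero_mul, Nat.zero_add] at e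
    rw [e]
    by_cases e : k = 0
    · exact e ▸ (flags0 h (by omega)).2.2.1 rfl
    · obtain ⟨-, -, b1, -, b2, -⟩ := flags h (c := 0) (l := k) (by omega) (by omega) (by omega)
      rw [b1, b2]
      simp
  · obtain ⟨c, l, h1, h2, rfl⟩ := split_k hk
    have e : c = 5 * N := by
      by_contra z
      have : (c + 1 + 1) * (2 * N + 1) ≤ (5 * N + 1) * (2 * N + 1) :=
        Nat.mul_le_mul_right _ (by omega)
      rw [nx] at hk'
      rw [Nat.add_mul (c + 1)] at this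
      omega
    subst e
    rw [nT_eq _ h2]
    by_cases e : l = 0
    · rw [e, row0']
      decide
    · obtain ⟨-, a1, -, a2, -⟩ := flags h (c := 5 * N) (by omega) h2 le_rfl
      rw [a1, a2]
      simp
  · obtain ⟨c, l, h1, h2, rfl⟩ := split_k (N := N) (Nat.lt_of_succ_lt hk)
    rw [nT_eq c h2]
    by_cases e : l = 2 * N
    · subst e
      have e1 : c * (2 * N + 1) + 2 * N + 1 = (c + 1) * (2 * N + 1) + 0 := by ring
      have e2 : c + 1 < 5 * N + 1 := by
        rw [e1] at hk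
        exact Nat.lt_of_mul_lt_mul_right hk
      rw [e1, nT_eq _ (by omega), (flags h (by omega) le_rfl (by omega)).2.2.2.2.2.2,
        (flags0 h (by omega)).2.2.2.1]
      simp
    · rw [Nat.add_assoc, nT_eq c (by omega),
        (flags h (l := l + 1) (by omega) (by omega) (by omega)).2.2.2.2.2.1]
      by_cases e0 : l = 0
      · subst e0
        exact (flags0 h (by omega)).2.2.2.2
      · exact (flags h (by omega) h2 (by omega)).2.2.2.2.2.2
  · have e := nT_eq (typ := typ) (src := src) (tgt := tgt) 0 (l := 0) (N := N) (by omega)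
    rw [Nat.zero_mul] at e
    rw [e, (flags0 h (by omega)).2.2.2.1]
    simp

structure Tok (N : ℕ) (typ src tgt : ℕ → ℕ) (e n w : ℕ → ℕ → Bool) : Prop where
  sem : ∀ c ≤ 5 * N, ∀ l ≤ 2 * N, ∃ u, (0 < c → u = e (c - 1) l) ∧
    semT (ty N typ src tgt c l) (e c l) (n c l) (w c l) u (w (c + 1) l) (n c (l + 1))
  wrap : ∀ c, n c (2 * N + 1) = n (c + 1) 0

variable {e n w : ℕ → ℕ → Bool}

theorem t_real (h : NetOK N typ src tgt) (t : Tok N typ src tgt e n w) {c l : ℕ} (h1 : 0 < l)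
    (h2 : l ≤ 2 * N) (hc : c ≤ 5 * N) (r : rin typ (2 * N - l)) :
    (c ≠ ocol (src (2 * N - l)) → c ≠ lcol (2 * N - l) → pvv N typ tgt c l →
      n c (l + 1) = n c l) ∧
    (lcol (2 * N - l) < c → c < 5 * N → e (c - 1) l = e c l) ∧ (c = 5 * N → e (c - 1) l = w c l) ∧
    (ocol (src (2 * N - l)) < c → c < 5 * N → w (c + 1) l = w c l) ∧
    (c = ocol (src (2 * N - l)) → w (c + 1) l = n c l) ∧
    (c = lcol (2 * N - l) → n c (l + 1) = e c l) := by
  obtain ⟨g1, g2, -, g3, -⟩ := geo h h1 h2 r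
  obtain ⟨u, u1, u2⟩ := t.sem c hc l h2
  rw [ty, if_neg (by omega), if_pos r] at u2
  obtain ⟨a1, a2, a3, a4, a5, a6⟩ := tyR_sem _ g1 g2 g3 hc u2
  exact ⟨fun x y z => a1 z.1.ne x y (decide_eq_true z), fun x y => u1 (by omega) ▸ a2 x y,
    fun x => u1 (by omega) ▸ a3 x, a4, a5, a6⟩

theorem t_vert (h : NetOK N typ src tgt) (t : Tok N typ src tgt e n w) {c l : ℕ} (h1 : 0 < l)
    (h2 : l ≤ 2 * N) (p1 : pvv N typ tgt c l) (p2 : pvv N typ tgt c (l + 1)) :
    n c (l + 1) = n c l := by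
  by_cases r : rin typ (2 * N - l)
  · obtain ⟨-, -, -, -, -, g5, g6, -⟩ := geo h h1 h2 r
    exact (t_real h t h1 h2 p1.1.le r).1 (fun z => g5 (z ▸ p2)) (fun z => g6 (z ▸ p1)) p1
  · obtain ⟨u, -, u2⟩ := t.sem c p1.1.le l h2
    rw [ty, if_neg (by omega), if_neg r, if_pos p1] at u2
    simpa [semT] using u2

theorem colO (h : NetOK N typ src tgt) (t : Tok N typ src tgt e n w) {o : ℕ} (ho : o < 3 * N)
    (r : rout typ o) {l : ℕ} (h1 : 1 ≤ l) (h2 : l + tgt o ≤ 2 * N) :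
    n (ocol o) l = n (ocol o) 1 := by
  induction l, h1 using Nat.le_induction with
  | base => rfl
  | succ l h1 ih =>
    rw [t_vert h t h1 (by omega) ((pv_out ho).2 ⟨r, by omega⟩) ((pv_out ho).2 ⟨r, h2⟩),
      ih (by omega)]

theorem rowL (h : NetOK N typ src tgt) (t : Tok N typ src tgt e n w) {l : ℕ} (h1 : 0 < l)
    (h2 : l ≤ 2 * N) (r : rin typ (2 * N - l)) {c : ℕ} (c1 : ocol (src (2 * N - l)) + 1 ≤ c)
    (c2 : c ≤ 5 * N) : w c l = n (ocol (src (2 * N - l))) 1 := by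
  induction c, c1 using Nat.le_induction with
  | base =>
    obtain ⟨a1, a2, a3⟩ := h.ins _ (by omega) r
    rw [(t_real h t h1 h2 (by omega) r).2.2.2.2.1 rfl, colO h t a1 a2 h1 (by omega)]
  | succ c c1 ih => rw [(t_real h t h1 h2 (by omega) r).2.2.2.1 c1 c2, ih (by omega)]

theorem rowU (h : NetOK N typ src tgt) (t : Tok N typ src tgt e n w) {l : ℕ} (h1 : 0 < l)
    (h2 : l ≤ 2 * N) (r : rin typ (2 * N - l)) {c : ℕ} (c1 : lcol (2 * N - l) ≤ c)
    (c2 : c < 5 * N) : e c l = n (ocol (src (2 * N - l))) 1 := by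
  obtain ⟨d, hd⟩ : ∃ d, c + d + 1 = 5 * N := ⟨5 * N - 1 - c, by omega⟩
  induction d generalizing c with
  | zero =>
    have := (t_real h t h1 h2 le_rfl r).2.2.1 rfl
    rw [show 5 * N - 1 = c by omega] at this
    rw [this, rowL h t h1 h2 r (geo h h1 h2 r).1 le_rfl]
  | succ d ih =>
    have := (t_real h t h1 h2 (c := c + 1) (by omega) r).2.1 (by omega) (by omega)
    rw [Nat.add_sub_cancel] at this
    rw [this, ih (by omega) (by omega) (by omega)]

theorem colI (h : NetOK N typ src tgt) (t : Tok N typ src tgt e n w) {i : ℕ} (hi : i < 2 * N)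
    (r : rin typ i) {l : ℕ} (h1 : 2 * N - i + 1 ≤ l) (h2 : l ≤ 2 * N + 1) :
    n (lcol i) l = n (ocol (src i)) 1 := by
  induction l, h1 using Nat.le_induction with
  | base =>
    have e' : 2 * N - (2 * N - i) = i := by omega
    have r' : rin typ (2 * N - (2 * N - i)) := by rwa [e']
    have a1 := (geo h (l := 2 * N - i) (by omega) (by omega) r').2.1
    have a2 := (t_real h t (l := 2 * N - i) (by omega) (by omega) a1.le r').2.2.2.2.2 rfl
    have a3 := rowU h t (l := 2 * N - i) (by omega) (by omega) r' le_rfl a1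
    rw [e'] at a2 a3
    rw [a2, a3]
  | succ l h1 ih =>
    rw [t_vert h t (by omega) (by omega) ((pv_in hi).2 ⟨r, by omega⟩) ((pv_in hi).2 ⟨r, by omega⟩),
      ih (by omega)]

theorem gate (h : NetOK N typ src tgt) (t : Tok N typ src tgt e n w) {a : ℕ} (ha : a < N) :
    (typ a ≠ 0 → n (5 * a + 2) 0 = n (ocol (src (2 * a))) 1) ∧
    (typ a = 1 ∨ typ a = 2 → n (5 * a + 4) 0 = n (ocol (src (2 * a + 1))) 1 ∧
      e (5 * a + 3) 0 = n (5 * a + 4) 0 ∧ e (5 * a + 2) 0 = n (5 * a + 4) 0) ∧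
    (typ a = 2 → e (5 * a) 0 = n (5 * a) 1 ∧ e (5 * a + 1) 0 = n (5 * a) 1 ∧
      w (5 * a + 4) 0 = n (5 * a + 4) 1 ∧ w (5 * a + 3) 0 = n (5 * a + 4) 1) ∧
    NodeRel typ src (fun o => n (ocol o) 1) a := by
  obtain ⟨u0, -, s0⟩ := t.sem (5 * a + 0) (by omega) 0 (by omega)
  obtain ⟨u1, e1, s1⟩ := t.sem (5 * a + 1) (by omega) 0 (by omega)
  obtain ⟨u2, e2, s2⟩ := t.sem (5 * a + 2) (by omega) 0 (by omega)
  obtain ⟨u3, e3, s3⟩ := t.sem (5 * a + 3) (by omega) 0 (by omega)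
  obtain ⟨u4, e4, s4⟩ := t.sem (5 * a + 4) (by omega) 0 (by omega)
  rw [row0 a (by omega) ha] at s0 s1 s2 s3 s4
  obtain rfl : u1 = e (5 * a) 0 := e1 (by omega)
  obtain rfl : u2 = e (5 * a + 1) 0 := e2 (by omega)
  obtain rfl : u3 = e (5 * a + 2) 0 := e3 (by omega)
  obtain rfl : u4 = e (5 * a + 3) 0 := e4 (by omega)
  have x1 : typ a ≠ 0 → n (5 * a + 2) 0 = n (ocol (src (2 * a))) 1 := fun z => by
    have := colI h t (i := 2 * a) (by omega)
      (Or.inl ⟨by omega, by rwa [show 2 * a / 2 = a by omega]⟩) (l := 2 * N + 1) (by omega) le_rfl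
    rwa [t.wrap, show lcol (2 * a) + 1 = 5 * a + 2 by unfold lcol; omega] at this
  have x2 : typ a = 1 ∨ typ a = 2 → n (5 * a + 4) 0 = n (ocol (src (2 * a + 1))) 1 := fun z => by
    have := colI h t (i := 2 * a + 1) (by omega)
      (Or.inr (by rwa [show (2 * a + 1) / 2 = a by omega])) (l := 2 * N + 1) (by omega) le_rfl
    rwa [t.wrap, show lcol (2 * a + 1) + 1 = 5 * a + 4 by unfold lcol; omega] at this
  have o0 : ocol (3 * a) = 5 * a := by unfold ocol; omega
  have o1 : ocol (3 * a + 1) = 5 * a + 2 := by unfold ocol; omega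
  have o2 : ocol (3 * a + 2) = 5 * a + 4 := by unfold ocol; omega
  unfold NodeRel
  simp only [o0, o1, o2]
  have := h.le a ha
  rcases (by omega : typ a = 0 ∨ typ a = 1 ∨ typ a = 2 ∨ typ a = 3) with z | z | z | z
  · simp [z]
  · rw [← x1 (by omega), ← x2 (by omega)]
    simp only [z, ty0, semT] at s2 s3 s4
    simp at s2 s3 s4
    simp [z, s3, s4] at s2 ⊢
    exact s2
  · rw [← x1 (by omega), ← x2 (by omega)]
    simp only [z, ty0, semT] at s0 s1 s2 s3 s4
    simp at s0 s1 s2 s3 s4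
    simp [z, s0, s1, s3, s4] at s2 ⊢
    simpa [s3, s4] using s2
  · rw [← x1 (by omega)]
    simp only [z, ty0, semT] at s2
    simp at s2
    simp [z, s2]

theorem tok_zero (h : NetOK N typ src tgt) (t : Tok N typ src tgt e n w)
    (hz : ∀ o < 3 * N, rout typ o → n (ocol o) 1 = false) {c l : ℕ} (hc : c ≤ 5 * N)
    (hl : l ≤ 2 * N) : (fue (ty N typ src tgt c l) → e c l = false) ∧
      (fvin (ty N typ src tgt c l) → n c l = false) ∧
      (flw (ty N typ src tgt c l) → w c l = false) := by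
  have hi : ∀ i < 2 * N, rin typ i → n (ocol (src i)) 1 = false := fun i a r =>
    hz _ (h.ins i a r).1 (h.ins i a r).2.1
  by_cases e0 : l = 0
  · subst e0
    by_cases e5 : c = 5 * N
    · rw [e5, row0']
      exact ⟨fun z => absurd z (by decide), fun z => absurd z (by decide),
        fun z => absurd z (by decide)⟩
    · obtain ⟨a, r, hr, rfl⟩ : ∃ a r, r < 5 ∧ c = 5 * a + r := ⟨c / 5, c % 5, by omega, by omega⟩
      have ha : a < N := by omega
      obtain ⟨g1, g2, g3, -⟩ := gate h t ha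
      have y1 : typ a ≠ 0 → n (ocol (src (2 * a))) 1 = false := fun z =>
        hi _ (by omega) (Or.inl ⟨by omega, by rwa [show 2 * a / 2 = a by omega]⟩)
      have y2 : typ a = 1 ∨ typ a = 2 → n (ocol (src (2 * a + 1))) 1 = false := fun z =>
        hi _ (by omega) (Or.inr (by rwa [show (2 * a + 1) / 2 = a by omega]))
      have y3 : typ a = 2 → n (5 * a) 1 = false := fun z => by
        have := hz (3 * a) (by omega) (Or.inr (by rwa [show 3 * a / 3 = a by omega]))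
        rwa [show ocol (3 * a) = 5 * a by unfold ocol; omega] at this
      have y4 : typ a = 2 → n (5 * a + 4) 1 = false := fun z => by
        have := hz (3 * a + 2) (by omega) (Or.inr (by rwa [show (3 * a + 2) / 3 = a by omega]))
        rwa [show ocol (3 * a + 2) = 5 * a + 4 by unfold ocol; omega] at this
      rw [row0 a hr ha]
      have := h.le a ha
      rcases (by omega : typ a = 0 ∨ typ a = 1 ∨ typ a = 2 ∨ typ a = 3) with z | z | z | z <;>
        interval_cases r <;> simp_all [ty0, fue, fvin, flw]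
  · have h1 : 0 < l := by omega
    obtain ⟨-, a1, -, -, a2, a3, -⟩ := flags h h1 hl hc
    rw [a1, a2, a3]
    refine ⟨fun ⟨r, x, y⟩ => ?_, fun p => ?_, fun ⟨r, x⟩ => ?_⟩
    · rw [rowU h t h1 hl r x y, hi _ (by omega) r]
    · rcases col_cases p.1 with ⟨o, ho, rfl⟩ | ⟨i, hi', rfl⟩
      · rw [pv_out ho] at p
        rw [colO h t ho p.1 h1 p.2, hz o ho p.1]
      · rw [pv_in hi'] at p
        rw [colI h t hi' p.1 (by omega) (by omega), hi i hi' p.1]
    · rw [rowL h t h1 hl r x hc, hi _ (by omega) r]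

/-- the vertex whose chord carries output `o` -/
def outV (N : ℕ) (typ src tgt : ℕ → ℕ) (o : ℕ) : ℕ :=
  24 * (ocol o * (2 * N + 1) + 1) + pN (nT N typ src tgt (ocol o * (2 * N + 1) + 1))

def netB (N : ℕ) (typ src tgt : ℕ → ℕ) : Board :=
  grid ((5 * N + 1) * (2 * N + 1)) (2 * N + 1) (nT N typ src tgt)

theorem net_sem (h : NetOK N typ src tgt) {tok : ℕ → Bool} (s : (netB N typ src tgt).Sem tok) :
    (∀ a < N, NodeRel typ src (fun o => tok (outV N typ src tgt o)) a) ∧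
    ((∀ o < 3 * N, rout typ o → tok (outV N typ src tgt o) = false) →
      ∀ v < (netB N typ src tgt).n, (netB N typ src tgt).kd v = 1 ∨ (netB N typ src tgt).kd v = 2 →
        tok v = false) := by
  obtain ⟨g1, g2⟩ := grid_tok (net_grid h) s
  have t : Tok N typ src tgt (fun c l => tok (24 * (c * (2 * N + 1) + l) + 2))
      (fun c l => tok (24 * (c * (2 * N + 1) + l) + pN (nT N typ src tgt (c * (2 * N + 1) + l))))
      (fun c l => tok (24 * (c * (2 * N + 1) + l) + 13)) := by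
    refine ⟨fun c hc l hl => ⟨tok (24 * (c * (2 * N + 1) + l - (2 * N + 1)) + 2), fun c0 => ?_, ?_⟩,
      fun c => ?_⟩
    · obtain ⟨c, rfl⟩ : ∃ d, c = d + 1 := ⟨c - 1, by omega⟩
      rw [Nat.add_sub_cancel, Nat.add_mul c]
      congr 3
      omega
    · have := g1 (c * (2 * N + 1) + l) (by
        have : c * (2 * N + 1) ≤ 5 * N * (2 * N + 1) := Nat.mul_le_mul_right _ hc
        rw [Nat.add_mul (5 * N)]
        omega)
      rw [show c * (2 * N + 1) + l + (2 * N + 1) = (c + 1) * (2 * N + 1) + l by ring] at this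
      rw [← nT_eq c hl]
      exact this
    · rw [show c * (2 * N + 1) + (2 * N + 1) = (c + 1) * (2 * N + 1) + 0 by ring]
  refine ⟨fun a ha => (gate h t ha).2.2.2, fun hz => g2 fun k hk => ?_⟩
  obtain ⟨c, l, h1, h2, rfl⟩ := split_k hk
  have := tok_zero h t hz (c := c) (by omega) h2
  rw [← nT_eq c h2] at this
  exact this

end Pool.Agent.Lib.MP_33ce69_lc.Odd
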