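import Pool.Agent.Lib.MP_33ce69_lc.Odd.Kink

/-!
The 23 tiles (24 vertices each). Chord codes: below 24 a vertex of the tile, 24 / 25 east upper /
lower, 26 / 27 west upper / lower, 28 north, 29 south. Face codes: below 24 the owner inside the
tile, 24, 25, 26 the east faces, 27, 28, 29 the west faces, 30 the face below the south chord.
-/

namespace Pool.Agent.Lib.MP_33ce69_lc.Odd

open Board

set_option synthInstance.maxSize 4000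

def tK : List (List ℕ) := [
  [0, 0, 0, 0, 0, 0, 0, 0, 0, 0, 0, 0, 0, 0, 0, 0, 0, 0, 0, 0, 0, 0, 0, 0],
  [0, 0, 0, 0, 0, 0, 0, 0, 0, 0, 0, 0, 0, 1, 4, 0, 0, 0, 0, 0, 0, 3, 2, 0],
  [0, 0, 0, 0, 0, 0, 0, 0, 0, 0, 0, 0, 0, 1, 4, 0, 0, 0, 0, 0, 0, 0, 0, 0],
  [0, 0, 1, 4, 0, 0, 0, 0, 0, 0, 3, 2, 0, 0, 0, 0, 0, 0, 0, 0, 0, 0, 0, 0],
  [0, 0, 1, 4, 0, 0, 0, 0, 0, 0, 3, 2, 0, 1, 4, 0, 0, 0, 0, 0, 0, 3, 2, 0],
  [0, 0, 1, 4, 0, 0, 0, 0, 0, 0, 3, 2, 0, 1, 4, 0, 0, 0, 0, 0, 0, 0, 0, 0],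
  [0, 0, 0, 0, 0, 0, 3, 2, 0, 0, 0, 0, 0, 0, 0, 3, 2, 0, 0, 0, 0, 0, 0, 0],
  [0, 0, 0, 0, 0, 0, 3, 2, 0, 0, 0, 0, 0, 1, 5, 6, 6, 7, 2, 0, 0, 3, 2, 0],
  [0, 0, 0, 0, 0, 0, 3, 2, 0, 0, 0, 0, 0, 0, 0, 3, 2, 0, 0, 0, 0, 3, 2, 0],
  [0, 0, 1, 5, 6, 6, 7, 2, 0, 0, 3, 2, 0, 0, 0, 3, 2, 0, 0, 0, 0, 0, 0, 0],
  [0, 0, 1, 5, 6, 6, 7, 2, 0, 0, 3, 2, 0, 1, 5, 6, 6, 7, 2, 0, 0, 3, 2, 0],
  [0, 0, 1, 5, 6, 6, 7, 2, 0, 0, 3, 2, 0, 0, 0, 3, 2, 0, 0, 0, 0, 3, 2, 0],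
  [0, 0, 1, 4, 0, 0, 0, 0, 0, 0, 0, 0, 0, 0, 0, 3, 2, 0, 0, 0, 0, 0, 0, 0],
  [0, 0, 1, 4, 0, 0, 0, 0, 0, 0, 0, 0, 0, 1, 5, 6, 6, 7, 2, 0, 0, 3, 2, 0],
  [0, 0, 1, 4, 0, 0, 0, 0, 0, 0, 0, 0, 0, 0, 0, 3, 2, 0, 0, 0, 0, 3, 2, 0],
  [0, 0, 0, 0, 0, 0, 3, 2, 0, 0, 3, 2, 0, 0, 0, 0, 0, 0, 0, 0, 0, 0, 0, 0],
  [0, 0, 0, 0, 0, 0, 3, 2, 0, 0, 3, 2, 0, 1, 4, 0, 0, 0, 0, 0, 0, 3, 2, 0],
  [0, 0, 0, 0, 0, 0, 3, 2, 0, 0, 3, 2, 0, 1, 4, 0, 0, 0, 0, 0, 0, 0, 0, 0],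
  [0, 0, 1, 5, 6, 7, 2, 0, 0, 0, 0, 0, 0, 0, 0, 3, 2, 0, 0, 0, 0, 0, 0, 0],
  [0, 0, 1, 5, 6, 7, 2, 0, 0, 0, 0, 0, 0, 1, 5, 6, 6, 7, 2, 0, 0, 3, 2, 0],
  [0, 0, 1, 5, 6, 7, 2, 0, 0, 0, 0, 0, 0, 0, 0, 3, 2, 0, 0, 0, 0, 3, 2, 0],
  [0, 0, 1, 5, 6, 6, 6, 7, 2, 0, 3, 2, 0, 0, 0, 3, 2, 0, 3, 2, 0, 3, 2, 0],
  [0, 0, 0, 0, 0, 0, 0, 0, 0, 1, 4, 0, 0, 1, 4, 0, 0, 0, 0, 0, 0, 0, 0, 0]]

def tS : List (List ℕ) := [
  [0, 0, 1, 0, 0, 0, 0, 0, 0, 0, 0, 0, 0, 0, 0, 0, 0, 0, 0, 0, 0, 1, 0, 0],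
  [0, 0, 1, 0, 0, 0, 0, 0, 0, 0, 0, 0, 0, 0, 0, 0, 0, 0, 0, 0, 0, 1, 0, 0],
  [0, 0, 1, 0, 0, 0, 0, 0, 0, 0, 0, 0, 0, 0, 0, 0, 0, 0, 0, 0, 0, 1, 0, 0],
  [0, 0, 1, 1, 0, 0, 0, 0, 0, 0, 0, 1, 0, 0, 0, 0, 0, 0, 0, 0, 0, 1, 0, 0],
  [0, 0, 1, 1, 0, 0, 0, 0, 0, 0, 0, 1, 0, 0, 0, 0, 0, 0, 0, 0, 0, 1, 0, 0],
  [0, 0, 1, 1, 0, 0, 0, 0, 0, 0, 0, 1, 0, 0, 0, 0, 0, 0, 0, 0, 0, 1, 0, 0],
  [0, 0, 1, 0, 0, 0, 1, 0, 0, 0, 0, 0, 0, 0, 0, 0, 1, 0, 0, 0, 0, 1, 0, 0],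
  [0, 0, 1, 0, 0, 0, 1, 0, 0, 0, 0, 0, 0, 0, 1, 0, 0, 1, 1, 0, 0, 1, 0, 0],
  [0, 0, 1, 0, 0, 0, 1, 0, 0, 0, 0, 0, 0, 0, 0, 0, 1, 0, 0, 0, 0, 1, 0, 0],
  [0, 0, 1, 0, 1, 1, 0, 0, 0, 0, 0, 1, 0, 0, 0, 0, 1, 0, 0, 0, 0, 1, 0, 0],
  [0, 0, 1, 0, 1, 1, 0, 0, 0, 0, 0, 1, 0, 0, 1, 0, 0, 1, 1, 0, 0, 1, 0, 0],
  [0, 0, 1, 0, 1, 1, 0, 0, 0, 0, 0, 1, 0, 0, 0, 0, 1, 0, 0, 0, 0, 1, 0, 0],
  [0, 0, 1, 1, 0, 0, 0, 0, 0, 0, 0, 0, 0, 0, 0, 0, 1, 0, 0, 0, 0, 1, 0, 0],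
  [0, 0, 1, 1, 0, 0, 0, 0, 0, 0, 0, 0, 0, 0, 1, 0, 0, 1, 1, 0, 0, 1, 0, 0],
  [0, 0, 1, 1, 0, 0, 0, 0, 0, 0, 0, 0, 0, 0, 0, 0, 1, 0, 0, 0, 0, 1, 0, 0],
  [0, 0, 1, 0, 0, 0, 1, 0, 0, 0, 0, 1, 0, 0, 0, 0, 0, 0, 0, 0, 0, 1, 0, 0],
  [0, 0, 1, 0, 0, 0, 1, 0, 0, 0, 0, 1, 0, 0, 0, 0, 0, 0, 0, 0, 0, 1, 0, 0],
  [0, 0, 1, 0, 0, 0, 1, 0, 0, 0, 0, 1, 0, 0, 0, 0, 0, 0, 0, 0, 0, 1, 0, 0],
  [0, 0, 1, 0, 1, 0, 0, 0, 0, 0, 0, 0, 0, 0, 0, 0, 1, 0, 0, 0, 0, 1, 0, 0],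
  [0, 0, 1, 0, 1, 0, 0, 0, 0, 0, 0, 0, 0, 0, 1, 0, 0, 1, 1, 0, 0, 1, 0, 0],
  [0, 0, 1, 0, 1, 0, 0, 0, 0, 0, 0, 0, 0, 0, 0, 0, 1, 0, 0, 0, 0, 1, 0, 0],
  [0, 0, 1, 0, 1, 1, 1, 0, 0, 0, 0, 1, 0, 0, 0, 0, 1, 0, 0, 1, 0, 1, 0, 0],
  [0, 0, 1, 0, 0, 0, 0, 0, 0, 1, 0, 0, 0, 0, 1, 0, 0, 0, 0, 0, 0, 1, 0, 0]]

def tC : List (List ℕ) := [
  [31, 31, 31, 31, 31, 31, 31, 31, 31, 31, 31, 31, 31, 31, 31, 31, 31, 31, 31, 31, 31, 31, 31, 31],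
  [31, 31, 31, 31, 31, 31, 31, 31, 31, 31, 31, 31, 31, 27, 22, 31, 31, 31, 31, 31, 31, 25, 14, 31],
  [31, 31, 31, 31, 31, 31, 31, 31, 31, 31, 31, 31, 31, 27, 29, 31, 31, 31, 31, 31, 31, 31, 31, 31],
  [31, 31, 24, 11, 31, 31, 31, 31, 31, 31, 26, 3, 31, 31, 31, 31, 31, 31, 31, 31, 31, 31, 31, 31],
  [31, 31, 24, 11, 31, 31, 31, 31, 31, 31, 26, 3, 31, 27, 22, 31, 31, 31, 31, 31, 31, 25, 14, 31],
  [31, 31, 24, 11, 31, 31, 31, 31, 31, 31, 26, 3, 31, 27, 29, 31, 31, 31, 31, 31, 31, 31, 31, 31],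
  [31, 31, 31, 31, 31, 31, 16, 28, 31, 31, 31, 31, 31, 31, 31, 29, 6, 31, 31, 31, 31, 31, 31, 31],
  [31, 31, 31, 31, 31, 31, 18, 28, 31, 31, 31, 31, 31, 27, 17, 29, 22, 14, 6, 31, 31, 25, 16, 31],
  [31, 31, 31, 31, 31, 31, 16, 28, 31, 31, 31, 31, 31, 31, 31, 22, 6, 31, 31, 31, 31, 25, 15, 31],
  [31, 31, 24, 6, 16, 11, 3, 28, 31, 31, 26, 5, 31, 31, 31, 29, 4, 31, 31, 31, 31, 31, 31, 31],
  [31, 31, 24, 6, 18, 11, 3, 28, 31, 31, 26, 5, 31, 27, 17, 29, 22, 14, 4, 31, 31, 25, 16, 31],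
  [31, 31, 24, 6, 16, 11, 3, 28, 31, 31, 26, 5, 31, 31, 31, 22, 4, 31, 31, 31, 31, 25, 15, 31],
  [31, 31, 24, 16, 31, 31, 31, 31, 31, 31, 31, 31, 31, 31, 31, 29, 3, 31, 31, 31, 31, 31, 31, 31],
  [31, 31, 24, 18, 31, 31, 31, 31, 31, 31, 31, 31, 31, 27, 17, 29, 22, 14, 3, 31, 31, 25, 16, 31],
  [31, 31, 24, 16, 31, 31, 31, 31, 31, 31, 31, 31, 31, 31, 31, 22, 3, 31, 31, 31, 31, 25, 15, 31],
  [31, 31, 31, 31, 31, 31, 11, 28, 31, 31, 26, 6, 31, 31, 31, 31, 31, 31, 31, 31, 31, 31, 31, 31],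
  [31, 31, 31, 31, 31, 31, 11, 28, 31, 31, 26, 6, 31, 27, 22, 31, 31, 31, 31, 31, 31, 25, 14, 31],
  [31, 31, 31, 31, 31, 31, 11, 28, 31, 31, 26, 6, 31, 27, 29, 31, 31, 31, 31, 31, 31, 31, 31, 31],
  [31, 31, 24, 5, 16, 3, 28, 31, 31, 31, 31, 31, 31, 31, 31, 29, 4, 31, 31, 31, 31, 31, 31, 31],
  [31, 31, 24, 5, 18, 3, 28, 31, 31, 31, 31, 31, 31, 27, 17, 29, 22, 14, 4, 31, 31, 25, 16, 31],
  [31, 31, 24, 5, 16, 3, 28, 31, 31, 31, 31, 31, 31, 31, 31, 22, 4, 31, 31, 31, 31, 25, 15, 31],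
  [31, 31, 24, 7, 19, 16, 11, 3, 28, 31, 26, 6, 31, 31, 31, 29, 5, 31, 22, 4, 31, 25, 18, 31],
  [31, 31, 31, 31, 31, 31, 31, 31, 31, 14, 26, 31, 31, 27, 9, 31, 31, 31, 31, 31, 31, 31, 31, 31]]

def tL : List (List ℕ) := [
  [24, 24, 24, 25, 25, 25, 25, 25, 25, 25, 25, 25, 25, 25, 25, 25, 25, 25, 25, 25, 25, 25, 26, 26, 26],
  [24, 24, 24, 25, 25, 25, 25, 25, 25, 25, 25, 25, 25, 25, 25, 25, 25, 25, 25, 25, 25, 25, 26, 26, 26],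
  [24, 24, 24, 25, 25, 25, 25, 25, 25, 25, 25, 25, 25, 25, 25, 25, 25, 25, 25, 25, 25, 25, 26, 26, 26],
  [24, 24, 24, 25, 11, 11, 11, 11, 11, 11, 11, 11, 25, 25, 25, 25, 25, 25, 25, 25, 25, 25, 26, 26, 26],
  [24, 24, 24, 25, 11, 11, 11, 11, 11, 11, 11, 11, 25, 25, 25, 25, 25, 25, 25, 25, 25, 25, 26, 26, 26],
  [24, 24, 24, 25, 11, 11, 11, 11, 11, 11, 11, 11, 25, 25, 25, 25, 25, 25, 25, 25, 25, 25, 26, 26, 26],
  [24, 24, 24, 25, 25, 25, 25, 16, 16, 16, 16, 16, 16, 16, 16, 16, 16, 25, 25, 25, 25, 25, 26, 26, 26],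
  [24, 24, 24, 25, 25, 25, 25, 18, 18, 18, 18, 18, 18, 18, 18, 14, 14, 14, 18, 25, 25, 25, 26, 26, 26],
  [24, 24, 24, 25, 25, 25, 25, 16, 16, 16, 16, 16, 16, 16, 16, 16, 16, 25, 25, 25, 25, 25, 26, 26, 26],
  [24, 24, 24, 25, 25, 16, 11, 11, 11, 11, 11, 11, 16, 16, 16, 16, 16, 25, 25, 25, 25, 25, 26, 26, 26],
  [24, 24, 24, 25, 25, 18, 11, 11, 11, 11, 11, 11, 18, 18, 18, 14, 14, 14, 18, 25, 25, 25, 26, 26, 26],
  [24, 24, 24, 25, 25, 16, 11, 11, 11, 11, 11, 11, 16, 16, 16, 16, 16, 25, 25, 25, 25, 25, 26, 26, 26],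
  [24, 24, 24, 25, 16, 16, 16, 16, 16, 16, 16, 16, 16, 16, 16, 16, 16, 25, 25, 25, 25, 25, 26, 26, 26],
  [24, 24, 24, 25, 18, 18, 18, 18, 18, 18, 18, 18, 18, 18, 18, 14, 14, 14, 18, 25, 25, 25, 26, 26, 26],
  [24, 24, 24, 25, 16, 16, 16, 16, 16, 16, 16, 16, 16, 16, 16, 16, 16, 25, 25, 25, 25, 25, 26, 26, 26],
  [24, 24, 24, 25, 25, 25, 25, 11, 11, 11, 11, 11, 25, 25, 25, 25, 25, 25, 25, 25, 25, 25, 26, 26, 26],
  [24, 24, 24, 25, 25, 25, 25, 11, 11, 11, 11, 11, 25, 25, 25, 25, 25, 25, 25, 25, 25, 25, 26, 26, 26],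
  [24, 24, 24, 25, 25, 25, 25, 11, 11, 11, 11, 11, 25, 25, 25, 25, 25, 25, 25, 25, 25, 25, 26, 26, 26],
  [24, 24, 24, 25, 25, 16, 16, 16, 16, 16, 16, 16, 16, 16, 16, 16, 16, 25, 25, 25, 25, 25, 26, 26, 26],
  [24, 24, 24, 25, 25, 18, 18, 18, 18, 18, 18, 18, 18, 18, 18, 14, 14, 14, 18, 25, 25, 25, 26, 26, 26],
  [24, 24, 24, 25, 25, 16, 16, 16, 16, 16, 16, 16, 16, 16, 16, 16, 16, 25, 25, 25, 25, 25, 26, 26, 26],
  [24, 24, 24, 25, 25, 19, 16, 11, 11, 11, 11, 11, 16, 16, 16, 16, 16, 19, 19, 19, 25, 25, 26, 26, 26],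
  [24, 24, 24, 25, 25, 25, 25, 25, 25, 25, 9, 9, 9, 9, 9, 25, 25, 25, 25, 25, 25, 25, 26, 26, 26]]

def tR : List (List ℕ) := [
  [7, 7, 7, 7, 7, 7, 7, 7, 27, 27, 27, 28, 28, 28, 29, 29, 30, 30, 30, 30, 30, 30, 30, 30, 30],
  [7, 7, 7, 7, 7, 7, 7, 7, 27, 27, 27, 28, 28, 28, 29, 22, 22, 22, 22, 22, 22, 22, 22, 29, 30],
  [7, 7, 7, 7, 7, 7, 7, 7, 27, 27, 27, 28, 28, 28, 29, 30, 30, 30, 30, 30, 30, 30, 30, 30, 30],
  [7, 7, 7, 7, 7, 7, 7, 7, 27, 27, 27, 28, 28, 28, 29, 29, 30, 30, 30, 30, 30, 30, 30, 30, 30],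
  [7, 7, 7, 7, 7, 7, 7, 7, 27, 27, 27, 28, 28, 28, 29, 22, 22, 22, 22, 22, 22, 22, 22, 29, 30],
  [7, 7, 7, 7, 7, 7, 7, 7, 27, 27, 27, 28, 28, 28, 29, 30, 30, 30, 30, 30, 30, 30, 30, 30, 30],
  [7, 7, 7, 7, 7, 7, 7, 7, 27, 27, 27, 28, 28, 28, 29, 29, 30, 30, 30, 30, 30, 30, 30, 30, 30],
  [7, 7, 7, 7, 7, 7, 7, 7, 27, 27, 27, 28, 28, 28, 29, 29, 30, 22, 22, 22, 22, 22, 22, 30, 30],
  [7, 7, 7, 7, 7, 7, 7, 7, 27, 27, 27, 28, 28, 28, 29, 29, 22, 22, 22, 22, 22, 22, 22, 29, 30],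
  [7, 7, 7, 7, 3, 3, 3, 7, 27, 27, 27, 28, 28, 28, 29, 29, 30, 30, 30, 30, 30, 30, 30, 30, 30],
  [7, 7, 7, 7, 3, 3, 3, 7, 27, 27, 27, 28, 28, 28, 29, 29, 30, 22, 22, 22, 22, 22, 22, 30, 30],
  [7, 7, 7, 7, 3, 3, 3, 7, 27, 27, 27, 28, 28, 28, 29, 29, 22, 22, 22, 22, 22, 22, 22, 29, 30],
  [7, 7, 7, 7, 7, 7, 7, 7, 27, 27, 27, 28, 28, 28, 29, 29, 30, 30, 30, 30, 30, 30, 30, 30, 30],
  [7, 7, 7, 7, 7, 7, 7, 7, 27, 27, 27, 28, 28, 28, 29, 29, 30, 22, 22, 22, 22, 22, 22, 30, 30],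
  [7, 7, 7, 7, 7, 7, 7, 7, 27, 27, 27, 28, 28, 28, 29, 29, 22, 22, 22, 22, 22, 22, 22, 29, 30],
  [7, 7, 7, 7, 7, 7, 7, 7, 27, 27, 27, 28, 28, 28, 29, 29, 30, 30, 30, 30, 30, 30, 30, 30, 30],
  [7, 7, 7, 7, 7, 7, 7, 7, 27, 27, 27, 28, 28, 28, 29, 22, 22, 22, 22, 22, 22, 22, 22, 29, 30],
  [7, 7, 7, 7, 7, 7, 7, 7, 27, 27, 27, 28, 28, 28, 29, 30, 30, 30, 30, 30, 30, 30, 30, 30, 30],
  [6, 6, 6, 6, 3, 3, 6, 27, 27, 27, 27, 28, 28, 28, 29, 29, 30, 30, 30, 30, 30, 30, 30, 30, 30],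
  [6, 6, 6, 6, 3, 3, 6, 27, 27, 27, 27, 28, 28, 28, 29, 29, 30, 22, 22, 22, 22, 22, 22, 30, 30],
  [6, 6, 6, 6, 3, 3, 6, 27, 27, 27, 27, 28, 28, 28, 29, 29, 22, 22, 22, 22, 22, 22, 22, 29, 30],
  [8, 8, 8, 8, 3, 3, 3, 3, 8, 27, 27, 28, 28, 28, 29, 29, 30, 30, 30, 22, 22, 22, 22, 30, 30],
  [7, 7, 7, 7, 7, 7, 7, 7, 27, 27, 27, 28, 28, 28, 29, 29, 30, 30, 30, 30, 30, 30, 30, 30, 30]]

def tT : List (List ℕ) := [
  [],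
  [13, 22],
  [13],
  [2, 11],
  [2, 11, 13, 22],
  [2, 11, 13],
  [7, 16],
  [7, 13, 18, 22],
  [7, 16, 22],
  [2, 7, 11, 16],
  [2, 7, 11, 13, 18, 22],
  [2, 7, 11, 16, 22],
  [2, 16],
  [2, 13, 18, 22],
  [2, 16, 22],
  [7, 11],
  [7, 11, 13, 22],
  [7, 11, 13],
  [2, 6, 16],
  [2, 6, 13, 18, 22],
  [2, 6, 16, 22],
  [2, 8, 11, 16, 19, 22],
  [9, 13]]

def pN (t : ℕ) : ℕ := [7, 7, 7, 7, 7, 7, 7, 7, 7, 7, 7, 7, 7, 7, 7, 7, 7, 7, 6, 6, 6, 8, 7].getD t 0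
def pS (t : ℕ) : ℕ := [15, 23, 14, 15, 23, 14, 15, 15, 23, 15, 15, 23, 15, 15, 23, 15, 23, 14, 15, 15, 23, 15, 15].getD t 0
def fue (t : ℕ) : Prop := t ∈ [3, 4, 5, 9, 10, 11, 12, 13, 14, 18, 19, 20, 21]
instance (t : ℕ) : Decidable (fue t) := by unfold fue; infer_instance
def fuw (t : ℕ) : Prop := t ∈ [3, 4, 5, 9, 10, 11, 15, 16, 17, 21, 22]
instance (t : ℕ) : Decidable (fuw t) := by unfold fuw; infer_instance
def flw (t : ℕ) : Prop := t ∈ [1, 2, 4, 5, 7, 10, 13, 16, 17, 19, 22]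
instance (t : ℕ) : Decidable (flw t) := by unfold flw; infer_instance
def fle (t : ℕ) : Prop := t ∈ [1, 4, 7, 8, 10, 11, 13, 14, 16, 19, 20, 21]
instance (t : ℕ) : Decidable (fle t) := by unfold fle; infer_instance
def fvin (t : ℕ) : Prop := t ∈ [6, 7, 8, 9, 10, 11, 15, 16, 17, 18, 19, 20, 21]
instance (t : ℕ) : Decidable (fvin t) := by unfold fvin; infer_instance
def fvout (t : ℕ) : Prop := t ∈ [2, 5, 6, 7, 9, 10, 12, 13, 17, 18, 19, 21]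
instance (t : ℕ) : Decidable (fvout t) := by unfold fvout; infer_instance

def look (T : List (List ℕ)) (t i : ℕ) : ℕ := (T.getD t []).getD i 0
def bD (t i : ℕ) : ℕ := if look tS t i = 1 then look tL t i else look tR t i
def aD (t i : ℕ) : ℕ := if look tS t i = 1 then look tL t (i + 1) else look tR t (i + 1)
def nD (t i : ℕ) : ℕ := if look tS t i = 1 then look tR t i else look tL t i
def nD' (t i : ℕ) : ℕ := if look tS t i = 1 then look tR t (i + 1) else look tL t (i + 1)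

theorem c_pair : ∀ t < 23, ∀ i < 23, okp (look tK t i) (look tK t (i + 1)) := by decide +kernel

theorem c_ends : ∀ t < 23, look tK t 0 = 0 ∧ look tK t 23 = 0 ∧ look tL t 0 = 24 ∧
    look tL t 24 = 26 ∧ look tR t 0 = pN t ∧ look tR t 24 = 30 ∧ 6 ≤ pN t ∧ pN t ≤ 8 ∧
    14 ≤ pS t ∧ pS t ≤ 23 := by decide +kernel

theorem c_flag : ∀ t < 23, (fue t ↔ look tK t 2 ≠ 0) ∧ (fuw t ↔ look tK t 10 ≠ 0) ∧
    (flw t ↔ look tK t 13 ≠ 0) ∧ (fle t ↔ look tK t 21 ≠ 0) ∧ (fvin t ↔ look tK t (pN t) ≠ 0) ∧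
    (fvout t ↔ look tK t (pS t) ≠ 0) := by decide +kernel

theorem c_slot : ∀ t < 23, (fue t → look tC t 2 = 24) ∧ (fuw t → look tC t 10 = 26) ∧
    (flw t → look tC t 13 = 27) ∧ (fle t → look tC t 21 = 25) ∧
    (fvin t → look tC t (pN t) = 28) ∧ (fvout t → look tC t (pS t) = 29) := by decide +kernel

theorem c_cont : ∀ t < 23, ∀ i < 24, nD t i = nD' t i := by decide +kernel

theorem c_port : ∀ t < 23, ∀ i < 24, look tK t i = 0 → bD t i = aD t i ∨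
    (i = 2 ∧ bD t i = 24 ∧ aD t i = 25) ∨ (i = 21 ∧ bD t i = 25 ∧ aD t i = 26) ∨
    (i = 10 ∧ bD t i = 27 ∧ aD t i = 28) ∨ (i = 13 ∧ bD t i = 28 ∧ aD t i = 29) ∨
    (i = pN t ∧ bD t i = pN t ∧ aD t i = 27) ∨ (i = pS t ∧ bD t i = 29 ∧ aD t i = 30) := by
  decide +kernel

theorem c_chord : ∀ t < 23, ∀ i < 24, look tK t i ≠ 0 →
    (look tC t i < 24 ∧ look tC t (look tC t i) = i ∧ look tC t i ≠ i + 1 ∧
      i ≠ look tC t i + 1 ∧ okc (look tK t i) (look tK t (look tC t i)) ∧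
      ((bD t i = bD t (look tC t i) ∧ aD t i = aD t (look tC t i)) ∨
        (bD t i = aD t (look tC t i) ∧ aD t i = bD t (look tC t i))) ∧
      (look tK t i = 1 ∨ look tK t i = 5 → aD t i = i) ∧ (look tK t i = 2 → bD t i = i) ∧
      (t = 22 → look tC t i ≤ 14)) ∨
    (look tC t i = 24 ∧ i = 2 ∧ look tK t i = 1 ∧ bD t i = 24 ∧ aD t i = 25) ∨
    (look tC t i = 25 ∧ i = 21 ∧ look tK t i = 3 ∧ bD t i = 25 ∧ aD t i = 26) ∨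
    (look tC t i = 26 ∧ i = 10 ∧ (look tK t i = 3 ∨ look tK t i = 4) ∧ bD t i = 27 ∧
      aD t i = 28) ∨
    (look tC t i = 27 ∧ i = 13 ∧ look tK t i = 1 ∧ bD t i = 28 ∧ aD t i = 29) ∨
    (look tC t i = 28 ∧ i = pN t ∧ look tK t i = 2 ∧ bD t i = pN t ∧ aD t i = 27) ∨
    (look tC t i = 29 ∧ i = pS t ∧ (look tK t i = 3 ∨ look tK t i = 4 ∨ look tK t i = 6) ∧
      bD t i = 29 ∧ aD t i = 30) := by decide +kernel

theorem c_poly : ∀ t < 23, ∀ i < 24, look tK t i = 5 → look tC t i < 23 ∧ 0 < i ∧ i + 3 < 24 ∧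
    i + 2 ≤ look tC t i ∧ look tC t i ≤ i + 4 ∧ look tS t (look tC t i) = look tS t i ∧
    ∀ w < 24, i < w → w < look tC t i → look tK t w = 6 ∧
      decide (look tS t w = 1) = !decide (look tS t i = 1) := by decide +kernel

theorem c_rel : ∀ t < 23, ∀ i < 24, (look tK t i = 3 → i < 23) ∧ (look tK t i = 4 → 0 < i) ∧
    (look tK t i = 1 ∨ look tK t i = 2 → i ∈ tT.getD t []) ∧ (t = 22 → 14 < i → look tK t i = 0) := by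
  decide +kernel

/-- the local rules of a tile for the tokens `x` (indexed by chord codes) -/
def Loc (t : ℕ) (x : ℕ → Bool) : Prop :=
  ∀ i < 24, (look tK t i = 3 → x (look tC t i) = x (i + 1)) ∧
    (look tK t i = 4 → x (look tC t i) = x (i - 1)) ∧
    (look tK t i = 5 → polyR (look tC t i - i) (x (i - 1)) (x (look tC t i + 1))
      (x (look tC t (i + 1))) (x (look tC t (i + 2))) (x (look tC t (i + 3))) = true)

/-- what a tile does: inputs east `e`, north `n`, west `w`, outputs west, east, south -/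
def semT (t : ℕ) (e n w wu el s : Bool) : Prop :=
  (t ∈ [3, 4, 9, 10, 11] → wu = e) ∧ (t ∈ [15, 17] → wu = n) ∧ (t = 22 → wu = w) ∧
  (t ∈ [1, 4, 7, 10, 13] → el = w) ∧ (t ∈ [8, 11] → el = n) ∧
  (t ∈ [6, 7, 9, 10] → s = n) ∧ (t ∈ [12, 13] → s = e) ∧ (t = 17 → s = w) ∧
  (t = 18 → polyR 2 e n s false false = true) ∧ (t = 21 → polyR 4 e n el s wu = true)

instance (t : ℕ) (e n w wu el s : Bool) : Decidable (semT t e n w wu el s) := by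
  unfold semT; infer_instance

def Zero (t : ℕ) (x : ℕ → Bool) : Prop :=
  (fue t → x 2 = false) → (fvin t → x (pN t) = false) → (flw t → x 13 = false) →
    ∀ i ∈ tT.getD t [], x i = false

theorem aux0 : ∀ x2 x7 x13 x25 x26 x29 : Bool,
    semT 0 x2 x7 x13 x26 x25 x29 ∧ ((fue 0 → x2 = false) → (fvin 0 → x7 = false) →
      (flw 0 → x13 = false) → True) := by
  decide +kernel

theorem sem0 (x : ℕ → Bool) (h : Loc 0 x) :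
    semT 0 (x 2) (x (pN 0)) (x 13) (x 26) (x 25) (x 29) ∧ Zero 0 x := by
  have := aux0 (x 2) (x 7) (x 13) (x 25) (x 26) (x 29)
  refine ⟨this.1, fun a b c => ?_⟩
  simpa [tT] using this.2 a b c

theorem aux1 : ∀ x2 x7 x13 x22 x25 x26 x29 : Bool,
    x22 = x13 →
    x25 = x22 →
    semT 1 x2 x7 x13 x26 x25 x29 ∧ ((fue 1 → x2 = false) → (fvin 1 → x7 = false) →
      (flw 1 → x13 = false) → x13 = false ∧ x22 = false ∧ True) := by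
  decide +kernel

theorem sem1 (x : ℕ → Bool) (h : Loc 1 x) :
    semT 1 (x 2) (x (pN 1)) (x 13) (x 26) (x 25) (x 29) ∧ Zero 1 x := by
  have := aux1 (x 2) (x 7) (x 13) (x 22) (x 25) (x 26) (x 29)
    ((h 14 (by decide)).2.1 rfl)
    ((h 21 (by decide)).1 rfl)
  refine ⟨this.1, fun a b c => ?_⟩
  simpa [tT] using this.2 a b c

theorem aux2 : ∀ x2 x7 x13 x25 x26 x29 : Bool,
    x29 = x13 →
    semT 2 x2 x7 x13 x26 x25 x29 ∧ ((fue 2 → x2 = false) → (fvin 2 → x7 = false) →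
      (flw 2 → x13 = false) → x13 = false ∧ True) := by
  decide +kernel

theorem sem2 (x : ℕ → Bool) (h : Loc 2 x) :
    semT 2 (x 2) (x (pN 2)) (x 13) (x 26) (x 25) (x 29) ∧ Zero 2 x := by
  have := aux2 (x 2) (x 7) (x 13) (x 25) (x 26) (x 29)
    ((h 14 (by decide)).2.1 rfl)
  refine ⟨this.1, fun a b c => ?_⟩
  simpa [tT] using this.2 a b c

theorem aux3 : ∀ x2 x7 x11 x13 x25 x26 x29 : Bool,
    x11 = x2 →
    x26 = x11 →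
    semT 3 x2 x7 x13 x26 x25 x29 ∧ ((fue 3 → x2 = false) → (fvin 3 → x7 = false) →
      (flw 3 → x13 = false) → x2 = false ∧ x11 = false ∧ True) := by
  decide +kernel

theorem sem3 (x : ℕ → Bool) (h : Loc 3 x) :
    semT 3 (x 2) (x (pN 3)) (x 13) (x 26) (x 25) (x 29) ∧ Zero 3 x := by
  have := aux3 (x 2) (x 7) (x 11) (x 13) (x 25) (x 26) (x 29)
    ((h 3 (by decide)).2.1 rfl)
    ((h 10 (by decide)).1 rfl)
  refine ⟨this.1, fun a b c => ?_⟩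
  simpa [tT] using this.2 a b c

theorem aux4 : ∀ x2 x7 x11 x13 x22 x25 x26 x29 : Bool,
    x11 = x2 →
    x26 = x11 →
    x22 = x13 →
    x25 = x22 →
    semT 4 x2 x7 x13 x26 x25 x29 ∧ ((fue 4 → x2 = false) → (fvin 4 → x7 = false) →
      (flw 4 → x13 = false) → x2 = false ∧ x11 = false ∧ x13 = false ∧ x22 = false ∧ True) := by
  decide +kernel

theorem sem4 (x : ℕ → Bool) (h : Loc 4 x) :
    semT 4 (x 2) (x (pN 4)) (x 13) (x 26) (x 25) (x 29) ∧ Zero 4 x := by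
  have := aux4 (x 2) (x 7) (x 11) (x 13) (x 22) (x 25) (x 26) (x 29)
    ((h 3 (by decide)).2.1 rfl)
    ((h 10 (by decide)).1 rfl)
    ((h 14 (by decide)).2.1 rfl)
    ((h 21 (by decide)).1 rfl)
  refine ⟨this.1, fun a b c => ?_⟩
  simpa [tT] using this.2 a b c

theorem aux5 : ∀ x2 x7 x11 x13 x25 x26 x29 : Bool,
    x11 = x2 →
    x26 = x11 →
    x29 = x13 →
    semT 5 x2 x7 x13 x26 x25 x29 ∧ ((fue 5 → x2 = false) → (fvin 5 → x7 = false) →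
      (flw 5 → x13 = false) → x2 = false ∧ x11 = false ∧ x13 = false ∧ True) := by
  decide +kernel

theorem sem5 (x : ℕ → Bool) (h : Loc 5 x) :
    semT 5 (x 2) (x (pN 5)) (x 13) (x 26) (x 25) (x 29) ∧ Zero 5 x := by
  have := aux5 (x 2) (x 7) (x 11) (x 13) (x 25) (x 26) (x 29)
    ((h 3 (by decide)).2.1 rfl)
    ((h 10 (by decide)).1 rfl)
    ((h 14 (by decide)).2.1 rfl)
  refine ⟨this.1, fun a b c => ?_⟩
  simpa [tT] using this.2 a b c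

theorem aux6 : ∀ x2 x7 x13 x16 x25 x26 x29 : Bool,
    x16 = x7 →
    x29 = x16 →
    semT 6 x2 x7 x13 x26 x25 x29 ∧ ((fue 6 → x2 = false) → (fvin 6 → x7 = false) →
      (flw 6 → x13 = false) → x7 = false ∧ x16 = false ∧ True) := by
  decide +kernel

theorem sem6 (x : ℕ → Bool) (h : Loc 6 x) :
    semT 6 (x 2) (x (pN 6)) (x 13) (x 26) (x 25) (x 29) ∧ Zero 6 x := by
  have := aux6 (x 2) (x 7) (x 13) (x 16) (x 25) (x 26) (x 29)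
    ((h 6 (by decide)).1 rfl)
    ((h 15 (by decide)).1 rfl)
  refine ⟨this.1, fun a b c => ?_⟩
  simpa [tT] using this.2 a b c

theorem aux7 : ∀ x2 x7 x13 x14 x18 x22 x25 x26 x29 : Bool,
    x18 = x7 →
    polyR 3 x13 x18 x29 x22 x14 = true →
    x25 = x22 →
    semT 7 x2 x7 x13 x26 x25 x29 ∧ ((fue 7 → x2 = false) → (fvin 7 → x7 = false) →
      (flw 7 → x13 = false) → x7 = false ∧ x13 = false ∧ x18 = false ∧ x22 = false ∧ True) := by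
  decide +kernel

theorem sem7 (x : ℕ → Bool) (h : Loc 7 x) :
    semT 7 (x 2) (x (pN 7)) (x 13) (x 26) (x 25) (x 29) ∧ Zero 7 x := by
  have := aux7 (x 2) (x 7) (x 13) (x 14) (x 18) (x 22) (x 25) (x 26) (x 29)
    ((h 6 (by decide)).1 rfl)
    ((h 14 (by decide)).2.2 rfl)
    ((h 21 (by decide)).1 rfl)
  refine ⟨this.1, fun a b c => ?_⟩
  simpa [tT] using this.2 a b c

theorem aux8 : ∀ x2 x7 x13 x16 x22 x25 x26 x29 : Bool,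
    x16 = x7 →
    x22 = x16 →
    x25 = x22 →
    semT 8 x2 x7 x13 x26 x25 x29 ∧ ((fue 8 → x2 = false) → (fvin 8 → x7 = false) →
      (flw 8 → x13 = false) → x7 = false ∧ x16 = false ∧ x22 = false ∧ True) := by
  decide +kernel

theorem sem8 (x : ℕ → Bool) (h : Loc 8 x) :
    semT 8 (x 2) (x (pN 8)) (x 13) (x 26) (x 25) (x 29) ∧ Zero 8 x := by
  have := aux8 (x 2) (x 7) (x 13) (x 16) (x 22) (x 25) (x 26) (x 29)
    ((h 6 (by decide)).1 rfl)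
    ((h 15 (by decide)).1 rfl)
    ((h 21 (by decide)).1 rfl)
  refine ⟨this.1, fun a b c => ?_⟩
  simpa [tT] using this.2 a b c

theorem aux9 : ∀ x2 x3 x7 x11 x13 x16 x25 x26 x29 : Bool,
    polyR 3 x2 x7 x16 x11 x3 = true →
    x26 = x11 →
    x29 = x16 →
    semT 9 x2 x7 x13 x26 x25 x29 ∧ ((fue 9 → x2 = false) → (fvin 9 → x7 = false) →
      (flw 9 → x13 = false) → x2 = false ∧ x7 = false ∧ x11 = false ∧ x16 = false ∧ True) := by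
  decide +kernel

theorem sem9 (x : ℕ → Bool) (h : Loc 9 x) :
    semT 9 (x 2) (x (pN 9)) (x 13) (x 26) (x 25) (x 29) ∧ Zero 9 x := by
  have := aux9 (x 2) (x 3) (x 7) (x 11) (x 13) (x 16) (x 25) (x 26) (x 29)
    ((h 3 (by decide)).2.2 rfl)
    ((h 10 (by decide)).1 rfl)
    ((h 15 (by decide)).1 rfl)
  refine ⟨this.1, fun a b c => ?_⟩
  simpa [tT] using this.2 a b c

theorem aux10 : ∀ x2 x3 x7 x11 x13 x14 x18 x22 x25 x26 x29 : Bool,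
    polyR 3 x2 x7 x18 x11 x3 = true →
    x26 = x11 →
    polyR 3 x13 x18 x29 x22 x14 = true →
    x25 = x22 →
    semT 10 x2 x7 x13 x26 x25 x29 ∧ ((fue 10 → x2 = false) → (fvin 10 → x7 = false) →
      (flw 10 → x13 = false) → x2 = false ∧ x7 = false ∧ x11 = false ∧ x13 = false ∧ x18 = false ∧ x22 = false ∧ True) := by
  decide +kernel

theorem sem10 (x : ℕ → Bool) (h : Loc 10 x) :
    semT 10 (x 2) (x (pN 10)) (x 13) (x 26) (x 25) (x 29) ∧ Zero 10 x := by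
  have := aux10 (x 2) (x 3) (x 7) (x 11) (x 13) (x 14) (x 18) (x 22) (x 25) (x 26) (x 29)
    ((h 3 (by decide)).2.2 rfl)
    ((h 10 (by decide)).1 rfl)
    ((h 14 (by decide)).2.2 rfl)
    ((h 21 (by decide)).1 rfl)
  refine ⟨this.1, fun a b c => ?_⟩
  simpa [tT] using this.2 a b c

theorem aux11 : ∀ x2 x3 x7 x11 x13 x16 x22 x25 x26 x29 : Bool,
    polyR 3 x2 x7 x16 x11 x3 = true →
    x26 = x11 →
    x22 = x16 →
    x25 = x22 →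
    semT 11 x2 x7 x13 x26 x25 x29 ∧ ((fue 11 → x2 = false) → (fvin 11 → x7 = false) →
      (flw 11 → x13 = false) → x2 = false ∧ x7 = false ∧ x11 = false ∧ x16 = false ∧ x22 = false ∧ True) := by
  decide +kernel

theorem sem11 (x : ℕ → Bool) (h : Loc 11 x) :
    semT 11 (x 2) (x (pN 11)) (x 13) (x 26) (x 25) (x 29) ∧ Zero 11 x := by
  have := aux11 (x 2) (x 3) (x 7) (x 11) (x 13) (x 16) (x 22) (x 25) (x 26) (x 29)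
    ((h 3 (by decide)).2.2 rfl)
    ((h 10 (by decide)).1 rfl)
    ((h 15 (by decide)).1 rfl)
    ((h 21 (by decide)).1 rfl)
  refine ⟨this.1, fun a b c => ?_⟩
  simpa [tT] using this.2 a b c

theorem aux12 : ∀ x2 x7 x13 x16 x25 x26 x29 : Bool,
    x16 = x2 →
    x29 = x16 →
    semT 12 x2 x7 x13 x26 x25 x29 ∧ ((fue 12 → x2 = false) → (fvin 12 → x7 = false) →
      (flw 12 → x13 = false) → x2 = false ∧ x16 = false ∧ True) := by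
  decide +kernel

theorem sem12 (x : ℕ → Bool) (h : Loc 12 x) :
    semT 12 (x 2) (x (pN 12)) (x 13) (x 26) (x 25) (x 29) ∧ Zero 12 x := by
  have := aux12 (x 2) (x 7) (x 13) (x 16) (x 25) (x 26) (x 29)
    ((h 3 (by decide)).2.1 rfl)
    ((h 15 (by decide)).1 rfl)
  refine ⟨this.1, fun a b c => ?_⟩
  simpa [tT] using this.2 a b c

theorem aux13 : ∀ x2 x7 x13 x14 x18 x22 x25 x26 x29 : Bool,
    x18 = x2 →
    polyR 3 x13 x18 x29 x22 x14 = true →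
    x25 = x22 →
    semT 13 x2 x7 x13 x26 x25 x29 ∧ ((fue 13 → x2 = false) → (fvin 13 → x7 = false) →
      (flw 13 → x13 = false) → x2 = false ∧ x13 = false ∧ x18 = false ∧ x22 = false ∧ True) := by
  decide +kernel

theorem sem13 (x : ℕ → Bool) (h : Loc 13 x) :
    semT 13 (x 2) (x (pN 13)) (x 13) (x 26) (x 25) (x 29) ∧ Zero 13 x := by
  have := aux13 (x 2) (x 7) (x 13) (x 14) (x 18) (x 22) (x 25) (x 26) (x 29)
    ((h 3 (by decide)).2.1 rfl)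
    ((h 14 (by decide)).2.2 rfl)
    ((h 21 (by decide)).1 rfl)
  refine ⟨this.1, fun a b c => ?_⟩
  simpa [tT] using this.2 a b c

theorem aux14 : ∀ x2 x7 x13 x16 x22 x25 x26 x29 : Bool,
    x16 = x2 →
    x22 = x16 →
    x25 = x22 →
    semT 14 x2 x7 x13 x26 x25 x29 ∧ ((fue 14 → x2 = false) → (fvin 14 → x7 = false) →
      (flw 14 → x13 = false) → x2 = false ∧ x16 = false ∧ x22 = false ∧ True) := by
  decide +kernel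

theorem sem14 (x : ℕ → Bool) (h : Loc 14 x) :
    semT 14 (x 2) (x (pN 14)) (x 13) (x 26) (x 25) (x 29) ∧ Zero 14 x := by
  have := aux14 (x 2) (x 7) (x 13) (x 16) (x 22) (x 25) (x 26) (x 29)
    ((h 3 (by decide)).2.1 rfl)
    ((h 15 (by decide)).1 rfl)
    ((h 21 (by decide)).1 rfl)
  refine ⟨this.1, fun a b c => ?_⟩
  simpa [tT] using this.2 a b c

theorem aux15 : ∀ x2 x7 x11 x13 x25 x26 x29 : Bool,
    x11 = x7 →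
    x26 = x11 →
    semT 15 x2 x7 x13 x26 x25 x29 ∧ ((fue 15 → x2 = false) → (fvin 15 → x7 = false) →
      (flw 15 → x13 = false) → x7 = false ∧ x11 = false ∧ True) := by
  decide +kernel

theorem sem15 (x : ℕ → Bool) (h : Loc 15 x) :
    semT 15 (x 2) (x (pN 15)) (x 13) (x 26) (x 25) (x 29) ∧ Zero 15 x := by
  have := aux15 (x 2) (x 7) (x 11) (x 13) (x 25) (x 26) (x 29)
    ((h 6 (by decide)).1 rfl)
    ((h 10 (by decide)).1 rfl)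
  refine ⟨this.1, fun a b c => ?_⟩
  simpa [tT] using this.2 a b c

theorem aux16 : ∀ x2 x7 x11 x13 x22 x25 x26 x29 : Bool,
    x11 = x7 →
    x26 = x11 →
    x22 = x13 →
    x25 = x22 →
    semT 16 x2 x7 x13 x26 x25 x29 ∧ ((fue 16 → x2 = false) → (fvin 16 → x7 = false) →
      (flw 16 → x13 = false) → x7 = false ∧ x11 = false ∧ x13 = false ∧ x22 = false ∧ True) := by
  decide +kernel

theorem sem16 (x : ℕ → Bool) (h : Loc 16 x) :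
    semT 16 (x 2) (x (pN 16)) (x 13) (x 26) (x 25) (x 29) ∧ Zero 16 x := by
  have := aux16 (x 2) (x 7) (x 11) (x 13) (x 22) (x 25) (x 26) (x 29)
    ((h 6 (by decide)).1 rfl)
    ((h 10 (by decide)).1 rfl)
    ((h 14 (by decide)).2.1 rfl)
    ((h 21 (by decide)).1 rfl)
  refine ⟨this.1, fun a b c => ?_⟩
  simpa [tT] using this.2 a b c

theorem aux17 : ∀ x2 x7 x11 x13 x25 x26 x29 : Bool,
    x11 = x7 →
    x26 = x11 →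
    x29 = x13 →
    semT 17 x2 x7 x13 x26 x25 x29 ∧ ((fue 17 → x2 = false) → (fvin 17 → x7 = false) →
      (flw 17 → x13 = false) → x7 = false ∧ x11 = false ∧ x13 = false ∧ True) := by
  decide +kernel

theorem sem17 (x : ℕ → Bool) (h : Loc 17 x) :
    semT 17 (x 2) (x (pN 17)) (x 13) (x 26) (x 25) (x 29) ∧ Zero 17 x := by
  have := aux17 (x 2) (x 7) (x 11) (x 13) (x 25) (x 26) (x 29)
    ((h 6 (by decide)).1 rfl)
    ((h 10 (by decide)).1 rfl)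
    ((h 14 (by decide)).2.1 rfl)
  refine ⟨this.1, fun a b c => ?_⟩
  simpa [tT] using this.2 a b c

theorem aux18 : ∀ x2 x3 x6 x13 x16 x25 x26 x28 x29 : Bool,
    polyR 2 x2 x6 x16 x3 x28 = true →
    x29 = x16 →
    semT 18 x2 x6 x13 x26 x25 x29 ∧ ((fue 18 → x2 = false) → (fvin 18 → x6 = false) →
      (flw 18 → x13 = false) → x2 = false ∧ x6 = false ∧ x16 = false ∧ True) := by
  decide +kernel

theorem sem18 (x : ℕ → Bool) (h : Loc 18 x) :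
    semT 18 (x 2) (x (pN 18)) (x 13) (x 26) (x 25) (x 29) ∧ Zero 18 x := by
  have := aux18 (x 2) (x 3) (x 6) (x 13) (x 16) (x 25) (x 26) (x 28) (x 29)
    ((h 3 (by decide)).2.2 rfl)
    ((h 15 (by decide)).1 rfl)
  refine ⟨this.1, fun a b c => ?_⟩
  simpa [tT] using this.2 a b c

theorem aux19 : ∀ x2 x3 x6 x13 x14 x18 x22 x25 x26 x28 x29 : Bool,
    polyR 2 x2 x6 x18 x3 x28 = true →
    polyR 3 x13 x18 x29 x22 x14 = true →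
    x25 = x22 →
    semT 19 x2 x6 x13 x26 x25 x29 ∧ ((fue 19 → x2 = false) → (fvin 19 → x6 = false) →
      (flw 19 → x13 = false) → x2 = false ∧ x6 = false ∧ x13 = false ∧ x18 = false ∧ x22 = false ∧ True) := by
  decide +kernel

theorem sem19 (x : ℕ → Bool) (h : Loc 19 x) :
    semT 19 (x 2) (x (pN 19)) (x 13) (x 26) (x 25) (x 29) ∧ Zero 19 x := by
  have := aux19 (x 2) (x 3) (x 6) (x 13) (x 14) (x 18) (x 22) (x 25) (x 26) (x 28) (x 29)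
    ((h 3 (by decide)).2.2 rfl)
    ((h 14 (by decide)).2.2 rfl)
    ((h 21 (by decide)).1 rfl)
  refine ⟨this.1, fun a b c => ?_⟩
  simpa [tT] using this.2 a b c

theorem aux20 : ∀ x2 x3 x6 x13 x16 x22 x25 x26 x28 x29 : Bool,
    polyR 2 x2 x6 x16 x3 x28 = true →
    x22 = x16 →
    x25 = x22 →
    semT 20 x2 x6 x13 x26 x25 x29 ∧ ((fue 20 → x2 = false) → (fvin 20 → x6 = false) →
      (flw 20 → x13 = false) → x2 = false ∧ x6 = false ∧ x16 = false ∧ x22 = false ∧ True) := by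
  decide +kernel

theorem sem20 (x : ℕ → Bool) (h : Loc 20 x) :
    semT 20 (x 2) (x (pN 20)) (x 13) (x 26) (x 25) (x 29) ∧ Zero 20 x := by
  have := aux20 (x 2) (x 3) (x 6) (x 13) (x 16) (x 22) (x 25) (x 26) (x 28) (x 29)
    ((h 3 (by decide)).2.2 rfl)
    ((h 15 (by decide)).1 rfl)
    ((h 21 (by decide)).1 rfl)
  refine ⟨this.1, fun a b c => ?_⟩
  simpa [tT] using this.2 a b c

theorem aux21 : ∀ x2 x8 x11 x13 x16 x19 x22 x25 x26 x29 : Bool,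
    polyR 4 x2 x8 x19 x16 x11 = true →
    x26 = x11 →
    x29 = x16 →
    x22 = x19 →
    x25 = x22 →
    semT 21 x2 x8 x13 x26 x25 x29 ∧ ((fue 21 → x2 = false) → (fvin 21 → x8 = false) →
      (flw 21 → x13 = false) → x2 = false ∧ x8 = false ∧ x11 = false ∧ x16 = false ∧ x19 = false ∧ x22 = false ∧ True) := by
  decide +kernel

theorem sem21 (x : ℕ → Bool) (h : Loc 21 x) :
    semT 21 (x 2) (x (pN 21)) (x 13) (x 26) (x 25) (x 29) ∧ Zero 21 x := by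
  have := aux21 (x 2) (x 8) (x 11) (x 13) (x 16) (x 19) (x 22) (x 25) (x 26) (x 29)
    ((h 3 (by decide)).2.2 rfl)
    ((h 10 (by decide)).1 rfl)
    ((h 15 (by decide)).1 rfl)
    ((h 18 (by decide)).1 rfl)
    ((h 21 (by decide)).1 rfl)
  refine ⟨this.1, fun a b c => ?_⟩
  simpa [tT] using this.2 a b c

theorem aux22 : ∀ x2 x7 x9 x13 x25 x26 x29 : Bool,
    x26 = x9 →
    x9 = x13 →
    semT 22 x2 x7 x13 x26 x25 x29 ∧ ((fue 22 → x2 = false) → (fvin 22 → x7 = false) →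
      (flw 22 → x13 = false) → x9 = false ∧ x13 = false ∧ True) := by
  decide +kernel

theorem sem22 (x : ℕ → Bool) (h : Loc 22 x) :
    semT 22 (x 2) (x (pN 22)) (x 13) (x 26) (x 25) (x 29) ∧ Zero 22 x := by
  have := aux22 (x 2) (x 7) (x 9) (x 13) (x 25) (x 26) (x 29)
    ((h 10 (by decide)).2.1 rfl)
    ((h 14 (by decide)).2.1 rfl)
  refine ⟨this.1, fun a b c => ?_⟩
  simpa [tT] using this.2 a b c

theorem sem_all (t : ℕ) (ht : t < 23) (x : ℕ → Bool) (h : Loc t x) :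
    semT t (x 2) (x (pN t)) (x 13) (x 26) (x 25) (x 29) ∧ Zero t x := by
  interval_cases t
  · exact sem0 x h
  · exact sem1 x h
  · exact sem2 x h
  · exact sem3 x h
  · exact sem4 x h
  · exact sem5 x h
  · exact sem6 x h
  · exact sem7 x h
  · exact sem8 x h
  · exact sem9 x h
  · exact sem10 x h
  · exact sem11 x h
  · exact sem12 x h
  · exact sem13 x h
  · exact sem14 x h
  · exact sem15 x h
  · exact sem16 x h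
  · exact sem17 x h
  · exact sem18 x h
  · exact sem19 x h
  · exact sem20 x h
  · exact sem21 x h
  · exact sem22 x h

end Pool.Agent.Lib.MP_33ce69_lc.Odd
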